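import Pool.Agent.Work.MP_64ea0f_cs.RAC

set_option autoImplicit false

/-! # Right-angled Coxeter groups: the word problem

`G : SimpleGraph Λ`, adjacent generators commute, `RC G`, `wp G l` the product of the word `l`.
`Red G l`: the word `l` has no part `s u s` with `u` commuting with `s`.  `Sh G l l'`: the words differ by
swaps of adjacent (commuting) letters. -/

namespace Pool.CS

section
variable {Λ : Type} {G : SimpleGraph Λ}

/-- equivalence of words by swaps of commuting letters -/
inductive Sh (G : SimpleGraph Λ) : List Λ → List Λ → Prop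
  | refl (l : List Λ) : Sh G l l
  | swap (a b : Λ) (l : List Λ) (h : G.Adj a b) : Sh G (a :: b :: l) (b :: a :: l)
  | cons (a : Λ) {l l' : List Λ} (h : Sh G l l') : Sh G (a :: l) (a :: l')
  | trans {l l' l'' : List Λ} (h : Sh G l l') (h' : Sh G l' l'') : Sh G l l''

theorem Sh.symm {l l' : List Λ} (h : Sh G l l') : Sh G l' l := by
  induction h with
  | refl l => exact Sh.refl l
  | swap a b l h => exact Sh.swap b a l h.symm
  | cons a _ ih => exact Sh.cons a ih
  | trans _ _ ih ih' => exact Sh.trans ih' ih

theorem Sh.perm {l l' : List Λ} (h : Sh G l l') : l.Perm l' := by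
  induction h with
  | refl l => exact List.Perm.refl l
  | swap a b l _ => exact List.Perm.swap b a l
  | cons a _ ih => exact ih.cons a
  | trans _ _ ih ih' => exact ih.trans ih'

theorem Sh.length_eq {l l' : List Λ} (h : Sh G l l') : l.length = l'.length := h.perm.length_eq

theorem Sh.append_left (x : List Λ) {l l' : List Λ} (h : Sh G l l') : Sh G (x ++ l) (x ++ l') := by
  induction x with
  | nil => exact h
  | cons a x ih => exact Sh.cons a ih

theorem Sh.append_right {l l' : List Λ} (h : Sh G l l') (x : List Λ) : Sh G (l ++ x) (l' ++ x) := by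
  induction h with
  | refl l => exact Sh.refl _
  | swap a b l h => exact Sh.swap a b (l ++ x) h
  | cons a _ ih => exact Sh.cons a ih
  | trans _ _ ih ih' => exact Sh.trans ih ih'

theorem Sh.append {l l' m m' : List Λ} (h : Sh G l l') (h' : Sh G m m') :
    Sh G (l ++ m) (l' ++ m') := (h.append_right m).trans (h'.append_left l')

theorem Sh.reverse {l l' : List Λ} (h : Sh G l l') : Sh G l.reverse l'.reverse := by
  induction h with
  | refl l => exact Sh.refl _
  | swap a b l h =>
    simp only [List.reverse_cons, List.append_assoc, List.singleton_append]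
    exact (Sh.swap b a [] h.symm).append_left _
  | cons a _ ih =>
    rw [List.reverse_cons, List.reverse_cons]
    exact ih.append_right _
  | trans _ _ ih ih' => exact ih.trans ih'

theorem Sh.wp_eq {l l' : List Λ} (h : Sh G l l') : wp G l = wp G l' := by
  induction h with
  | refl l => rfl
  | swap a b l h => rw [wp_cons, wp_cons, wp_cons, wp_cons, ← mul_assoc, ← mul_assoc, rg_comm h]
  | cons a _ ih => rw [wp_cons, wp_cons, ih]
  | trans _ _ ih ih' => exact ih.trans ih'

/-- a letter which commutes with all letters of `y` can be moved through `y` -/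
theorem Sh.move {s : Λ} (y z : List Λ) (h : ∀ b ∈ y, G.Adj b s) :
    Sh G (y ++ s :: z) (s :: (y ++ z)) := by
  induction y with
  | nil => exact Sh.refl _
  | cons a y ih =>
    have h1 := ih (fun b hb => h b (List.mem_cons_of_mem _ hb))
    exact (Sh.cons a h1).trans (Sh.swap a s _ (h a List.mem_cons_self))

open Classical in
/-- delete the occurrence of `s` which can be moved to the head -/
noncomputable def del (G : SimpleGraph Λ) (s : Λ) : List Λ → Option (List Λ)
  | [] => none
  | a :: l => if a = s then some l else if G.Adj a s then (del G s l).map (fun m => a :: m) else none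

theorem del_nil (s : Λ) : del G s [] = none := rfl

theorem del_self (s : Λ) (l : List Λ) : del G s (s :: l) = some l := by
  rw [del, if_pos rfl]

theorem del_adj {a s : Λ} (h : G.Adj a s) (l : List Λ) :
    del G s (a :: l) = (del G s l).map (fun m => a :: m) := by
  rw [del, if_neg h.ne, if_pos h]

theorem del_other {a s : Λ} (h : a ≠ s) (h' : ¬ G.Adj a s) (l : List Λ) :
    del G s (a :: l) = none := by
  rw [del, if_neg h, if_neg h']

theorem del_cons_some {a s : Λ} {l m : List Λ} (h : del G s (a :: l) = some m) :
    (a = s ∧ m = l) ∨ (G.Adj a s ∧ ∃ m', del G s l = some m' ∧ m = a :: m') := by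
  by_cases h1 : a = s
  · subst h1
    rw [del_self] at h
    exact Or.inl ⟨rfl, (Option.some.inj h).symm⟩
  · by_cases h2 : G.Adj a s
    · rw [del_adj h2, Option.map_eq_some_iff] at h
      obtain ⟨m', h3, h4⟩ := h
      exact Or.inr ⟨h2, m', h3, h4.symm⟩
    · rw [del_other h1 h2] at h
      exact absurd h (by simp)

theorem del_some_iff {s : Λ} {l m : List Λ} :
    del G s l = some m ↔ ∃ y z, l = y ++ s :: z ∧ (∀ b ∈ y, G.Adj b s) ∧ m = y ++ z := by
  constructor
  · intro h
    induction l generalizing m with
    | nil => exact absurd h (by simp [del_nil])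
    | cons a l ih =>
      rcases del_cons_some h with ⟨h1, h2⟩ | ⟨h1, m', h2, h3⟩
      · exact ⟨[], l, by rw [h1]; rfl, by simp, by rw [h2]; rfl⟩
      · obtain ⟨y, z, h4, h5, h6⟩ := ih h2
        refine ⟨a :: y, z, by rw [h4]; rfl, ?_, by rw [h3, h6]; rfl⟩
        intro b hb
        rcases List.mem_cons.mp hb with rfl | hb
        · exact h1
        · exact h5 b hb
  · rintro ⟨y, z, rfl, h, rfl⟩
    induction y with
    | nil => exact del_self s z
    | cons a y ih =>
      rw [List.cons_append, del_adj (h a List.mem_cons_self),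
        ih (fun b hb => h b (List.mem_cons_of_mem _ hb))]
      rfl

theorem del_some_sh {s : Λ} {l m : List Λ} (h : del G s l = some m) : Sh G l (s :: m) := by
  obtain ⟨y, z, rfl, h1, rfl⟩ := del_some_iff.mp h
  exact Sh.move y z h1

theorem del_sh {s : Λ} {l l' : List Λ} (h : Sh G l l') :
    ∀ m, del G s l = some m → ∃ m', del G s l' = some m' ∧ Sh G m m' := by
  induction h with
  | refl l => intro m hm; exact ⟨m, hm, Sh.refl m⟩
  | swap a b l h =>
    intro m hm
    rcases del_cons_some hm with ⟨h1, h2⟩ | ⟨h1, m1, h2, h3⟩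
    · subst h1
      refine ⟨b :: l, ?_, by rw [h2]; exact Sh.refl _⟩
      rw [del_adj h.symm, del_self]; rfl
    · rcases del_cons_some h2 with ⟨h4, h5⟩ | ⟨h4, m2, h5, h6⟩
      · subst h4
        refine ⟨a :: l, del_self _ _, ?_⟩
        rw [h3, h5]; exact Sh.refl _
      · refine ⟨b :: a :: m2, ?_, ?_⟩
        · rw [del_adj h4, del_adj h1, h5]; rfl
        · rw [h3, h6]; exact Sh.swap a b m2 h
  | cons a h ih =>
    intro m hm
    rcases del_cons_some hm with ⟨h1, h2⟩ | ⟨h1, m1, h2, h3⟩
    · subst h1
      exact ⟨_, del_self _ _, by rw [h2]; exact h⟩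
    · obtain ⟨m', h4, h5⟩ := ih m1 h2
      refine ⟨a :: m', ?_, ?_⟩
      · rw [del_adj h1, h4]; rfl
      · rw [h3]; exact Sh.cons a h5
  | trans _ _ ih ih' =>
    intro m hm
    obtain ⟨m', h1, h2⟩ := ih m hm
    obtain ⟨m'', h3, h4⟩ := ih' m' h1
    exact ⟨m'', h3, h2.trans h4⟩

theorem del_none_sh {s : Λ} {l l' : List Λ} (h : Sh G l l') (h' : del G s l = none) :
    del G s l' = none := by
  by_contra h1
  obtain ⟨m, hm⟩ := Option.ne_none_iff_exists'.mp h1
  obtain ⟨m', h2, _⟩ := del_sh h.symm m hm
  rw [h'] at h2
  exact absurd h2 (by simp)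

/-- reduced words -/
def Red (G : SimpleGraph Λ) : List Λ → Prop
  | [] => True
  | a :: l => del G a l = none ∧ Red G l

theorem Red.tail {a : Λ} {l : List Λ} (h : Red G (a :: l)) : Red G l := h.2

theorem red_nil : Red G [] := trivial

theorem red_cons {a : Λ} {l : List Λ} : Red G (a :: l) ↔ del G a l = none ∧ Red G l := Iff.rfl

theorem del_adj_none {a s : Λ} (h : G.Adj a s) (l : List Λ) :
    del G s (a :: l) = none ↔ del G s l = none := by
  rw [del_adj h, Option.map_eq_none_iff]

theorem Red.sh {l l' : List Λ} (h : Sh G l l') : Red G l → Red G l' := by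
  induction h with
  | refl l => exact id
  | swap a b l h =>
    rintro ⟨h1, h2, h3⟩
    rw [del_adj_none h.symm] at h1
    exact ⟨(del_adj_none h l).mpr h2, h1, h3⟩
  | cons a h ih => rintro ⟨h1, h2⟩; exact ⟨del_none_sh h h1, ih h2⟩
  | trans _ _ ih ih' => intro h; exact ih' (ih h)

/-- the pattern form of reducedness -/
theorem red_iff {l : List Λ} :
    Red G l ↔ ∀ x y z a, l = x ++ a :: (y ++ a :: z) → ∃ b ∈ y, ¬ G.Adj b a := by
  induction l with
  | nil =>
    refine ⟨fun _ x y z a h => ?_, fun _ => trivial⟩
    exact absurd h (by simp)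
  | cons c l ih =>
    rw [red_cons, ih]
    constructor
    · rintro ⟨h1, h2⟩ x y z a h
      cases x with
      | nil =>
        rw [List.nil_append, List.cons.injEq] at h
        obtain ⟨rfl, h⟩ := h
        by_contra h3
        push Not at h3
        have := del_some_iff.mpr ⟨y, z, h, h3, rfl⟩
        rw [h1] at this
        exact absurd this (by simp)
      | cons d x =>
        rw [List.cons_append, List.cons.injEq] at h
        exact h2 x y z a h.2
    · intro h
      refine ⟨?_, fun x y z a h1 => h (c :: x) y z a (by rw [h1]; rfl)⟩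
      by_contra h1
      obtain ⟨m, hm⟩ := Option.ne_none_iff_exists'.mp h1
      obtain ⟨y, z, h2, h3, _⟩ := del_some_iff.mp hm
      obtain ⟨b, hb, h4⟩ := h [] y z c (by rw [h2]; rfl)
      exact h4 (h3 b hb)

theorem Red.reverse {l : List Λ} (h : Red G l) : Red G l.reverse := by
  rw [red_iff] at h ⊢
  intro x y z a h1
  have h2 : l = z.reverse ++ a :: (y.reverse ++ a :: x.reverse) := by
    rw [← List.reverse_reverse l, h1]
    simp
  obtain ⟨b, hb, h3⟩ := h _ _ _ _ h2
  exact ⟨b, List.mem_reverse.mp hb, h3⟩

theorem red_reverse {l : List Λ} : Red G l.reverse ↔ Red G l :=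
  ⟨fun h => by have := h.reverse; rwa [List.reverse_reverse] at this, Red.reverse⟩

theorem Red.inner {x l z : List Λ} (h : Red G (x ++ l ++ z)) : Red G l := by
  rw [red_iff] at h ⊢
  rintro x' y z' a rfl
  exact h (x ++ x') y (z' ++ z) a (by simp)

theorem Red.left {l z : List Λ} (h : Red G (l ++ z)) : Red G l := Red.inner (x := []) h

theorem Red.right {x l : List Λ} (h : Red G (x ++ l)) : Red G l := by
  have h' : Red G (x ++ l ++ []) := by rw [List.append_nil]; exact h
  exact Red.inner h'

theorem Red.del {s : Λ} {l m : List Λ} (h : Red G l) (h' : del G s l = some m) :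
    Red G m ∧ Pool.CS.del G s m = none := by
  have h1 := Red.sh (del_some_sh h') h
  exact ⟨h1.2, h1.1⟩

/-- multiplication of a reduced word by a generator, at the head -/
noncomputable def act (G : SimpleGraph Λ) (s : Λ) (l : List Λ) : List Λ :=
  (del G s l).getD (s :: l)

theorem act_none {s : Λ} {l : List Λ} (h : del G s l = none) : act G s l = s :: l := by
  rw [act, h]; rfl

theorem act_some {s : Λ} {l m : List Λ} (h : del G s l = some m) : act G s l = m := by
  rw [act, h]; rfl

theorem act_sh {s : Λ} {l l' : List Λ} (h : Sh G l l') : Sh G (act G s l) (act G s l') := by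
  cases h1 : del G s l with
  | none => rw [act_none h1, act_none (del_none_sh h h1)]; exact Sh.cons s h
  | some m =>
    obtain ⟨m', h2, h3⟩ := del_sh h m h1
    rw [act_some h1, act_some h2]; exact h3

theorem act_red {s : Λ} {l : List Λ} (h : Red G l) : Red G (act G s l) := by
  cases h1 : del G s l with
  | none => rw [act_none h1]; exact ⟨h1, h⟩
  | some m => rw [act_some h1]; exact (h.del h1).1

theorem act_act {s : Λ} {l : List Λ} (h : Red G l) : Sh G (act G s (act G s l)) l := by
  cases h1 : del G s l with
  | none => rw [act_none h1, act_some (del_self s l)]; exact Sh.refl l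
  | some m =>
    rw [act_some h1, act_none (h.del h1).2]
    exact (del_some_sh h1).symm

theorem act_comm {a b : Λ} (hab : G.Adj a b) {l : List Λ} :
    Sh G (act G a (act G b l)) (act G b (act G a l)) := by
  have key : ∀ (a b : Λ), G.Adj a b → ∀ l m, del G a l = some m → del G b l = none →
      Sh G (act G a (act G b l)) (act G b (act G a l)) := by
    intro a b hab l m h1 h2
    have h3 : del G b m = none := by
      have h4 := del_none_sh (del_some_sh h1) h2
      rwa [del_adj_none hab] at h4
    have h5 : del G a (b :: l) = some (b :: m) := by rw [del_adj hab.symm, h1]; rfl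
    rw [act_none h2, act_some h1, act_none h3, act_some h5]
    exact Sh.refl _
  cases h1 : del G a l with
  | none =>
    cases h2 : del G b l with
    | none =>
      have h3 : del G a (b :: l) = none := (del_adj_none hab.symm l).mpr h1
      have h4 : del G b (a :: l) = none := (del_adj_none hab l).mpr h2
      rw [act_none h1, act_none h2, act_none h3, act_none h4]
      exact Sh.swap a b l hab
    | some m => exact (key b a hab.symm l m h2 h1).symm
  | some ma =>
    cases h2 : del G b l with
    | none => exact key a b hab l ma h1 h2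
    | some mb =>
      obtain ⟨m', h3, h4⟩ := del_sh (del_some_sh h1) mb h2
      rw [del_adj hab, Option.map_eq_some_iff] at h3
      obtain ⟨mab, h5, h6⟩ := h3
      rw [act_some h1, act_some h2, act_some h5]
      have h7 := act_sh (s := a) h4
      rw [← h6, act_some (del_self a mab)] at h7
      exact h7

/-- reduced words up to swaps -/
def trSetoid (G : SimpleGraph Λ) : Setoid {l : List Λ // Red G l} where
  r := fun l l' => Sh G l.1 l'.1
  iseqv := ⟨fun l => Sh.refl _, Sh.symm, Sh.trans⟩

/-- traces -/
def Tr (G : SimpleGraph Λ) : Type := Quotient (trSetoid G)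

/-- the class of a reduced word -/
def Tr.mk (l : List Λ) (h : Red G l) : Tr G := Quotient.mk (trSetoid G) ⟨l, h⟩

theorem Tr.mk_eq {l l' : List Λ} (h : Red G l) (h' : Red G l') :
    Tr.mk l h = Tr.mk l' h' ↔ Sh G l l' := by
  constructor
  · intro h1; exact Quotient.exact (s := trSetoid G) h1
  · intro h1; exact Quotient.sound (s := trSetoid G) h1

theorem Tr.ind {p : Tr G → Prop} (h : ∀ l hl, p (Tr.mk l hl)) (t : Tr G) : p t :=
  Quotient.ind (fun l => h l.1 l.2) t

/-- the action of the generators on traces -/
noncomputable def Tr.τ (s : Λ) : Tr G → Tr G :=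
  Quotient.map (sa := trSetoid G) (sb := trSetoid G) (fun l => ⟨act G s l.1, act_red l.2⟩)
    (fun _ _ h => act_sh h)

theorem Tr.τ_mk (s : Λ) (l : List Λ) (h : Red G l) :
    Tr.τ s (Tr.mk l h) = Tr.mk (act G s l) (act_red h) := rfl

/-- the right action of `RC G` on traces (words are stored with the last letter at the head) -/
noncomputable def trLS (G : SimpleGraph Λ) : LS G (Tr G) where
  τ := Tr.τ
  inv := by
    intro a v
    induction v using Tr.ind with
    | h l hl =>
      rw [Tr.τ_mk, Tr.τ_mk, Tr.mk_eq]
      exact act_act hl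
  com := by
    intro a b hab v
    induction v using Tr.ind with
    | h l hl =>
      rw [Tr.τ_mk, Tr.τ_mk, Tr.τ_mk, Tr.τ_mk, Tr.mk_eq]
      exact act_comm hab

/-- the trace of a group element -/
noncomputable def tr (w : RC G) : Tr G := (trLS G).r (Tr.mk [] red_nil) w

theorem tr_one : tr (1 : RC G) = Tr.mk [] red_nil := (trLS G).r_one _

theorem tr_mul_rg (w : RC G) (s : Λ) : tr (w * rg G s) = Tr.τ s (tr w) := by
  rw [tr, LS.r_mul, LS.r_rg]; rfl

theorem tr_wp {l : List Λ} (h : Red G l) : tr (wp G l) = Tr.mk l.reverse h.reverse := by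
  induction l using List.reverseRecOn with
  | nil => exact tr_one
  | append_singleton l a ih =>
    have h1 : Red G l := h.left
    rw [wp_append, wp_cons, wp_nil, mul_one, tr_mul_rg, ih h1, Tr.τ_mk, Tr.mk_eq]
    have h2 : (l ++ [a]).reverse = a :: l.reverse := by simp
    have h3 := h.reverse
    rw [h2] at h3
    rw [h2, act_none h3.1]
    exact Sh.refl _

theorem wp_reverse (l : List Λ) : wp G l.reverse = (wp G l)⁻¹ := by
  induction l with
  | nil => simp [wp_nil]
  | cons a l ih =>
    rw [List.reverse_cons, wp_append, ih, wp_cons, wp_cons, wp_nil, mul_one, mul_inv_rev, rg_inv]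

/-- every element is the product of a reduced word -/
theorem exists_red (w : RC G) : ∃ l, Red G l ∧ wp G l = w := by
  induction w using rac_induction with
  | h1 => exact ⟨[], trivial, wp_nil G⟩
  | h2 a c ih =>
    obtain ⟨l, h1, h2⟩ := ih
    cases h3 : del G a l with
    | none => exact ⟨a :: l, ⟨h3, h1⟩, by rw [wp_cons, h2]⟩
    | some m =>
      refine ⟨m, (h1.del h3).1, ?_⟩
      rw [← h2, (del_some_sh h3).wp_eq, wp_cons, ← mul_assoc, rg_mul_self, one_mul]

/-- **Tits**: two reduced words of the same element differ by swaps -/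
theorem red_sh {l l' : List Λ} (h : Red G l) (h' : Red G l') (he : wp G l = wp G l') :
    Sh G l l' := by
  have h1 := tr_wp h
  rw [he, tr_wp h', Tr.mk_eq] at h1
  have h2 := h1.symm.reverse
  rwa [List.reverse_reverse, List.reverse_reverse] at h2

/-! ## length -/

/-- the length of a trace -/
def Tr.len : Tr G → ℕ := Quotient.lift (fun l => l.1.length) (fun _ _ h => Sh.length_eq h)

/-- the word length -/
noncomputable def len (w : RC G) : ℕ := (tr w).len

theorem len_wp {l : List Λ} (h : Red G l) : len (wp G l) = l.length := by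
  rw [len, tr_wp h]
  exact List.length_reverse

theorem len_one : len (1 : RC G) = 0 := by
  have := len_wp (G := G) (l := []) trivial
  rwa [wp_nil] at this

theorem len_eq_zero {w : RC G} : len w = 0 ↔ w = 1 := by
  constructor
  · intro h
    obtain ⟨l, h1, rfl⟩ := exists_red w
    rw [len_wp h1, List.length_eq_zero_iff] at h
    rw [h, wp_nil]
  · rintro rfl; exact len_one

theorem len_inv (w : RC G) : len w⁻¹ = len w := by
  obtain ⟨l, h1, rfl⟩ := exists_red w
  rw [← wp_reverse, len_wp h1.reverse, len_wp h1, List.length_reverse]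

/-- right descents -/
def RD (s : Λ) (w : RC G) : Prop := len (w * rg G s) < len w

theorem rd_iff {s : Λ} {l : List Λ} (h : Red G l) :
    RD s (wp G l) ↔ ∃ x y, l = x ++ s :: y ∧ ∀ b ∈ y, G.Adj b s := by
  have h0 : tr (wp G l * rg G s) = Tr.mk (act G s l.reverse) (act_red h.reverse) := by
    rw [tr_mul_rg, tr_wp h, Tr.τ_mk]
  have h1 : len (wp G l * rg G s) = (act G s l.reverse).length := by rw [len, h0]; rfl
  rw [RD, h1, len_wp h]
  cases h2 : del G s l.reverse with
  | none =>
    rw [act_none h2]
    constructor
    · intro h3; simp at h3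
    · rintro ⟨x, y, rfl, h3⟩
      have h4 := (del_some_iff (G := G) (l := (x ++ s :: y).reverse)).mpr
        ⟨y.reverse, x.reverse, by simp, fun b hb => h3 b (List.mem_reverse.mp hb), rfl⟩
      rw [h2] at h4
      exact absurd h4 (by simp)
  | some m =>
    obtain ⟨y, z, h3, h4, h5⟩ := del_some_iff.mp h2
    rw [act_some h2]
    constructor
    · intro _
      refine ⟨z.reverse, y.reverse, ?_, fun b hb => h4 b (List.mem_reverse.mp hb)⟩
      rw [← List.reverse_reverse l, h3, List.reverse_append, List.reverse_cons, List.append_assoc,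
        List.singleton_append]
    · intro _
      have h6 := (del_some_sh h2).length_eq
      simp only [List.length_reverse, List.length_cons] at h6
      omega

theorem len_mul_rg_of_rd {s : Λ} {w : RC G} (h : RD s w) : len (w * rg G s) + 1 = len w := by
  obtain ⟨l, h1, rfl⟩ := exists_red w
  obtain ⟨x, y, h2, h3⟩ := (rd_iff h1).mp h
  have h4 : Sh G l.reverse (s :: (y.reverse ++ x.reverse)) := by
    rw [h2]
    have := Sh.move (G := G) (s := s) y.reverse x.reverse (fun b hb => h3 b (List.mem_reverse.mp hb))
    simpa using this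
  have h5 : Sh G l (x ++ y ++ [s]) := by
    have := h4.reverse
    simpa using this
  have h6 : Red G (x ++ y ++ [s]) := Red.sh h5 h1
  rw [h5.wp_eq, wp_append, wp_cons, wp_nil, mul_one, mul_assoc, rg_mul_self, mul_one, len_wp h6.left,
    ← mul_one (rg G s), ← wp_nil, ← wp_cons, ← wp_append, len_wp h6]
  simp [Nat.add_assoc]

theorem len_mul_rg_of_not {s : Λ} {w : RC G} (h : ¬ RD s w) : len (w * rg G s) = len w + 1 := by
  obtain ⟨l, h1, rfl⟩ := exists_red w
  have h0 : tr (wp G l * rg G s) = Tr.mk (act G s l.reverse) (act_red h1.reverse) := by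
    rw [tr_mul_rg, tr_wp h1, Tr.τ_mk]
  have h2 : len (wp G l * rg G s) = (act G s l.reverse).length := by rw [len, h0]; rfl
  cases h3 : del G s l.reverse with
  | none =>
    rw [h2, act_none h3, len_wp h1]
    simp
  | some m =>
    exfalso
    apply h
    obtain ⟨y, z, h4, h5, h6⟩ := del_some_iff.mp h3
    refine (rd_iff h1).mpr ⟨z.reverse, y.reverse, ?_, fun b hb => h5 b (List.mem_reverse.mp hb)⟩
    rw [← List.reverse_reverse l, h4]; simp

theorem red_concat {s : Λ} {l : List Λ} (h : Red G l) (h' : ¬ RD s (wp G l)) :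
    Red G (l ++ [s]) := by
  rw [← red_reverse]
  have h2 : (l ++ [s]).reverse = s :: l.reverse := by simp
  rw [h2]
  refine ⟨?_, h.reverse⟩
  by_contra h3
  obtain ⟨m, hm⟩ := Option.ne_none_iff_exists'.mp h3
  obtain ⟨y, z, h4, h5, h6⟩ := del_some_iff.mp hm
  apply h'
  refine (rd_iff h).mpr ⟨z.reverse, y.reverse, ?_, fun b hb => h5 b (List.mem_reverse.mp hb)⟩
  rw [← List.reverse_reverse l, h4]; simp

theorem rd_concat {s : Λ} {l : List Λ} (h : Red G (l ++ [s])) :
    ¬ RD s (wp G l) ∧ RD s (wp G (l ++ [s])) := by
  have h1 := len_wp h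
  have h2 := len_wp h.left
  rw [List.length_append, List.length_singleton] at h1
  have h3 : wp G (l ++ [s]) = wp G l * rg G s := by rw [wp_append, wp_cons, wp_nil, mul_one]
  refine ⟨?_, ?_⟩
  · rw [RD, ← h3]; omega
  · rw [RD, h3, mul_assoc, rg_mul_self, mul_one, ← h3]; omega

/-- any descent can be the last letter of a reduced word -/
theorem exists_red_concat {s : Λ} {w : RC G} (h : RD s w) :
    ∃ l, Red G (l ++ [s]) ∧ wp G (l ++ [s]) = w := by
  obtain ⟨l, h1, h2⟩ := exists_red (w * rg G s)
  have h3 : ¬ RD s (wp G l) := by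
    rw [h2, RD, mul_assoc, rg_mul_self, mul_one]
    unfold RD at h
    omega
  refine ⟨l, red_concat h1 h3, ?_⟩
  rw [wp_append, h2, wp_cons, wp_nil, mul_one, mul_assoc, rg_mul_self, mul_one]

/-- **exchange**: a descent of a reduced word is a letter which commutes with all later ones -/
theorem exchange {s : Λ} {l : List Λ} (h : Red G l) (h' : RD s (wp G l)) :
    ∃ x y, l = x ++ s :: y ∧ (∀ b ∈ y, G.Adj b s) ∧ Sh G l (x ++ y ++ [s]) ∧ Red G (x ++ y) ∧
      wp G (x ++ y) = wp G l * rg G s := by
  obtain ⟨x, y, h2, h3⟩ := (rd_iff h).mp h'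
  have h4 : Sh G l.reverse (s :: (y.reverse ++ x.reverse)) := by
    rw [h2]
    have := Sh.move (G := G) (s := s) y.reverse x.reverse (fun b hb => h3 b (List.mem_reverse.mp hb))
    simpa using this
  have h5 : Sh G l (x ++ y ++ [s]) := by
    have := h4.reverse
    simpa using this
  have h6 : Red G (x ++ y ++ [s]) := Red.sh h5 h
  refine ⟨x, y, h2, h3, h5, h6.left, ?_⟩
  rw [h5.wp_eq, wp_append _ (x ++ y), wp_cons, wp_nil, mul_one, mul_assoc, rg_mul_self, mul_one]

/-- two different descents are adjacent -/
theorem rd_adj {s t : Λ} {w : RC G} (hs : RD s w) (ht : RD t w) (hst : s ≠ t) : G.Adj s t := by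
  obtain ⟨l, h1, rfl⟩ := exists_red_concat hs
  obtain ⟨x, y, h2, h3⟩ := (rd_iff h1).mp ht
  rcases List.eq_nil_or_concat y with rfl | ⟨y', b, rfl⟩
  · have := congrArg List.getLast? h2
    simp at this
    exact absurd this hst
  · have h5 : l ++ [s] = (x ++ t :: y') ++ [b] := by rw [h2]; simp
    have h4 : [s] = [b] := (List.append_inj' h5 rfl).2
    rw [List.cons.injEq] at h4
    rw [h4.1]
    exact h3 b (by simp)

theorem rd_mul {s t : Λ} {w : RC G} (hs : RD s w) (ht : RD t w) (hst : s ≠ t) :
    RD t (w * rg G s) := by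
  obtain ⟨l, h1, rfl⟩ := exists_red_concat hs
  have h0 : wp G (l ++ [s]) * rg G s = wp G l := by
    rw [wp_append, wp_cons, wp_nil, mul_one, mul_assoc, rg_mul_self, mul_one]
  rw [h0]
  obtain ⟨x, y, h2, h3⟩ := (rd_iff h1).mp ht
  rcases List.eq_nil_or_concat y with rfl | ⟨y', b, rfl⟩
  · have := congrArg List.getLast? h2
    simp at this
    exact absurd this hst
  · have h4 : l ++ [s] = (x ++ t :: y') ++ [b] := by rw [h2]; simp
    have h5 : l = x ++ t :: y' := (List.append_inj' h4 rfl).1
    exact (rd_iff h1.left).mpr ⟨x, y', h5, fun c hc => h3 c (by simp [hc])⟩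

theorem rd_of_mul {s t : Λ} {w : RC G} (hs : ¬ RD s w) (ht : RD t (w * rg G s)) (hst : t ≠ s) :
    G.Adj s t ∧ RD t w := by
  obtain ⟨l, h1, rfl⟩ := exists_red w
  have h2 := red_concat h1 hs
  have h0 : wp G l * rg G s = wp G (l ++ [s]) := by rw [wp_append, wp_cons, wp_nil, mul_one]
  rw [h0] at ht
  have h3 := (rd_concat h2).2
  have h4 := rd_mul h3 ht (Ne.symm hst)
  rw [← h0, mul_assoc, rg_mul_self, mul_one] at h4
  exact ⟨rd_adj h3 ht (Ne.symm hst), h4⟩

theorem rd_mul_self {s : Λ} {w : RC G} (hs : ¬ RD s w) : RD s (w * rg G s) := by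
  rw [RD, mul_assoc, rg_mul_self, mul_one, len_mul_rg_of_not hs]
  omega

theorem not_rd_mul_self {s : Λ} {w : RC G} (hs : RD s w) : ¬ RD s (w * rg G s) := by
  rw [RD, mul_assoc, rg_mul_self, mul_one]
  unfold RD at hs
  omega

theorem rd_adj_mul {s t : Λ} {w : RC G} (hst : G.Adj s t) : RD t (w * rg G s) ↔ RD t w := by
  constructor
  · intro h
    by_cases hs : RD s w
    · by_contra h1
      have h2 : ¬ RD s (w * rg G s) := not_rd_mul_self hs
      have h3 : ¬ RD t w := h1
      have h4 := rd_mul_self h3
      have h5 : RD s (w * rg G t) := by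
        by_contra h6
        have e1 := len_mul_rg_of_not h3
        have e2 := len_mul_rg_of_not h6
        have e3 := len_mul_rg_of_rd hs
        have e4 := len_mul_rg_of_rd h
        rw [mul_assoc, rg_comm hst, ← mul_assoc] at e4
        omega
      have e1 := len_mul_rg_of_not h3
      have e2 := len_mul_rg_of_rd h5
      have e3 := len_mul_rg_of_rd hs
      have e4 := len_mul_rg_of_rd h
      rw [mul_assoc, rg_comm hst, ← mul_assoc] at e4
      omega
    · exact (rd_of_mul hs h hst.ne').2
  · intro h
    by_cases hs : RD s w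
    · exact rd_mul hs h hst.ne
    · by_contra h1
      have e1 := len_mul_rg_of_not hs
      have e2 := len_mul_rg_of_not h1
      have e3 := len_mul_rg_of_rd h
      rw [mul_assoc, rg_comm hst, ← mul_assoc] at e2
      by_cases h5 : RD s (w * rg G t)
      · have e4 := len_mul_rg_of_rd h5; omega
      · have e4 := len_mul_rg_of_not h5; omega

theorem len_wp_le (l : List Λ) : len (wp G l) ≤ l.length := by
  induction l using List.reverseRecOn with
  | nil => rw [wp_nil, len_one]; exact Nat.zero_le _
  | append_singleton l a ih =>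
    rw [wp_append, wp_cons, wp_nil, mul_one, List.length_append, List.length_singleton]
    by_cases h : RD a (wp G l)
    · have := len_mul_rg_of_rd h; omega
    · have := len_mul_rg_of_not h; omega

/-- a word is reduced if and only if its length is the length of its element -/
theorem red_iff_len {l : List Λ} : Red G l ↔ len (wp G l) = l.length := by
  refine ⟨len_wp, ?_⟩
  induction l using List.reverseRecOn with
  | nil => intro _; trivial
  | append_singleton l a ih =>
    intro h
    have h0 : wp G (l ++ [a]) = wp G l * rg G a := by rw [wp_append, wp_cons, wp_nil, mul_one]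
    rw [h0, List.length_append, List.length_singleton] at h
    have h1 := len_wp_le (G := G) l
    have h2 : ¬ RD a (wp G l) := by
      intro h3
      have := len_mul_rg_of_rd h3
      omega
    have h3 := len_mul_rg_of_not h2
    exact red_concat (ih (by omega)) h2

/-! ## rigid words -/

/-- rigid words: consecutive letters are different and do not commute -/
def Rig (G : SimpleGraph Λ) (l : List Λ) : Prop := l.IsChain (fun a b => a ≠ b ∧ ¬ G.Adj a b)

theorem Rig.sh_eq {l l' : List Λ} (h : Sh G l l') : Rig G l → l' = l := by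
  induction h with
  | refl l => intro _; rfl
  | swap a b l h =>
    intro h1
    exact absurd h (List.isChain_cons_cons.mp h1).1.2
  | cons a h ih =>
    intro h1
    rw [ih h1.tail]
  | trans h1 h2 ih ih' =>
    intro h3
    have h4 := ih h3
    subst h4
    exact ih' h3

theorem Rig.red {l : List Λ} (h : Rig G l) : Red G l := by
  rw [red_iff]
  rintro x y z a rfl
  have h1 : Rig G (a :: (y ++ a :: z)) := List.IsChain.right_of_append h
  cases y with
  | nil => exact absurd rfl (List.isChain_cons_cons.mp h1).1.1
  | cons b y =>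
    refine ⟨b, List.mem_cons_self, ?_⟩
    intro h2
    exact (List.isChain_cons_cons.mp h1).1.2 h2.symm

/-- a rigid word is the only reduced word of its element -/
theorem Rig.unique {l l' : List Λ} (h : Rig G l) (h' : Red G l') (he : wp G l' = wp G l) : l' = l :=
  Rig.sh_eq (red_sh h.red h' he.symm) h

theorem Rig.reverse {l : List Λ} (h : Rig G l) : Rig G l.reverse := by
  exact List.isChain_reverse.mpr
    (List.IsChain.imp (fun a b h => ⟨h.1.symm, fun h' => h.2 h'.symm⟩) h)

end

end Pool.CS
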