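import Mathlib
import Pool.Agent.Work.MP_64ea0f_cs.RAC

set_option autoImplicit false

/-! # Shared combinatorial objects for MP_727c87_gt (counterexample)

Sides of the right-angled 12-gon: `ZMod 12`.  Chambers: `Q` with the involutions `s_i` (`LS G12 Q`).
A flag `(q, i)` is the corner of the chamber `q` between the sides `i` and `i + 1`; it also names the side `i` of `q`. -/

namespace Pool.CX

open Pool.CS

/-- cyclic distance of two sides of the 12-gon -/
def cd (i j : ZMod 12) : ℕ := (i - j).valMinAbs.natAbs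

/-- cyclic distance at least 3 -/
def Far (i j : ZMod 12) : Prop := 3 ≤ cd i j

instance (i j : ZMod 12) : Decidable (Far i j) := by unfold Far; infer_instance

/-- neighbouring sides (the two reflections commute) -/
def G12 : SimpleGraph (ZMod 12) where
  Adj i j := j = i + 1 ∨ i = j + 1
  symm := ⟨fun _ _ h => h.symm⟩
  loopless := ⟨fun i h => by revert i; decide⟩

instance : DecidableRel G12.Adj := fun i j => inferInstanceAs (Decidable (j = i + 1 ∨ i = j + 1))

/-- the reflection group of the right-angled 12-gon -/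
abbrev W : Type := RC G12

/-- the letter `k` lies in the open interval `(i, j)` of the cyclic order -/
def Btw (i k j : ZMod 12) : Prop := 0 < (k - i).val ∧ (k - i).val < (j - i).val

instance (i k j : ZMod 12) : Decidable (Btw i k j) := by unfold Btw; infer_instance

/-- the chords `{i, i'}` and `{j, j'}` (four different sides) cross -/
def Cross (i i' j j' : ZMod 12) : Prop := (Btw i j i' ∧ Btw i' j' i) ∨ (Btw i j' i' ∧ Btw i' j i)

instance (i i' j j' : ZMod 12) : Decidable (Cross i i' j j') := by unfold Cross; infer_instance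

/-- admissible matchings of the sides: chords of cyclic length at least 3, connected chord diagram (no proper nonempty
interval `{a, ..., a + k - 1}` is closed under the matching) -/
structure Good (M : ZMod 12 → ZMod 12) : Prop where
  inv : ∀ i, M (M i) = i
  far : ∀ i, Far i (M i)
  conn : ∀ (a : ZMod 12) (k : ℕ), 1 ≤ k → k ≤ 11 → ∃ i : ℕ, i < k ∧ k ≤ (M (a + i) - a).val

/-- apply a word from left to right: `q · l` -/
def act {Q : Type} (L : LS G12 Q) (q : Q) (l : List (ZMod 12)) : Q := l.foldl (fun q i => L.τ i q) q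

/-- A model: a finite right-angled tiling by 12-gons with an admissible matching on every chamber and a set `D` of defect
chambers. Chambers `q`, neighbour `s i q` across the side `i`. -/
structure Model where
  Q : Type
  fin : Fintype Q
  dec : DecidableEq Q
  nonempty : Nonempty Q
  L : LS G12 Q
  conn : ∀ q q' : Q, ∃ l, act L q l = q'
  /-- injectivity radius: a word of length at most 12 with a fixed chamber is trivial in `W` -/
  inj : ∀ (q : Q) (l : List (ZMod 12)), l.length ≤ 12 → act L q l = q → wp G12 l = 1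
  mu : Q → ZMod 12 → ZMod 12
  good : ∀ q, Good (mu q)
  D : Set Q
  /-- every line meets a defect -/
  cut : ∀ (q : Q) (i : ZMod 12), ∃ (n : ℕ) (v : ℕ → Q × ZMod 12), v 0 = (q, i) ∧ (v n).1 ∈ D ∧
    ∀ k < n, (v (k + 1)).1 = L.τ (v (k + 1)).2 (v k).1 ∧ (v (k + 1)).2 = mu (v k).1 (v k).2

attribute [instance] Model.fin Model.dec Model.nonempty

namespace Model

/-- flags -/
abbrev F (Mo : Model) : Type := Mo.Q × ZMod 12

/-- cross the side `i` of the flag `(q, i)` -/
def fa (Mo : Model) (y : Mo.F) : Mo.F := (Mo.L.τ y.2 y.1, y.2)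

/-- rotate: `(q, i)` goes to `(q, i + 1)` -/
def fr (Mo : Model) : Equiv.Perm Mo.F where
  toFun y := (y.1, y.2 + 1)
  invFun y := (y.1, y.2 - 1)
  left_inv y := by simp
  right_inv y := by simp

end Model

/-- A covering of the flag complex of `Mo`: the right action of the group generated by `a` (`a² = 1`), `r`
(`a` commutes with `b = r⁻¹ ∘ a ∘ r`), with `r¹² = 1` over the non-defect chambers. -/
structure Cov (Mo : Model) where
  Y : Type
  a : Y → Y
  r : Equiv.Perm Y
  p : Y → Mo.F
  a_a : ∀ y, a (a y) = y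
  ab : ∀ y, a (r.symm (a (r y))) = r.symm (a (r (a y)))
  p_a : ∀ y, p (a y) = Mo.fa (p y)
  p_r : ∀ y, p (r y) = Mo.fr (p y)
  nd : ∀ y, (p y).1 ∉ Mo.D → (r ^ 12) y = y

namespace Cov
variable {Mo : Model}

/-- cross the other side at the corner: `(q, i)` goes to `(s_{i+1} q, i)` -/
def b (C : Cov Mo) (y : C.Y) : C.Y := C.r.symm (C.a (C.r y))

/-- elementary moves -/
def Elem (C : Cov Mo) (y y' : C.Y) : Prop := y' = C.a y ∨ y' = C.r y ∨ y' = C.r.symm y

/-- two flags have the same corner -/
def SameCorner (C : Cov Mo) (y y' : C.Y) : Prop :=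
  y' = y ∨ y' = C.a y ∨ y' = C.b y ∨ y' = C.a (C.b y)

/-- the flag at the other end of the chord which starts at the side of `y` (meaningful over non-defect chambers) -/
def m (C : Cov Mo) (y : C.Y) : C.Y := (C.r ^ (Mo.mu (C.p y).1 (C.p y).2 - (C.p y).2).val) y

/-- the sides of two flags are crossed by the same arc -/
def SameArc (C : Cov Mo) : C.Y → C.Y → Prop :=
  Relation.EqvGen (fun y y' => y' = C.a y ∨ ((C.p y).1 ∉ Mo.D ∧ y' = C.m y))

/-- a step of the coarse metric -/
def Step (C : Cov Mo) (y y' : C.Y) : Prop := y = y' ∨ y' = C.r y ∨ y = C.r y' ∨ C.SameArc y y'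

/-- coarse distance at most `k` -/
def Dle (C : Cov Mo) : ℕ → C.Y → C.Y → Prop
  | 0, y, y' => y = y'
  | k + 1, y, y' => ∃ z, C.Dle k y z ∧ C.Step z y'

/-- connected by elementary moves -/
def Conn (C : Cov Mo) : Prop := ∀ y y' : C.Y, Relation.ReflTransGen C.Elem y y'

/-- simply connected: connected, and it maps to every covering, for every choice of base flags over the same flag -/
structure Univ (C : Cov Mo) : Prop where
  ne : Nonempty C.Y
  conn : C.Conn
  map : ∀ (C' : Cov Mo) (y : C.Y) (y' : C'.Y), C.p y = C'.p y' → ∃ φ : C.Y → C'.Y, φ y = y' ∧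
    (∀ z, φ (C.a z) = C'.a (φ z)) ∧ (∀ z, φ (C.r z) = C'.r (φ z)) ∧ ∀ z, C'.p (φ z) = C.p z

/-- the bottleneck property (for the coarse distance) with constant `c` -/
def Bottleneck (C : Cov Mo) (c : ℕ) : Prop :=
  ∀ y y' : C.Y, ∃ (n : ℕ) (v : ℕ → C.Y), v 0 = y ∧ v n = y' ∧ (∀ i < n, C.Step (v i) (v (i + 1))) ∧
    ∀ (n' : ℕ) (u : ℕ → C.Y), u 0 = y → u n' = y' → (∀ i < n', C.Elem (u i) (u (i + 1))) →
      ∀ i ≤ n, ∃ j ≤ n', C.Dle c (v i) (u j)

end Cov

/-- the trivial covering -/
def Model.base (Mo : Model) : Cov Mo where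
  Y := Mo.F
  a := Mo.fa
  r := Mo.fr
  p := id
  a_a y := by
    obtain ⟨q, i⟩ := y
    simp only [Model.fa, Mo.L.inv]
  ab y := by
    obtain ⟨q, i⟩ := y
    have h : G12.Adj i (i + 1) := Or.inl rfl
    simp only [Model.fa, Model.fr, Equiv.coe_fn_mk, Equiv.coe_fn_symm_mk, add_sub_cancel_right]
    rw [Mo.L.com i (i + 1) h]
  p_a y := rfl
  p_r y := rfl
  nd y _ := by
    obtain ⟨q, i⟩ := y
    have h : ∀ n : ℕ, (Mo.fr ^ n) (q, i) = (q, i + n) := by
      intro n
      induction n with
      | zero => simp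
      | succ n ih =>
        rw [pow_succ', Equiv.Perm.mul_apply, ih]
        simp only [Model.fr, Equiv.coe_fn_mk, Nat.cast_succ, add_assoc]
    rw [h 12]
    have h2 : ((12 : ℕ) : ZMod 12) = 0 := by decide
    rw [h2, add_zero]

/-- pre-vertices of the fine grid of mesh `1/h`: in the kite of the flag `y` (`(0,0)` = centre of the chamber, `(h,0)` =
midpoint of the side `i`, `(0,h)` = midpoint of the side `i+1`, `(h,h)` = corner); in a defect chamber only the points on
the sides -/
def Model.PV (Mo : Model) (h : ℕ) (y : Mo.F) (i j : ℕ) : Prop :=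
  i ≤ h ∧ j ≤ h ∧ (y.1 ∉ Mo.D ∨ i = h ∨ j = h)

/-- at most two different values -/
def Two {Λ : Type} (x y z : Λ) : Prop := x = y ∨ y = z ∨ x = z

/-- a labelling of the fine grid with at most two labels in every triangle of a non-defect chamber -/
structure Lab (Mo : Model) (h : ℕ) (Λ : Type) where
  l : Mo.F → ℕ → ℕ → Λ
  ray : ∀ y i, i ≤ h → (y.1 ∉ Mo.D ∨ i = h) → l (Mo.fr y) i 0 = l y 0 i
  side : ∀ y j, j ≤ h → l (Mo.fa y) h j = l y h j
  side' : ∀ y i, i ≤ h → l (Mo.base.b y) i h = l y i h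
  tri : ∀ y, y.1 ∉ Mo.D → ∀ i j, i < h → j < h →
    Two (l y i j) (l y (i + 1) j) (l y (i + 1) (j + 1)) ∧
    Two (l y i j) (l y i (j + 1)) (l y (i + 1) (j + 1))

/-- no labelling of a fine grid has only `K`-small classes -/
def Model.NoSmallLabelling (Mo : Model) (K : ℕ) : Prop :=
  ∀ (h : ℕ) (Λ : Type) (l : Lab Mo h Λ), 0 < h → ∃ (y y' : Mo.F) (i j i' j' : ℕ),
    Mo.PV h y i j ∧ Mo.PV h y' i' j' ∧ l.l y i j = l.l y' i' j' ∧ ¬ Mo.base.Dle K y y'

/-- T_UP -/
def Stmt_UP : Prop := ∃ c : ℕ, ∀ (Mo : Model) (C : Cov Mo), C.Univ → C.Bottleneck c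

/-- T_LOW -/
def Stmt_LOW : Prop := ∀ K : ℕ, ∃ Mo : Model, Mo.NoSmallLabelling K

/-- every model has a universal covering -/
def Stmt_UCE : Prop := ∀ Mo : Model, ∃ C : Cov Mo, C.Univ

end Pool.CX
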