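import Pool.Agent.Work.MP_727c87_cx.E2.All
import Pool.Agent.Work.MP_727c87_lo.LowAll

set_option autoImplicit false

/-! # Assembly: the final statement -/

namespace Pool.CX

theorem final : UW727.FinalStatement := final_of_low Low.stmt_LOW

end Pool.CX
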