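import Pool.Agent.Work.MP_727c87_cx.RacgE

set_option autoImplicit false

/-! # Choice of the defects, and the model builder -/

namespace Pool.CX

open Pool.CS

namespace Build

/-- a maximal family of disjoint windows of length `s` of a permutation all of whose cycles have length at least `s` -/
theorem windows {F : Type} [Fintype F] [DecidableEq F] (f : Equiv.Perm F) (s : ℕ) (hs : 0 < s)
    (hf : ∀ x n, 0 < n → n < s → (f ^ n) x ≠ x) :
    ∃ D : Finset F, D.card * s ≤ Fintype.card F ∧ ∀ x, ∃ n, n < 2 * s ∧ (f ^ n) x ∈ D := by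
  classical
  let w : F → Finset F := fun d => (Finset.range s).image (fun k => (f ^ k) d)
  have hw : ∀ d, (w d).card = s := by
    intro d
    rw [Finset.card_image_of_injOn, Finset.card_range]
    intro a ha b hb hab
    simp only [Finset.coe_range, Set.mem_Iio] at ha hb
    change (f ^ a) d = (f ^ b) d at hab
    rcases lt_trichotomy a b with h | h | h
    · exfalso
      refine hf d (b - a) (by omega) (by omega) ?_
      apply (f ^ a).injective
      rw [← Equiv.Perm.mul_apply, ← pow_add, Nat.add_sub_cancel' h.le, hab]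
    · exact h
    · exfalso
      refine hf d (a - b) (by omega) (by omega) ?_
      apply (f ^ b).injective
      rw [← Equiv.Perm.mul_apply, ← pow_add, Nat.add_sub_cancel' h.le, hab]
  let P : Finset F → Prop := fun D => ∀ d ∈ D, ∀ d' ∈ D, d ≠ d' → Disjoint (w d) (w d')
  obtain ⟨D, hD, hmax⟩ := Finset.exists_max_image (Finset.univ.filter P) Finset.card
    ⟨∅, Finset.mem_filter.2 ⟨Finset.mem_univ _, fun d hd => absurd hd (Finset.notMem_empty d)⟩⟩
  have hP : P D := (Finset.mem_filter.1 hD).2
  refine ⟨D, ?_, ?_⟩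
  · have h1 : (D.biUnion w).card = D.card * s := by
      rw [Finset.card_biUnion (fun d hd d' hd' h => hP d hd d' hd' h)]
      rw [Finset.sum_const_nat (fun d _ => hw d)]
    rw [← h1]
    exact Finset.card_le_univ _
  · intro x
    by_cases hx : (f ^ s) x ∈ D
    · exact ⟨s, by omega, hx⟩
    by_contra hno
    push Not at hno
    have hP' : P (insert ((f ^ s) x) D) := by
      have key : ∀ d ∈ D, Disjoint (w ((f ^ s) x)) (w d) := by
        intro d hd
        rw [Finset.disjoint_left]
        intro z hz hz'
        obtain ⟨k, hk, hkz⟩ := Finset.mem_image.1 hz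
        obtain ⟨l, hl, hlz⟩ := Finset.mem_image.1 hz'
        rw [Finset.mem_range] at hk hl
        refine hno (k + s - l) (by omega) ?_
        have h2 : (f ^ (k + s - l)) x = d := by
          apply (f ^ l).injective
          rw [← Equiv.Perm.mul_apply, ← pow_add]
          have h3 : l + (k + s - l) = k + s := by omega
          rw [h3, pow_add, Equiv.Perm.mul_apply, hkz, hlz]
        rw [h2]
        exact hd
      intro d hd d' hd' hne
      rw [Finset.mem_insert] at hd hd'
      rcases hd with rfl | hd <;> rcases hd' with rfl | hd'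
      · exact absurd rfl hne
      · exact key d' hd'
      · exact (key d hd).symm
      · exact hP d hd d' hd' hne
    have h4 := hmax (insert ((f ^ s) x) D) (Finset.mem_filter.2 ⟨Finset.mem_univ _, hP'⟩)
    rw [Finset.card_insert_of_notMem hx] at h4
    omega

end Build

section
variable {Q : Type}

/-- follow the line: leave the chamber `y.1`, entered through the side `y.2`, through the partner of `y.2` -/
def lstep (L : LS G12 Q) (mu : Q → ZMod 12 → ZMod 12) (y : Q × ZMod 12) : Q × ZMod 12 :=
  (L.τ (mu y.1 y.2) y.1, mu y.1 y.2)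

/-- the word read along the line -/
def lword (L : LS G12 Q) (mu : Q → ZMod 12 → ZMod 12) : ℕ → Q × ZMod 12 → List (ZMod 12)
  | 0, _ => []
  | n + 1, y => mu y.1 y.2 :: lword L mu n (lstep L mu y)

theorem lword_length (L : LS G12 Q) (mu : Q → ZMod 12 → ZMod 12) (n : ℕ) (y : Q × ZMod 12) :
    (lword L mu n y).length = n := by
  induction n generalizing y with
  | zero => rfl
  | succ n ih => rw [lword, List.length_cons, ih]

theorem act_lword (L : LS G12 Q) (mu : Q → ZMod 12 → ZMod 12) (n : ℕ) (y : Q × ZMod 12) :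
    act L y.1 (lword L mu n y) = ((lstep L mu)^[n] y).1 := by
  induction n generalizing y with
  | zero => rfl
  | succ n ih =>
    rw [Function.iterate_succ_apply, ← ih]
    rfl

theorem lword_far (L : LS G12 Q) (mu : Q → ZMod 12 → ZMod 12) (hmu : ∀ q, Good (mu q)) (n : ℕ)
    (y : Q × ZMod 12) : (lword L mu n y).IsChain Far := by
  induction n generalizing y with
  | zero => exact List.isChain_nil
  | succ n ih =>
    have h := ih (lstep L mu y)
    cases n with
    | zero => exact List.isChain_singleton _
    | succ n => exact List.isChain_cons_cons.mpr ⟨(hmu _).far _, h⟩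

/-- following the line is a permutation of the flags -/
def lperm (L : LS G12 Q) (mu : Q → ZMod 12 → ZMod 12) (hmu : ∀ q, Good (mu q)) : Equiv.Perm (Q × ZMod 12) where
  toFun := lstep L mu
  invFun y := (L.τ y.2 y.1, mu (L.τ y.2 y.1) y.2)
  left_inv y := by
    obtain ⟨q, i⟩ := y
    simp only [lstep, L.inv, (hmu q).inv]
  right_inv y := by
    obtain ⟨q, i⟩ := y
    simp only [lstep, L.inv, (hmu (L.τ i q)).inv]

theorem lperm_pow (L : LS G12 Q) (mu : Q → ZMod 12 → ZMod 12) (hmu : ∀ q, Good (mu q)) (n : ℕ)
    (y : Q × ZMod 12) : (lperm L mu hmu ^ n) y = (lstep L mu)^[n] y := by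
  induction n generalizing y with
  | zero => rfl
  | succ n ih =>
    rw [pow_succ, Equiv.Perm.mul_apply, ih, Function.iterate_succ_apply]
    rfl

/-- lines do not close up within the injectivity radius -/
theorem lstep_ne (L : LS G12 Q) (mu : Q → ZMod 12 → ZMod 12) (hmu : ∀ q, Good (mu q)) (R : ℕ)
    (hR : ∀ (q : Q) (l : List (ZMod 12)), l.length ≤ R → act L q l = q → wp G12 l = 1) (n : ℕ)
    (hn : 0 < n) (hnR : n ≤ R) (y : Q × ZMod 12) : ((lstep L mu)^[n] y).1 ≠ y.1 := by
  intro h
  have h1 := act_lword L mu n y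
  rw [h] at h1
  have h2 := hR y.1 _ (by rw [lword_length]; exact hnR) h1
  have h3 := (rig_of_far (lword_far L mu hmu n y)).unique red_nil (by rw [h2, wp_nil])
  have h4 := lword_length L mu n y
  rw [← h3] at h4
  simp at h4
  omega

/-- choice of the defects: few chambers, met by every line in less than `2 s` steps -/
theorem exists_defects [Fintype Q] (L : LS G12 Q) (mu : Q → ZMod 12 → ZMod 12) (hmu : ∀ q, Good (mu q))
    (R s : ℕ) (hR : ∀ (q : Q) (l : List (ZMod 12)), l.length ≤ R → act L q l = q → wp G12 l = 1)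
    (hs : 0 < s) (hsR : s ≤ R + 1) :
    ∃ D : Finset Q, D.card * s ≤ 12 * Fintype.card Q ∧
      ∀ y : Q × ZMod 12, ∃ n, n < 2 * s ∧ ((lstep L mu)^[n] y).1 ∈ D := by
  classical
  obtain ⟨D, h1, h2⟩ := Build.windows (lperm L mu hmu) s hs (by
    intro x n hn hns h
    rw [lperm_pow] at h
    exact lstep_ne L mu hmu R hR n hn (by omega) x (by rw [h]))
  refine ⟨D.image Prod.fst, ?_, ?_⟩
  · have h3 : Fintype.card (Q × ZMod 12) = 12 * Fintype.card Q := by
      rw [Fintype.card_prod, ZMod.card, mul_comm]
    rw [← h3]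
    exact (Nat.mul_le_mul_right s Finset.card_image_le).trans h1
  · intro y
    obtain ⟨n, hn, h4⟩ := h2 y
    rw [lperm_pow] at h4
    exact ⟨n, hn, Finset.mem_image_of_mem _ h4⟩

/-- the model builder -/
def mkModel [Fintype Q] [DecidableEq Q] [Nonempty Q] (L : LS G12 Q)
    (conn : ∀ q q' : Q, ∃ l, act L q l = q')
    (inj : ∀ (q : Q) (l : List (ZMod 12)), l.length ≤ 12 → act L q l = q → wp G12 l = 1)
    (mu : Q → ZMod 12 → ZMod 12) (good : ∀ q, Good (mu q)) (D : Set Q)
    (hD : ∀ y : Q × ZMod 12, ∃ n, ((lstep L mu)^[n] y).1 ∈ D) : Model where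
  Q := Q
  fin := inferInstance
  dec := inferInstance
  nonempty := inferInstance
  L := L
  conn := conn
  inj := inj
  mu := mu
  good := good
  D := D
  cut q i := by
    obtain ⟨n, hn⟩ := hD (q, i)
    refine ⟨n, fun k => (lstep L mu)^[k] (q, i), rfl, hn, fun k _ => ?_⟩
    have h : (lstep L mu)^[k + 1] (q, i) = lstep L mu ((lstep L mu)^[k] (q, i)) :=
      Function.iterate_succ_apply' _ _ _
    simp only [h]
    exact ⟨rfl, rfl⟩

end

end Pool.CX
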