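import Pool.Agent.Work.MP_727c87_cx.CovTheory2

set_option autoImplicit false

/-! # The plane is one-ended; short paths in the plane are seen in the model (helper31) -/

namespace Pool.CX

open Pool.CS

variable {Mo : Model}

theorem plane_rsymm (Mo : Model) (q0 : Mo.Q) (w : W) (i : ZMod 12) :
    (Mo.plane q0).r.symm (w, i) = (w, i - 1) := rfl

theorem plane_b (Mo : Model) (q0 : Mo.Q) (w : W) (i : ZMod 12) :
    (Mo.plane q0).b (w, i) = (w * rg G12 (i + 1), i) := by
  change (Mo.plane q0).r.symm ((Mo.plane q0).a ((Mo.plane q0).r (w, i))) = _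
  rw [plane_r, plane_a, plane_rsymm, add_sub_cancel_right]

/-- alternating word -/
def zig : Bool → ℕ → List (ZMod 12)
  | _, 0 => []
  | b, n + 1 => (if b then 0 else 2) :: zig (!b) n

theorem zig_length (b : Bool) (n : ℕ) : (zig b n).length = n := by
  induction n generalizing b with
  | zero => rfl
  | succ n ih => rw [zig, List.length_cons, ih]

theorem zig_rig (b : Bool) (n : ℕ) : Rig G12 (zig b n) := by
  induction n generalizing b with
  | zero => exact List.isChain_nil
  | succ n ih =>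
    cases n with
    | zero => exact List.isChain_singleton _
    | succ n =>
      have h1 := ih (!b)
      rw [zig] at h1 ⊢
      rw [zig]
      refine List.isChain_cons_cons.mpr ⟨?_, h1⟩
      cases b <;> decide

instance : Infinite W := by
  refine Infinite.of_injective (fun n : ℕ => wp G12 (zig true n)) ?_
  intro m n hmn
  have h1 := len_wp (zig_rig true m).red
  have h2 := len_wp (zig_rig true n).red
  have h3 : wp G12 (zig true m) = wp G12 (zig true n) := hmn
  rw [h3, h2, zig_length, zig_length] at h1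
  exact h1.symm

/-- all flags of a chamber agree if consecutive ones do -/
theorem flags_agree {S : Set (W × ZMod 12)} {w : W}
    (h : ∀ i : ZMod 12, (w, i) ∈ S ↔ (w, i + 1) ∈ S) (i : ZMod 12) : (w, (0 : ZMod 12)) ∈ S ↔ (w, i) ∈ S := by
  have h1 : ∀ n : ℕ, (w, (0 : ZMod 12)) ∈ S ↔ (w, (n : ZMod 12)) ∈ S := by
    intro n
    induction n with
    | zero => rw [Nat.cast_zero]
    | succ n ih => rw [ih, h, Nat.cast_succ]
  have h2 := h1 i.val
  rwa [ZMod.natCast_zmod_val] at h2

/-- **E1**: a set of corners of the plane with finite boundary is finite or cofinite -/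
theorem plane_finite_or_cofinite (q0 : Mo.Q) (S : Set (W × ZMod 12))
    (ha : ∀ y, (Mo.plane q0).a y ∈ S ↔ y ∈ S)
    (hf : {y : W × ZMod 12 | ¬ (y ∈ S ↔ (Mo.plane q0).r y ∈ S)}.Finite) : S.Finite ∨ Sᶜ.Finite := by
  set bad : Set W := {w | ∃ i : ZMod 12, ¬ ((w, i) ∈ S ↔ (w, i + 1) ∈ S)} with hbad
  have hb : bad.Finite := by
    refine (hf.image Prod.fst).subset ?_
    rintro w ⟨i, hi⟩
    exact ⟨(w, i), hi, rfl⟩
  have hgood : ∀ w, w ∉ bad → ∀ i : ZMod 12, (w, (0 : ZMod 12)) ∈ S ↔ (w, i) ∈ S := by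
    intro w hw i
    refine flags_agree (fun i => ?_) i
    by_contra h1
    exact hw ⟨i, h1⟩
  set D : Set W := {w | (w, (0 : ZMod 12)) ∈ S} with hD
  have h1 : {w : W | ∃ s, ¬ (w ∈ D ↔ w * rg G12 s ∈ D)}.Finite := by
    have h2 : (⋃ s : ZMod 12, (fun w : W => w * rg G12 s) '' bad).Finite :=
      Set.finite_iUnion (fun s => hb.image _)
    refine (hb.union h2).subset ?_
    rintro w ⟨s, hs⟩
    by_contra h3
    rw [Set.mem_union, not_or] at h3
    have h4 : w * rg G12 s ∉ bad := by
      intro h5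
      apply h3.2
      rw [Set.mem_iUnion]
      refine ⟨s, w * rg G12 s, h5, ?_⟩
      change w * rg G12 s * rg G12 s = w
      rw [mul_assoc, rg_mul_self, mul_one]
    apply hs
    change (w, (0 : ZMod 12)) ∈ S ↔ (w * rg G12 s, (0 : ZMod 12)) ∈ S
    rw [hgood w h3.1 s, hgood _ h4 s]
    exact (ha (w, s)).symm
  rcases W_finite_or_cofinite D h1 with h2 | h2
  · left
    have h3 : ((bad ∪ D) ×ˢ (Set.univ : Set (ZMod 12))).Finite := (hb.union h2).prod Set.finite_univ
    refine h3.subset ?_
    rintro ⟨w, i⟩ hw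
    refine ⟨?_, trivial⟩
    by_cases h4 : w ∈ bad
    · exact Or.inl h4
    · exact Or.inr ((hgood w h4 i).mpr hw)
  · right
    have h3 : ((bad ∪ Dᶜ) ×ˢ (Set.univ : Set (ZMod 12))).Finite := (hb.union h2).prod Set.finite_univ
    refine h3.subset ?_
    rintro ⟨w, i⟩ hw
    refine ⟨?_, trivial⟩
    by_cases h4 : w ∈ bad
    · exact Or.inl h4
    · exact Or.inr (fun h5 => hw ((hgood w h4 i).mp h5))

/-- a path of `n` elementary moves in the plane is a word of length at most `n` -/
theorem plane_word (q0 : Mo.Q) (n : ℕ) (v : ℕ → (Mo.plane q0).Y)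
    (h : ∀ i < n, (Mo.plane q0).Elem (v i) (v (i + 1))) :
    ∃ l : List (ZMod 12), l.length ≤ n ∧ (v n).1 = (v 0).1 * wp G12 l := by
  induction n with
  | zero => exact ⟨[], le_refl _, by rw [wp_nil, mul_one]⟩
  | succ n ih =>
    obtain ⟨l, h1, h2⟩ := ih (fun i hi => h i (by omega))
    rcases h n (by omega) with h3 | h3 | h3
    · refine ⟨l ++ [(v n).2], ?_, ?_⟩
      · rw [List.length_append, List.length_singleton]; omega
      · rw [h3, wp_append, ← mul_assoc, ← h2, wp_cons, wp_nil, mul_one]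
        rfl
    · refine ⟨l, by omega, ?_⟩
      rw [h3, ← h2]; rfl
    · refine ⟨l, by omega, ?_⟩
      rw [h3, ← h2]; rfl

/-- **E4**: flags of the plane over the same flag of the model and joined by a short path are equal -/
theorem plane_inj (q0 : Mo.Q) (N : ℕ)
    (hN : ∀ (q : Mo.Q) (l : List (ZMod 12)), l.length ≤ N → act Mo.L q l = q → wp G12 l = 1)
    (n : ℕ) (hn : n ≤ N) (v : ℕ → (Mo.plane q0).Y)
    (h : ∀ i < n, (Mo.plane q0).Elem (v i) (v (i + 1)))
    (hp : (Mo.plane q0).p (v 0) = (Mo.plane q0).p (v n)) : v 0 = v n := by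
  obtain ⟨l, h1, h2⟩ := plane_word q0 n v h
  have h3 : Mo.L.r q0 (v 0).1 = Mo.L.r q0 (v n).1 := congrArg (fun x : Mo.F => x.1) hp
  have h4 : (v 0).2 = (v n).2 := congrArg (fun x : Mo.F => x.2) hp
  have h5 : act Mo.L (Mo.L.r q0 (v 0).1) l = Mo.L.r q0 (v 0).1 := by
    rw [act_eq_r, ← LS.r_mul, ← h2, ← h3]
  have h6 := hN _ l (by omega) h5
  rw [h6, mul_one] at h2
  exact Prod.ext h2.symm h4

/-- every path of a covering can be lifted to the plane: if `C` is any covering, a path of elementary moves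
starting over `p (w, i)` is followed by a path in the plane with the same images in the model -/
theorem plane_lift (q0 : Mo.Q) (z : (Mo.plane q0).Y) (n : ℕ) (u : ℕ → Mo.F)
    (h0 : (Mo.plane q0).p z = u 0) (h : ∀ i < n, Mo.base.Elem (u i) (u (i + 1))) :
    ∃ v : ℕ → (Mo.plane q0).Y, v 0 = z ∧ (∀ i < n, (Mo.plane q0).Elem (v i) (v (i + 1))) ∧
      ∀ i ≤ n, (Mo.plane q0).p (v i) = u i := by
  induction n with
  | zero =>
    refine ⟨fun _ => z, rfl, fun i hi => absurd hi (Nat.not_lt_zero _), fun i hi => ?_⟩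
    have : i = 0 := by omega
    rw [this, h0]
  | succ n ih =>
    obtain ⟨v, h1, h2, h3⟩ := ih (fun i hi => h i (by omega))
    have h4 := h3 n (le_refl n)
    obtain ⟨z', h5, h6⟩ : ∃ z' : (Mo.plane q0).Y, (Mo.plane q0).Elem (v n) z' ∧
        (Mo.plane q0).p z' = u (n + 1) := by
      rcases h n (by omega) with h7 | h7 | h7
      · exact ⟨(Mo.plane q0).a (v n), Or.inl rfl, by rw [(Mo.plane q0).p_a, h4, h7]; rfl⟩
      · exact ⟨(Mo.plane q0).r (v n), Or.inr (Or.inl rfl), by rw [(Mo.plane q0).p_r, h4, h7]; rfl⟩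
      · exact ⟨(Mo.plane q0).r.symm (v n), Or.inr (Or.inr rfl), by
          rw [(Mo.plane q0).p_rsymm, h4, h7]; rfl⟩
    refine ⟨fun i => if i ≤ n then v i else z', ?_, ?_, ?_⟩
    · simp only [Nat.zero_le, if_true]; exact h1
    · intro i hi
      by_cases h7 : i < n
      · simp only [if_pos (by omega : i ≤ n), if_pos (by omega : i + 1 ≤ n)]
        exact h2 i h7
      · have h8 : i = n := by omega
        subst h8
        simp only [le_refl, if_true, if_neg (by omega : ¬ i + 1 ≤ i)]
        exact h5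
    · intro i hi
      by_cases h7 : i ≤ n
      · simp only [if_pos h7]; exact h3 i h7
      · have h8 : i = n + 1 := by omega
        subst h8
        simp only [if_neg (by omega : ¬ n + 1 ≤ n)]
        exact h6

end Pool.CX
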