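import Pool.Agent.Work.MP_727c87_cx.RacgQ
import Pool.Agent.Work.MP_727c87_cx.Defs
import Pool.Agent.Work.MP_727c87_w1.Core

set_option autoImplicit false

/-! # One-endedness, and the dictionary with the words of the model -/

namespace Pool.CS

section
variable {Λ : Type} {G : SimpleGraph Λ}

theorem rtg_symm {α : Type} {r : α → α → Prop} (hr : ∀ a b, r a b → r b a) {a b : α}
    (h : Relation.ReflTransGen r a b) : Relation.ReflTransGen r b a := by
  induction h with
  | refl => exact Relation.ReflTransGen.refl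
  | tail _ h ih => exact Relation.ReflTransGen.head (hr _ _ h) ih

/-- `w` and `w'` are joined by a path of elements of length at least `R` -/
def Far2 (R : ℕ) (w w' : RC G) : Prop :=
  Relation.ReflTransGen (fun x y : RC G => (∃ s, y = x * rg G s) ∧ R ≤ len x ∧ R ≤ len y) w w'

theorem Far2.symm {R : ℕ} {w w' : RC G} (h : Far2 R w w') : Far2 R w' w := by
  refine rtg_symm ?_ h
  rintro x y ⟨⟨s, rfl⟩, h1, h2⟩
  exact ⟨⟨s, by rw [mul_assoc, rg_mul_self, mul_one]⟩, h2, h1⟩

theorem Far2.trans {R : ℕ} {w w' w'' : RC G} (h : Far2 R w w') (h' : Far2 R w' w'') :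
    Far2 R w w'' := Relation.ReflTransGen.trans h h'

theorem Far2.step {R : ℕ} {w : RC G} {s : Λ} (h : R ≤ len w) (h' : R ≤ len (w * rg G s)) :
    Far2 R w (w * rg G s) := Relation.ReflTransGen.single ⟨⟨s, rfl⟩, h, h'⟩

/-- the condition on `G` which makes `RC G` one-ended: complements of cliques are connected -/
def CoCliqueConn (G : SimpleGraph Λ) : Prop :=
  ∀ S : Set Λ, S.Pairwise G.Adj → ∀ s t, s ∉ S → t ∉ S →
    Relation.ReflTransGen (fun a b => G.Adj a b ∧ a ∉ S ∧ b ∉ S) s t

/-- the neighbours of `x` above `x` are joined above `x` -/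
theorem far2_ascents (hG : CoCliqueConn G) (x : RC G) {s t : Λ} (hs : ¬ RD s x) (ht : ¬ RD t x) :
    Far2 (len x + 1) (x * rg G s) (x * rg G t) := by
  have h1 := hG {a | RD a x} (fun a ha b hb hab => rd_adj ha hb hab) s t hs ht
  induction h1 with
  | refl => exact Relation.ReflTransGen.refl
  | @tail b c _ h2 ih =>
    obtain ⟨h3, h4, h5⟩ := h2
    have hb : ¬ RD b x := h4
    have hc : ¬ RD c x := h5
    refine (ih hb).trans ?_
    have e1 := len_mul_rg_of_not hb
    have e2 := len_mul_rg_of_not hc
    have h6 : ¬ RD c (x * rg G b) := fun h => hc ((rd_adj_mul h3).mp h)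
    have e3 := len_mul_rg_of_not h6
    have h7 : Far2 (len x + 1) (x * rg G b) (x * rg G b * rg G c) :=
      Far2.step (by omega) (by omega)
    have h8 : x * rg G b * rg G c = x * rg G c * rg G b := by
      rw [mul_assoc, rg_comm h3, ← mul_assoc]
    have h9 : Far2 (len x + 1) (x * rg G c) (x * rg G c * rg G b) :=
      Far2.step (by omega) (by rw [← h8]; omega)
    rw [← h8] at h9
    exact h7.trans h9.symm

theorem far2_zero (w w' : RC G) : Far2 0 w w' := by
  have key : ∀ c : RC G, Far2 0 (1 : RC G) c := by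
    intro c
    induction c using rac_induction_right with
    | h1 => exact Relation.ReflTransGen.refl
    | h2 a c ih => exact ih.trans (Far2.step (Nat.zero_le _) (Nat.zero_le _))
  exact (key w).symm.trans (key w')

/-- **One-endedness**: the complement of a ball is connected -/
theorem one_ended (hG : CoCliqueConn G) (R : ℕ) : ∀ w w' : RC G, R ≤ len w → R ≤ len w' →
    Far2 R w w' := by
  induction R with
  | zero => intro w w' _ _; exact far2_zero w w'
  | succ R ih =>
    intro w w' hw hw'
    have h1 := ih w w' (by omega) (by omega)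
    have key : ∀ y : RC G, Far2 R w y → (R + 1 ≤ len y → Far2 (R + 1) w y) ∧
        (len y = R → ∀ s, ¬ RD s y → Far2 (R + 1) w (y * rg G s)) := by
      intro y hy
      induction hy with
      | refl => exact ⟨fun _ => Relation.ReflTransGen.refl, fun h => by omega⟩
      | @tail b c _ h2 ih2 =>
        obtain ⟨⟨t, h3⟩, h4, h5⟩ := h2
        by_cases h6 : RD t b
        · have e1 := len_mul_rg_of_rd h6
          rw [← h3] at e1
          have h7 := ih2.1 (by omega)
          refine ⟨fun h8 => ?_, fun h8 s hs => ?_⟩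
          · rw [h3] at h8 ⊢
            exact h7.trans (Far2.step (by omega) h8)
          · have h9 : b = c * rg G t := by rw [h3, mul_assoc, rg_mul_self, mul_one]
            have h10 : ¬ RD t c := by rw [h3]; exact not_rd_mul_self h6
            have h11 := far2_ascents hG c h10 hs
            rw [← h9, h8] at h11
            exact h7.trans h11
        · have e1 := len_mul_rg_of_not h6
          rw [← h3] at e1
          refine ⟨fun h8 => ?_, fun h8 => by omega⟩
          by_cases h9 : R + 1 ≤ len b
          · rw [h3] at h8 ⊢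
            exact (ih2.1 h9).trans (Far2.step h9 h8)
          · have h10 := ih2.2 (by omega) t h6
            rw [← h3] at h10
            exact h10
    exact (key w' h1).1 hw'

theorem finite_ball [Finite Λ] (R : ℕ) : {w : RC G | len w ≤ R}.Finite := by
  have h1 : {l : List Λ | l.length ≤ R}.Finite := List.finite_length_le Λ R
  refine (h1.image (wp G)).subset ?_
  intro w hw
  obtain ⟨l, h2, h3⟩ := exists_red w
  refine ⟨l, ?_, h3⟩
  change l.length ≤ R
  rw [← len_wp h2, h3]
  exact hw

/-- a set with finite boundary is finite or cofinite -/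
theorem finite_or_cofinite [Finite Λ] (hG : CoCliqueConn G) (D : Set (RC G))
    (h : {w : RC G | ∃ s, ¬ (w ∈ D ↔ w * rg G s ∈ D)}.Finite) : D.Finite ∨ Dᶜ.Finite := by
  obtain ⟨R, hR⟩ : ∃ R, ∀ w : RC G, R ≤ len w → ∀ s, (w ∈ D ↔ w * rg G s ∈ D) := by
    obtain ⟨R, hR⟩ := (h.image len).bddAbove
    refine ⟨R + 1, fun w hw s => ?_⟩
    by_contra h1
    have h2 := hR ⟨w, ⟨s, h1⟩, rfl⟩
    omega
  have h1 : ∀ w w' : RC G, R ≤ len w → R ≤ len w' → (w ∈ D ↔ w' ∈ D) := by
    intro w w' hw hw'
    have h2 := one_ended hG R w w' hw hw'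
    induction h2 with
    | refl => exact Iff.rfl
    | tail _ h3 ih =>
      obtain ⟨⟨s, rfl⟩, h4, h5⟩ := h3
      exact (ih h4).trans (hR _ h4 s)
  by_cases h2 : ∃ w, R ≤ len w ∧ w ∈ D
  · right
    obtain ⟨w, h3, h4⟩ := h2
    refine (finite_ball (G := G) R).subset ?_
    intro x hx
    by_contra h5
    exact hx ((h1 w x h3 (by
      have : ¬ len x ≤ R := h5
      omega)).mp h4)
  · left
    push Not at h2
    refine (finite_ball (G := G) R).subset ?_
    intro x hx
    by_contra h5
    have : ¬ len x ≤ R := h5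
    exact h2 x (by omega) hx

end

end Pool.CS

namespace Pool.CX

open Pool.CS

theorem act_eq_r {Q : Type} (L : LS G12 Q) (q : Q) (l : List (ZMod 12)) :
    act L q l = L.r q (wp G12 l) := by
  induction l generalizing q with
  | nil => rw [wp_nil, LS.r_one]; rfl
  | cons a l ih =>
    rw [LS.r_wp_cons, ← ih]; rfl

theorem act_append {Q : Type} (L : LS G12 Q) (q : Q) (l l' : List (ZMod 12)) :
    act L q (l ++ l') = act L (act L q l) l' := by
  rw [act, List.foldl_append]; rfl

theorem walk_eq_act {Q : Type} (L : LS G12 Q) (q : Q) (l : List (ZMod 12)) :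
    W1.walk (fun q i => L.τ i q) q l = act L q l := rfl

theorem far_iff (i j : ZMod 12) : W1.Far i j ↔ Far i j := by
  revert i j; decide

theorem far_not_adj {i j : ZMod 12} (h : Far i j) : i ≠ j ∧ ¬ G12.Adj i j := by
  revert i j; decide

theorem rig_of_far {l : List (ZMod 12)} (h : l.IsChain Far) : Rig G12 l :=
  List.IsChain.imp (fun _ _ h => far_not_adj h) h

theorem rig_of_rigid {l : List (ZMod 12)} (h : W1.Rigid l) : Rig G12 l :=
  List.IsChain.imp (fun _ _ h => far_not_adj ((far_iff _ _).mp h)) h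

/-- finite tilings with large injectivity radius -/
theorem exists_tiling (R : ℕ) : ∃ (Q : Type) (_ : Finite Q) (_ : Nonempty Q) (L : LS G12 Q)
    (ε : Q → ZMod 12 → ZMod 2), (∀ q q', ∃ l, act L q l = q') ∧
    (∀ (q : Q) (l : List (ZMod 12)), l.length ≤ R → act L q l = q → wp G12 l = 1) ∧
    (∀ (q : Q) (l l' : List (ZMod 12)), l.length + l'.length ≤ R → act L q l = act L q l' →
      wp G12 l = wp G12 l') ∧
    W1.InjR (fun q i => L.τ i q) (R / 2) ∧
    (∀ q a, ε (L.τ a q) a = ε q a + 1) ∧ (∀ q a b, b ≠ a → ε (L.τ a q) b = ε q b) := by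
  obtain ⟨Q, h1, h2, L, ε, h3, h4, h5⟩ := exists_finite_LS G12 R
  have h6 : ∀ (q : Q) (l l' : List (ZMod 12)), l.length + l'.length ≤ R →
      act L q l = act L q l' → wp G12 l = wp G12 l' := by
    intro q l l' hl he
    rw [act_eq_r, act_eq_r] at he
    have h7 : L.r q (wp G12 l * (wp G12 l')⁻¹) = q := by
      rw [LS.r_mul, he, ← LS.r_mul, mul_inv_cancel, LS.r_one]
    have h8 := h4 q _ h7 (by
      rw [← wp_reverse, ← wp_append]
      refine (len_wp_le _).trans ?_
      rw [List.length_append, List.length_reverse]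
      exact hl)
    exact mul_inv_eq_one.mp h8
  refine ⟨Q, h1, h2, L, ε, ?_, ?_, h6, ?_, h5⟩
  · intro q q'
    obtain ⟨c, hc⟩ := h3 q q'
    obtain ⟨l, _, rfl⟩ := exists_red c
    exact ⟨l, by rw [act_eq_r, hc]⟩
  · intro q l hl he
    have := h6 q l [] (by simpa using hl) he
    rw [this, wp_nil]
  · intro g u v hu hv hlu hlv he
    have h7 := h6 g u v (by omega) he
    exact (Rig.unique (rig_of_rigid hv) (rig_of_rigid hu).red h7)

/-- `G12` satisfies the condition for one-endedness -/
theorem coCliqueConn12 : CoCliqueConn G12 := by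
  intro S hS
  obtain ⟨i, hi⟩ : ∃ i : ZMod 12, ∀ s ∈ S, s = i ∨ s = i + 1 := by
    by_cases h : ∃ s, s ∈ S
    · obtain ⟨s, hs⟩ := h
      by_cases h1 : s - 1 ∈ S
      · refine ⟨s - 1, fun t ht => ?_⟩
        by_contra h2
        push Not at h2
        have h3 : t ≠ s := by rintro rfl; exact h2.2 (by ring)
        have h4 := hS ht hs h3
        have h5 := hS ht h1 h2.1
        revert h4 h5
        have : ∀ t s : ZMod 12, G12.Adj t s → G12.Adj t (s - 1) → False := by decide
        exact fun a b => this t s a b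
      · refine ⟨s, fun t ht => ?_⟩
        by_contra h2
        push Not at h2
        have h3 := hS ht hs h2.1
        have h4 : ∀ t s : ZMod 12, G12.Adj t s → t ≠ s + 1 → t = s - 1 := by decide
        exact h1 (h4 t s h3 h2.2 ▸ ht)
    · push Not at h
      exact ⟨0, fun s hs => absurd hs (h s)⟩
  set r : ZMod 12 → ZMod 12 → Prop := fun a b => G12.Adj a b ∧ a ∉ S ∧ b ∉ S with hr
  have hsymm : ∀ a b, Relation.ReflTransGen r a b → Relation.ReflTransGen r b a := by
    intro a b h
    refine rtg_symm ?_ h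
    rintro x y ⟨h1, h2, h3⟩
    exact ⟨h1.symm, h3, h2⟩
  have hnot : ∀ k : ℕ, 2 ≤ k → k ≤ 11 → i + (k : ZMod 12) ∉ S := by
    intro k h1 h2 h3
    have h4 := hi _ h3
    have h5 : ∀ i : ZMod 12, ∀ k : Fin 12, 2 ≤ k.val → ¬ (i + (k.val : ZMod 12) = i ∨
        i + (k.val : ZMod 12) = i + 1) := by decide
    exact h5 i ⟨k, by omega⟩ h1 h4
  have hpath : ∀ k : ℕ, 2 ≤ k → k ≤ 11 →
      Relation.ReflTransGen r (i + 2) (i + (k : ZMod 12)) := by
    intro k h1
    induction k, h1 using Nat.le_induction with
    | base => intro _; exact Relation.ReflTransGen.refl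
    | succ k hk ih =>
      intro h2
      refine (ih (by omega)).tail ⟨Or.inl ?_, hnot k hk (by omega), hnot (k + 1) (by omega) h2⟩
      push_cast
      ring
  have hall : ∀ s, s ∉ S → Relation.ReflTransGen r (i + 2) s := by
    intro s hs
    have h1 : ∀ i s : ZMod 12, (∃ k : Fin 12, 2 ≤ k.val ∧ s = i + (k.val : ZMod 12)) ∨ s = i ∨
        s = i + 1 := by decide
    rcases h1 i s with ⟨k, h2, h3⟩ | h2 | h2
    · rw [h3]; exact hpath k.val h2 (by omega)
    · refine (hpath 11 (by norm_num) (by norm_num)).tail ⟨?_, hnot 11 (by norm_num) (by norm_num), hs⟩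
      rw [h2]
      have : ∀ i : ZMod 12, G12.Adj (i + ((11 : ℕ) : ZMod 12)) i := by decide
      exact this i
    · refine Relation.ReflTransGen.single ⟨?_, ?_, hs⟩
      · rw [h2]
        have : ∀ i : ZMod 12, G12.Adj (i + 2) (i + 1) := by decide
        exact this i
      · exact_mod_cast hnot 2 (by norm_num) (by norm_num)
  intro s t hs ht
  exact (hsymm _ _ (hall s hs)).trans (hall t ht)

/-- a set of elements of `W` with finite boundary is finite or cofinite -/
theorem W_finite_or_cofinite (D : Set W)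
    (h : {w : W | ∃ s, ¬ (w ∈ D ↔ w * rg G12 s ∈ D)}.Finite) : D.Finite ∨ Dᶜ.Finite :=
  finite_or_cofinite coCliqueConn12 D h

end Pool.CX
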