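import Pool.Agent.Work.MP_727c87_cx.Defs
import Pool.Agent.Work.MP_727c87_cx.RacgE

set_option autoImplicit false

/-! # Coverings of the flag complex: universal covering, first cohomology, deck transformations, arcs -/

namespace Pool.CX

open Pool.CS

/-! ## Generalities -/

namespace Cov
variable {Mo : Model}

/-- crossing as a permutation -/
def aPerm (C : Cov Mo) : Equiv.Perm C.Y := ⟨C.a, C.a, C.a_a, C.a_a⟩

@[simp] theorem aPerm_apply (C : Cov Mo) (y : C.Y) : C.aPerm y = C.a y := rfl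

theorem a_inj (C : Cov Mo) : Function.Injective C.a := C.aPerm.injective

theorem b_b (C : Cov Mo) (y : C.Y) : C.b (C.b y) = y := by
  simp [Cov.b, C.a_a]

theorem a_b (C : Cov Mo) (y : C.Y) : C.a (C.b y) = C.b (C.a y) := C.ab y

theorem p_rsymm (C : Cov Mo) (y : C.Y) : C.p (C.r.symm y) = Mo.fr.symm (C.p y) := by
  have h := C.p_r (C.r.symm y)
  rw [Equiv.apply_symm_apply] at h
  rw [h, Equiv.symm_apply_apply]

theorem p_b (C : Cov Mo) (y : C.Y) : C.p (C.b y) = Mo.base.b (C.p y) := by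
  simp only [Cov.b, p_rsymm, C.p_a, C.p_r]
  rfl

theorem p_pow (C : Cov Mo) (n : ℕ) (y : C.Y) : C.p ((C.r ^ n) y) = ((C.p y).1, (C.p y).2 + n) := by
  induction n with
  | zero => simp
  | succ n ih =>
    rw [pow_succ', Equiv.Perm.mul_apply, C.p_r, ih]
    simp [Model.fr, add_assoc]

theorem p_pow_fst (C : Cov Mo) (n : ℕ) (y : C.Y) : (C.p ((C.r ^ n) y)).1 = (C.p y).1 := by
  rw [p_pow]

theorem p_r_fst (C : Cov Mo) (y : C.Y) : (C.p (C.r y)).1 = (C.p y).1 := by
  rw [C.p_r]; rfl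

theorem p_a_snd (C : Cov Mo) (y : C.Y) : (C.p (C.a y)).2 = (C.p y).2 := by
  rw [C.p_a]; rfl

theorem p_m (C : Cov Mo) (y : C.Y) : C.p (C.m y) = ((C.p y).1, Mo.mu (C.p y).1 (C.p y).2) := by
  rw [Cov.m, p_pow]
  simp

theorem Elem.symm {C : Cov Mo} {y y' : C.Y} (h : C.Elem y y') : C.Elem y' y := by
  rcases h with h | h | h
  · left; rw [h, C.a_a]
  · right; right; rw [h, Equiv.symm_apply_apply]
  · right; left; rw [h, Equiv.apply_symm_apply]

theorem reach_symm {C : Cov Mo} {y y' : C.Y} (h : Relation.ReflTransGen C.Elem y y') :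
    Relation.ReflTransGen C.Elem y' y := by
  induction h with
  | refl => exact Relation.ReflTransGen.refl
  | tail _ h2 ih => exact Relation.ReflTransGen.head (Elem.symm h2) ih

/-- the free group on `a` (`false`) and `r` (`true`) acts -/
noncomputable def hom (C : Cov Mo) : FreeGroup Bool →* Equiv.Perm C.Y :=
  FreeGroup.lift (fun x => bif x then C.r else C.aPerm)

@[simp] theorem hom_a (C : Cov Mo) : C.hom (FreeGroup.of false) = C.aPerm := by
  simp [hom]

@[simp] theorem hom_r (C : Cov Mo) : C.hom (FreeGroup.of true) = C.r := by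
  simp [hom]

theorem hom_inv_a (C : Cov Mo) (y : C.Y) : C.hom (FreeGroup.of false)⁻¹ y = C.a y := by
  rw [map_inv, hom_a]; rfl

/-- morphisms of coverings commute with the free group -/
theorem hom_map {C C' : Cov Mo} (φ : C.Y → C'.Y) (h1 : ∀ z, φ (C.a z) = C'.a (φ z))
    (h2 : ∀ z, φ (C.r z) = C'.r (φ z)) (g : FreeGroup Bool) (y : C.Y) :
    φ (C.hom g y) = C'.hom g (φ y) := by
  induction g using FreeGroup.induction_on generalizing y with
  | C1 => simp
  | of x =>
    cases x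
    · simp [h1]
    · simp [h2]
  | inv_of x _ =>
    cases x
    · rw [hom_inv_a, hom_inv_a, h1]
    · rw [map_inv, map_inv, hom_r, hom_r]
      have h3 := h2 (C.r.symm y)
      rw [Equiv.apply_symm_apply] at h3
      rw [Equiv.Perm.inv_def, Equiv.Perm.inv_def, h3, Equiv.symm_apply_apply]
  | mul x y' hx hy => rw [map_mul, map_mul, Equiv.Perm.mul_apply, Equiv.Perm.mul_apply, hx, hy]

theorem p_hom (C : Cov Mo) (g : FreeGroup Bool) (y : C.Y) : C.p (C.hom g y) = Mo.base.hom g (C.p y) :=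
  hom_map (C := C) (C' := Mo.base) C.p C.p_a C.p_r g y

theorem reach_hom (C : Cov Mo) (g : FreeGroup Bool) (y : C.Y) :
    Relation.ReflTransGen C.Elem y (C.hom g y) := by
  induction g using FreeGroup.induction_on generalizing y with
  | C1 => simpa using Relation.ReflTransGen.refl
  | of x =>
    cases x
    · rw [hom_a]; exact Relation.ReflTransGen.single (Or.inl rfl)
    · rw [hom_r]; exact Relation.ReflTransGen.single (Or.inr (Or.inl rfl))
  | inv_of x _ =>
    cases x
    · rw [hom_inv_a]; exact Relation.ReflTransGen.single (Or.inl rfl)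
    · rw [map_inv, hom_r]; exact Relation.ReflTransGen.single (Or.inr (Or.inr rfl))
  | mul x y' hx hy => rw [map_mul, Equiv.Perm.mul_apply]; exact (hy y).trans (hx _)

theorem exists_hom {C : Cov Mo} {y y' : C.Y} (h : Relation.ReflTransGen C.Elem y y') :
    ∃ g, y' = C.hom g y := by
  induction h with
  | refl => exact ⟨1, by simp⟩
  | tail _ h2 ih =>
    obtain ⟨g, rfl⟩ := ih
    rcases h2 with h | h | h
    · exact ⟨FreeGroup.of false * g, by rw [map_mul, Equiv.Perm.mul_apply, hom_a, h]; rfl⟩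
    · exact ⟨FreeGroup.of true * g, by rw [map_mul, Equiv.Perm.mul_apply, hom_r, h]⟩
    · exact ⟨(FreeGroup.of true)⁻¹ * g, by rw [map_mul, map_inv, Equiv.Perm.mul_apply, hom_r, h]; rfl⟩

/-- two morphisms which agree at one flag agree -/
theorem Conn.map_ext {C C' : Cov Mo} (hC : C.Conn) {φ ψ : C.Y → C'.Y} (h1 : ∀ z, φ (C.a z) = C'.a (φ z))
    (h2 : ∀ z, φ (C.r z) = C'.r (φ z)) (h3 : ∀ z, ψ (C.a z) = C'.a (ψ z))
    (h4 : ∀ z, ψ (C.r z) = C'.r (ψ z)) {y : C.Y} (h : φ y = ψ y) : φ = ψ := by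
  funext z
  obtain ⟨g, rfl⟩ := exists_hom (hC y z)
  rw [hom_map φ h1 h2, hom_map ψ h3 h4, h]

end Cov

/-! ## The connectedness of the base -/

theorem act_cons {Q : Type} (L : LS G12 Q) (q : Q) (i : ZMod 12) (l : List (ZMod 12)) :
    act L q (i :: l) = act L (L.τ i q) l := rfl

theorem Model.base_pow (Mo : Model) (n : ℕ) (y : Mo.F) : (Mo.fr ^ n) y = (y.1, y.2 + n) :=
  Mo.base.p_pow n y

theorem Model.base_rot (Mo : Model) (q : Mo.Q) (i j : ZMod 12) :
    Relation.ReflTransGen Mo.base.Elem (q, i) (q, j) := by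
  have h : ∀ n : ℕ, Relation.ReflTransGen Mo.base.Elem (q, i) (q, i + n) := by
    intro n
    induction n with
    | zero => simpa using Relation.ReflTransGen.refl
    | succ n ih =>
      refine ih.tail (Or.inr (Or.inl ?_))
      change _ = ((q, i + n + 1) : Mo.F)
      simp [add_assoc]
  have h2 := h (j - i).val
  rwa [ZMod.natCast_val, ZMod.cast_id', id, add_sub_cancel] at h2

theorem Model.base_conn (Mo : Model) : Mo.base.Conn := by
  intro y y'
  obtain ⟨q, i⟩ := y
  obtain ⟨q', i'⟩ := y'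
  obtain ⟨l, rfl⟩ := Mo.conn q q'
  induction l generalizing q i with
  | nil => exact Mo.base_rot q i i'
  | cons j l ih =>
    rw [act_cons]
    refine ((Mo.base_rot q i j).tail (Or.inl ?_)).trans (ih (Mo.L.τ j q) j)
    rfl

theorem Cov.Univ.p_surj {Mo : Model} {C : Cov Mo} (h : C.Univ) : Function.Surjective C.p := by
  intro f
  obtain ⟨y⟩ := h.ne
  obtain ⟨g, hg⟩ := Cov.exists_hom (Mo.base_conn (C.p y) f)
  exact ⟨C.hom g y, by rw [Cov.p_hom]; exact hg.symm⟩

/-! ## The universal covering -/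

namespace UC
variable (Mo : Model) (f0 : Mo.F)

/-- the generating loops: conjugates of the relations -/
def rel : Set (FreeGroup Bool) :=
  {x | ∃ g : FreeGroup Bool, x = g⁻¹ * (FreeGroup.of false * FreeGroup.of false) * g ∨
    x = g⁻¹ * ((FreeGroup.of true)⁻¹ * FreeGroup.of false * FreeGroup.of true * FreeGroup.of false)⁻¹ *
      (FreeGroup.of false * ((FreeGroup.of true)⁻¹ * FreeGroup.of false * FreeGroup.of true)) * g ∨
    ((Mo.base.hom g f0).1 ∉ Mo.D ∧ x = g⁻¹ * (FreeGroup.of true) ^ 12 * g)}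

/-- the fundamental group of the universal covering in the free group -/
def H0 : Subgroup (FreeGroup Bool) := Subgroup.closure (rel Mo f0)

/-- elements of `H0` fix the flags over `f0`, also after conjugation -/
theorem fix (C : Cov Mo) (g0 : FreeGroup Bool) (y : C.Y) (hy : C.p y = Mo.base.hom g0 f0)
    {h : FreeGroup Bool} (hh : h ∈ H0 Mo f0) : C.hom (g0 * h * g0⁻¹) y = y := by
  induction hh using Subgroup.closure_induction with
  | mem x hx =>
    obtain ⟨g, rfl | rfl | ⟨hD, rfl⟩⟩ := hx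
    · have e : g0 * (g⁻¹ * (FreeGroup.of false * FreeGroup.of false) * g) * g0⁻¹ =
        (g * g0⁻¹)⁻¹ * (FreeGroup.of false * FreeGroup.of false) * (g * g0⁻¹) := by group
      rw [e, map_mul, map_mul, Equiv.Perm.mul_apply, Equiv.Perm.mul_apply]
      have e2 : C.hom (FreeGroup.of false * FreeGroup.of false) (C.hom (g * g0⁻¹) y) =
          C.hom (g * g0⁻¹) y := by
        rw [map_mul, Cov.hom_a, Equiv.Perm.mul_apply]
        exact C.a_a _
      rw [e2, ← Equiv.Perm.mul_apply, ← map_mul, inv_mul_cancel, map_one, Equiv.Perm.one_apply]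
    · set z := C.hom (g * g0⁻¹) y with hz
      have e : g0 * (g⁻¹ * ((FreeGroup.of true)⁻¹ * FreeGroup.of false * FreeGroup.of true *
            FreeGroup.of false)⁻¹ * (FreeGroup.of false * ((FreeGroup.of true)⁻¹ * FreeGroup.of false *
            FreeGroup.of true)) * g) * g0⁻¹ =
        (g * g0⁻¹)⁻¹ * ((FreeGroup.of true)⁻¹ * FreeGroup.of false * FreeGroup.of true *
            FreeGroup.of false)⁻¹ * (FreeGroup.of false * ((FreeGroup.of true)⁻¹ * FreeGroup.of false *
            FreeGroup.of true)) * (g * g0⁻¹) := by group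
      rw [e, map_mul, map_mul, map_mul, Equiv.Perm.mul_apply, Equiv.Perm.mul_apply,
        Equiv.Perm.mul_apply, ← hz]
      have e2 : C.hom (FreeGroup.of false * ((FreeGroup.of true)⁻¹ * FreeGroup.of false *
            FreeGroup.of true)) z = C.hom ((FreeGroup.of true)⁻¹ * FreeGroup.of false *
            FreeGroup.of true * FreeGroup.of false) z := by
        simp only [map_mul, Equiv.Perm.mul_apply, map_inv, Cov.hom_a, Cov.hom_r]
        exact C.ab z
      rw [e2, ← Equiv.Perm.mul_apply (C.hom _) (C.hom _) z, ← map_mul, inv_mul_cancel, map_one,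
        Equiv.Perm.one_apply, hz, ← Equiv.Perm.mul_apply, ← map_mul, inv_mul_cancel, map_one,
        Equiv.Perm.one_apply]
    · have e : g0 * (g⁻¹ * FreeGroup.of true ^ 12 * g) * g0⁻¹ =
        (g * g0⁻¹)⁻¹ * FreeGroup.of true ^ 12 * (g * g0⁻¹) := by group
      rw [e, map_mul, map_mul, Equiv.Perm.mul_apply, Equiv.Perm.mul_apply, map_pow, Cov.hom_r]
      have e2 : C.p (C.hom (g * g0⁻¹) y) = Mo.base.hom g f0 := by
        rw [Cov.p_hom, hy, ← Equiv.Perm.mul_apply, ← map_mul, inv_mul_cancel_right]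
      rw [C.nd _ (by rw [e2]; exact hD), ← Equiv.Perm.mul_apply, ← map_mul, inv_mul_cancel, map_one,
        Equiv.Perm.one_apply]
  | one => simp
  | mul x y' _ _ hx hy' =>
    have e : g0 * (x * y') * g0⁻¹ = (g0 * x * g0⁻¹) * (g0 * y' * g0⁻¹) := by group
    rw [e, map_mul, Equiv.Perm.mul_apply, hy', hx]
  | inv x _ hx =>
    have e : g0 * x⁻¹ * g0⁻¹ = (g0 * x * g0⁻¹)⁻¹ := by group
    rw [e, map_inv]
    exact (Equiv.Perm.inv_eq_iff_eq).2 hx.symm

theorem fix0 (C : Cov Mo) (y : C.Y) (hy : C.p y = f0) {h : FreeGroup Bool} (hh : h ∈ H0 Mo f0) :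
    C.hom h y = y := by
  have := fix Mo f0 C 1 y (by rw [map_one, Equiv.Perm.one_apply]; exact hy) hh
  simpa using this

/-- the flags of the universal covering -/
abbrev UY : Type := FreeGroup Bool ⧸ H0 Mo f0

/-- left multiplication -/
def lm (x : FreeGroup Bool) : UY Mo f0 → UY Mo f0 :=
  Quotient.map' (fun g => x * g) (by
    intro g g' h
    rw [QuotientGroup.leftRel_apply] at h ⊢
    simpa [mul_assoc] using h)

@[simp] theorem lm_mk (x g : FreeGroup Bool) : lm Mo f0 x (g : UY Mo f0) = ((x * g : FreeGroup Bool) : UY Mo f0) := rfl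

theorem mk_eq {g g' : FreeGroup Bool} (h : g⁻¹ * g' ∈ rel Mo f0) : (g : UY Mo f0) = (g' : UY Mo f0) :=
  QuotientGroup.eq.2 (Subgroup.subset_closure h)

/-- left multiplication by `r` -/
def rPerm : Equiv.Perm (UY Mo f0) where
  toFun := lm Mo f0 (FreeGroup.of true)
  invFun := lm Mo f0 (FreeGroup.of true)⁻¹
  left_inv y := by
    induction y using QuotientGroup.induction_on with
    | H g => simp
  right_inv y := by
    induction y using QuotientGroup.induction_on with
    | H g => simp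

theorem rPerm_pow (n : ℕ) (g : FreeGroup Bool) :
    (rPerm Mo f0 ^ n) (g : UY Mo f0) = ((FreeGroup.of true ^ n * g : FreeGroup Bool) : UY Mo f0) := by
  induction n with
  | zero => simp
  | succ n ih =>
    rw [pow_succ', Equiv.Perm.mul_apply, ih, pow_succ', mul_assoc]
    rfl

/-- the projection -/
noncomputable def proj : UY Mo f0 → Mo.F :=
  Quotient.lift (fun g : FreeGroup Bool => Mo.base.hom g f0) (by
    intro g g' h
    have h1 : g⁻¹ * g' ∈ H0 Mo f0 := QuotientGroup.leftRel_apply.1 h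
    have h2 := fix0 Mo f0 Mo.base f0 rfl h1
    change Mo.base.hom g f0 = Mo.base.hom g' f0
    have h3 : g' = g * (g⁻¹ * g') := by group
    rw [h3, map_mul, Equiv.Perm.mul_apply]
    exact congrArg _ h2.symm)

@[simp] theorem proj_mk (g : FreeGroup Bool) : proj Mo f0 (g : UY Mo f0) = Mo.base.hom g f0 := rfl

/-- the universal covering -/
noncomputable def cov : Cov Mo where
  Y := UY Mo f0
  a := lm Mo f0 (FreeGroup.of false)
  r := rPerm Mo f0
  p := proj Mo f0
  a_a y := by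
    induction y using QuotientGroup.induction_on with
    | H g =>
      rw [lm_mk, lm_mk]
      refine (mk_eq Mo f0 ⟨g, Or.inl ?_⟩).symm
      group
  ab y := by
    induction y using QuotientGroup.induction_on with
    | H g =>
      change (((FreeGroup.of false * ((FreeGroup.of true)⁻¹ * (FreeGroup.of false * (FreeGroup.of true * g)))) :
        FreeGroup Bool) : UY Mo f0) = (((FreeGroup.of true)⁻¹ * (FreeGroup.of false *
        (FreeGroup.of true * (FreeGroup.of false * g))) : FreeGroup Bool) : UY Mo f0)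
      refine (mk_eq Mo f0 ⟨g, Or.inr (Or.inl ?_)⟩).symm
      group
  p_a y := by
    induction y using QuotientGroup.induction_on with
    | H g =>
      rw [lm_mk, proj_mk, proj_mk, map_mul, Equiv.Perm.mul_apply, Cov.hom_a]
      rfl
  p_r y := by
    induction y using QuotientGroup.induction_on with
    | H g =>
      change proj Mo f0 ((FreeGroup.of true * g : FreeGroup Bool) : UY Mo f0) = _
      rw [proj_mk, proj_mk, map_mul, Equiv.Perm.mul_apply, Cov.hom_r]
      rfl
  nd y h := by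
    induction y using QuotientGroup.induction_on with
    | H g =>
      rw [rPerm_pow]
      rw [proj_mk] at h
      refine (mk_eq Mo f0 ⟨g, Or.inr (Or.inr ⟨h, ?_⟩)⟩).symm
      group

theorem cov_hom (g g' : FreeGroup Bool) : (cov Mo f0).hom g (g' : UY Mo f0) = ((g * g' : FreeGroup Bool) : UY Mo f0) := by
  induction g using FreeGroup.induction_on generalizing g' with
  | C1 => simp
  | of x =>
    cases x
    · rw [Cov.hom_a]; rfl
    · rw [Cov.hom_r]; rfl
  | inv_of x _ =>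
    cases x
    · rw [Cov.hom_inv_a]
      change ((FreeGroup.of false * g' : FreeGroup Bool) : UY Mo f0) = _
      refine (mk_eq Mo f0 ⟨g', Or.inl ?_⟩).symm
      group
    · rw [map_inv, Cov.hom_r]; rfl
  | mul x y hx hy => rw [map_mul, Equiv.Perm.mul_apply, hy, hx, mul_assoc]

theorem cov_univ : (cov Mo f0).Univ where
  ne := ⟨((1 : FreeGroup Bool) : UY Mo f0)⟩
  conn := by
    have h : ∀ g : FreeGroup Bool, Relation.ReflTransGen (cov Mo f0).Elem
        ((1 : FreeGroup Bool) : UY Mo f0) (g : UY Mo f0) := by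
      intro g
      have := (cov Mo f0).reach_hom g ((1 : FreeGroup Bool) : UY Mo f0)
      rwa [cov_hom, mul_one] at this
    intro y y'
    induction y using QuotientGroup.induction_on with
    | H g =>
      induction y' using QuotientGroup.induction_on with
      | H g' =>
        exact (Cov.reach_symm (h g)).trans (h g')
  map := by
    intro C' y y' hyy
    induction y using QuotientGroup.induction_on with
    | H g0 =>
      have hp : C'.p y' = Mo.base.hom g0 f0 := hyy.symm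
      refine ⟨Quotient.lift (fun g : FreeGroup Bool => C'.hom (g * g0⁻¹) y') ?_, ?_, ?_, ?_, ?_⟩
      · intro g g' h
        have h1 : g⁻¹ * g' ∈ H0 Mo f0 := QuotientGroup.leftRel_apply.1 h
        have h2 := fix Mo f0 C' g0 y' hp h1
        change C'.hom (g * g0⁻¹) y' = C'.hom (g' * g0⁻¹) y'
        have h3 : g' * g0⁻¹ = (g * g0⁻¹) * (g0 * (g⁻¹ * g') * g0⁻¹) := by group
        rw [h3, map_mul C'.hom (g * g0⁻¹) (g0 * (g⁻¹ * g') * g0⁻¹), Equiv.Perm.mul_apply, h2]
      · change C'.hom (g0 * g0⁻¹) y' = y'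
        simp
      · intro z
        induction z using QuotientGroup.induction_on with
        | H g =>
          change C'.hom (FreeGroup.of false * g * g0⁻¹) y' = C'.a (C'.hom (g * g0⁻¹) y')
          rw [mul_assoc, map_mul, Equiv.Perm.mul_apply, Cov.hom_a]
          rfl
      · intro z
        induction z using QuotientGroup.induction_on with
        | H g =>
          change C'.hom (FreeGroup.of true * g * g0⁻¹) y' = C'.r (C'.hom (g * g0⁻¹) y')
          rw [mul_assoc, map_mul, Equiv.Perm.mul_apply, Cov.hom_r]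
      · intro z
        induction z using QuotientGroup.induction_on with
        | H g =>
          change C'.p (C'.hom (g * g0⁻¹) y') = Mo.base.hom g f0
          rw [Cov.p_hom, hp, ← Equiv.Perm.mul_apply, ← map_mul, inv_mul_cancel_right]

end UC

/-! ## First cohomology -/

namespace Cov
variable {Mo : Model}

/-- products of the labels of the `r`-edges -/
def rprod {A : Type} [Group A] (C : Cov Mo) (β : C.Y → A) : ℕ → C.Y → A
  | 0, _ => 1
  | n + 1, y => β ((C.r ^ n) y) * C.rprod β n y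

/-- the twisted rotation -/
def twr {A : Type} [Group A] (C : Cov Mo) (β : C.Y → A) : Equiv.Perm (C.Y × A) where
  toFun := fun z => (C.r z.1, β z.1 * z.2)
  invFun := fun z => (C.r.symm z.1, (β (C.r.symm z.1))⁻¹ * z.2)
  left_inv := fun z => by simp
  right_inv := fun z => by simp

theorem twr_pow {A : Type} [Group A] (C : Cov Mo) (β : C.Y → A) (n : ℕ) (z : C.Y × A) :
    (C.twr β ^ n) z = ((C.r ^ n) z.1, C.rprod β n z.1 * z.2) := by
  induction n with
  | zero => simp [rprod]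
  | succ n ih =>
    rw [pow_succ', Equiv.Perm.mul_apply, ih]
    simp only [twr, Equiv.coe_fn_mk, rprod, pow_succ', Equiv.Perm.mul_apply, mul_assoc]

/-- the twisted product: the flags `(y, x)` with `a (y, x) = (a y, α y * x)`, `r (y, x) = (r y, β y * x)` -/
def twist {A : Type} [Group A] (C : Cov Mo) (α β : C.Y → A) (h1 : ∀ y, α (C.a y) * α y = 1)
    (h2 : ∀ y, α (C.b y) * ((β (C.b y))⁻¹ * α (C.r y) * β y) =
      ((β (C.b (C.a y)))⁻¹ * α (C.r (C.a y)) * β (C.a y)) * α y)
    (h3 : ∀ y, (C.p y).1 ∉ Mo.D → C.rprod β 12 y = 1) : Cov Mo where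
  Y := C.Y × A
  a z := (C.a z.1, α z.1 * z.2)
  r := C.twr β
  p z := C.p z.1
  a_a z := by
    refine Prod.ext (C.a_a z.1) ?_
    change α (C.a z.1) * (α z.1 * z.2) = z.2
    rw [← mul_assoc, h1, one_mul]
  ab z := by
    refine Prod.ext (C.ab z.1) ?_
    have h := h2 z.1
    simp only [Cov.b] at h
    simp only [twr, Equiv.coe_fn_mk, Equiv.coe_fn_symm_mk]
    have e : ∀ u v w x t : A, u * (v⁻¹ * (w * (x * t))) = (u * (v⁻¹ * w * x)) * t := by
      intro u v w x t; group
    have e' : ∀ u v w x t : A, v⁻¹ * (w * (x * (u * t))) = ((v⁻¹ * w * x) * u) * t := by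
      intro u v w x t; group
    rw [e, e', h]
  p_a z := C.p_a z.1
  p_r z := C.p_r z.1
  nd z hz := by
    rw [twr_pow, C.nd z.1 hz, h3 z.1 hz, one_mul]

/-- `H¹ = 0`: every cocycle on `C` (with values in any group, trivial on the relations: `a a = 1`, `a b = b a` and
`r¹² = 1` over the non-defect chambers and at the flags satisfying `R`) is a coboundary -/
def SC (C : Cov Mo) (R : C.Y → Prop) : Prop :=
  ∀ (A : Type) [Group A] (α β : C.Y → A), (∀ y, α (C.a y) * α y = 1) →
    (∀ y, α (C.b y) * ((β (C.b y))⁻¹ * α (C.r y) * β y) =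
      ((β (C.b (C.a y)))⁻¹ * α (C.r (C.a y)) * β (C.a y)) * α y) →
    (∀ y, (C.p y).1 ∉ Mo.D → C.rprod β 12 y = 1) → (∀ y, R y → C.rprod β 12 y = 1) →
    ∃ θ : C.Y → A, (∀ y, θ (C.a y) = α y * θ y) ∧ ∀ y, θ (C.r y) = β y * θ y

theorem coboundary_of_map {C : Cov Mo} (hC : C.Conn) {A : Type} [Group A] (α β : C.Y → A)
    (h1 : ∀ y, α (C.a y) * α y = 1)
    (h2 : ∀ y, α (C.b y) * ((β (C.b y))⁻¹ * α (C.r y) * β y) =
      ((β (C.b (C.a y)))⁻¹ * α (C.r (C.a y)) * β (C.a y)) * α y)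
    (h3 : ∀ y, (C.p y).1 ∉ Mo.D → C.rprod β 12 y = 1) (y0 : C.Y)
    (φ : C.Y → C.Y × A) (hφ : φ y0 = (y0, 1)) (ha : ∀ z, φ (C.a z) = (C.twist α β h1 h2 h3).a (φ z))
    (hr : ∀ z, φ (C.r z) = (C.twist α β h1 h2 h3).r (φ z)) :
    ∃ θ : C.Y → A, (∀ y, θ (C.a y) = α y * θ y) ∧ ∀ y, θ (C.r y) = β y * θ y := by
  have hfst : (fun z => (φ z).1) = id := by
    refine Conn.map_ext hC (C' := C) (φ := fun z => (φ z).1) (ψ := id) ?_ ?_ ?_ ?_ (y := y0) ?_
    · intro z; rw [ha]; rfl
    · intro z; rw [hr]; rfl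
    · intro z; rfl
    · intro z; rfl
    · change (φ y0).1 = y0; rw [hφ]
  have hf : ∀ z, (φ z).1 = z := fun z => congrFun hfst z
  refine ⟨fun z => (φ z).2, fun y => ?_, fun y => ?_⟩
  · change (φ (C.a y)).2 = α y * (φ y).2
    rw [ha]
    change α (φ y).1 * (φ y).2 = _
    rw [hf]
  · change (φ (C.r y)).2 = β y * (φ y).2
    rw [hr]
    change β (φ y).1 * (φ y).2 = _
    rw [hf]

/-- `H¹(Y; A) = 0` for the universal covering -/
theorem Univ.coboundary {C : Cov Mo} (hC : C.Univ) {A : Type} [Group A] (α β : C.Y → A)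
    (h1 : ∀ y, α (C.a y) * α y = 1)
    (h2 : ∀ y, α (C.b y) * ((β (C.b y))⁻¹ * α (C.r y) * β y) =
      ((β (C.b (C.a y)))⁻¹ * α (C.r (C.a y)) * β (C.a y)) * α y)
    (h3 : ∀ y, (C.p y).1 ∉ Mo.D → C.rprod β 12 y = 1) :
    ∃ θ : C.Y → A, (∀ y, θ (C.a y) = α y * θ y) ∧ ∀ y, θ (C.r y) = β y * θ y := by
  obtain ⟨y0⟩ := hC.ne
  obtain ⟨φ, hφ, ha, hr, -⟩ := hC.map (C.twist α β h1 h2 h3) y0 (y0, 1) rfl
  exact coboundary_of_map hC.conn α β h1 h2 h3 y0 φ hφ ha hr

theorem Univ.sc {C : Cov Mo} (hC : C.Univ) : C.SC (fun _ => False) :=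
  fun _ _ α β h1 h2 h3 _ => hC.coboundary α β h1 h2 h3

/-- A set of sides (`ε` constant on sides) which is even on every non-defect polygon (and on the polygons in `R`) is the
coboundary of a set of corners (`B` constant on corners; the side of `r y` separates the corners of `y` and `r y`). -/
theorem SC.side_cocycle {C : Cov Mo} {R : C.Y → Prop} (hC : C.SC R) (hR : ∀ y, R y → R (C.r y))
    (ε : C.Y → ZMod 2) (h1 : ∀ y, ε (C.a y) = ε y)
    (h3 : ∀ y, (C.p y).1 ∉ Mo.D → ∑ k ∈ Finset.range 12, ε ((C.r ^ k) y) = 0)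
    (h3' : ∀ y, R y → ∑ k ∈ Finset.range 12, ε ((C.r ^ k) y) = 0) :
    ∃ B : C.Y → ZMod 2, (∀ y, B (C.a y) = B y) ∧ (∀ y, B (C.b y) = B y) ∧ ∀ y, B (C.r y) = B y + ε (C.r y) := by
  have h2 : ∀ y, ε (C.r (C.b y)) = ε (C.r y) := by
    intro y
    rw [Cov.b, Equiv.apply_symm_apply, h1]
  have h4 : ∀ (n : ℕ) (y : C.Y), C.rprod (A := Multiplicative (ZMod 2))
      (fun y => Multiplicative.ofAdd (ε (C.r y))) n y =
        Multiplicative.ofAdd (∑ k ∈ Finset.range n, ε ((C.r ^ k) (C.r y))) := by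
    intro n y
    induction n with
    | zero => simp [rprod]
    | succ n ih =>
      rw [rprod, ih, Finset.sum_range_succ, ofAdd_add, mul_comm]
      congr 3
      rw [← Equiv.Perm.mul_apply, ← Equiv.Perm.mul_apply, ← pow_succ', ← pow_succ]
  obtain ⟨θ, ha, hr⟩ := hC (Multiplicative (ZMod 2)) (fun _ => 1)
    (fun y => Multiplicative.ofAdd (ε (C.r y))) (fun y => by simp) (fun y => by
      simp only [h2, mul_one, inv_mul_cancel]) (fun y hy => by
      rw [h4 12, h3 (C.r y) (by rw [p_r_fst]; exact hy)]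
      rfl) (fun y hy => by
      rw [h4 12, h3' (C.r y) (hR y hy)]
      rfl)
  refine ⟨fun y => (θ y).toAdd, fun y => ?_, fun y => ?_, fun y => ?_⟩
  · change (θ (C.a y)).toAdd = (θ y).toAdd
    rw [ha, one_mul]
  · have h5 := hr (C.b y)
    have h6 := hr y
    rw [h2] at h5
    have h7 : C.r (C.b y) = C.a (C.r y) := by rw [Cov.b, Equiv.apply_symm_apply]
    rw [h7, ha, one_mul, h6] at h5
    exact congrArg Multiplicative.toAdd (mul_left_cancel h5).symm
  · change (θ (C.r y)).toAdd = (θ y).toAdd + ε (C.r y)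
    rw [hr, toAdd_mul, add_comm]
    rfl

theorem Univ.side_cocycle {C : Cov Mo} (hC : C.Univ) (ε : C.Y → ZMod 2) (h1 : ∀ y, ε (C.a y) = ε y)
    (h3 : ∀ y, (C.p y).1 ∉ Mo.D → ∑ k ∈ Finset.range 12, ε ((C.r ^ k) y) = 0) :
    ∃ B : C.Y → ZMod 2, (∀ y, B (C.a y) = B y) ∧ (∀ y, B (C.b y) = B y) ∧ ∀ y, B (C.r y) = B y + ε (C.r y) :=
  hC.sc.side_cocycle (fun _ h => h.elim) ε h1 h3 (fun _ h => h.elim)

/-- A set of sides `ω` invariant under straight continuation at the corners is the coboundary of a set of chambers. -/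
theorem SC.wall_cocycle {C : Cov Mo} {R : C.Y → Prop} (hC : C.SC R) (ω : C.Y → ZMod 2)
    (h1 : ∀ y, ω (C.a y) = ω y)
    (h2 : ∀ y, ω (C.b y) = ω y) (h3 : ∀ y, ω (C.r (C.a y)) = ω (C.r y)) :
    ∃ A : C.Y → ZMod 2, (∀ y, A (C.r y) = A y) ∧ ∀ y, A (C.a y) = A y + ω y := by
  have h4 : ∀ (n : ℕ) (y : C.Y), C.rprod (A := Multiplicative (ZMod 2)) (fun _ => 1) n y = 1 := by
    intro n y
    induction n with
    | zero => rfl
    | succ n ih => rw [rprod, ih, one_mul]
  obtain ⟨θ, ha, hr⟩ := hC (Multiplicative (ZMod 2)) (fun y => Multiplicative.ofAdd (ω y))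
    (fun _ => 1) (fun y => by
      rw [h1, ← ofAdd_add]
      have : ω y + ω y = 0 := CharTwo.add_self_eq_zero _
      rw [this]; rfl) (fun y => by
      simp only [h2, h3, one_mul, mul_one, inv_one]
      rw [mul_comm]) (fun y hy => h4 12 y) (fun y hy => h4 12 y)
  refine ⟨fun y => (θ y).toAdd, fun y => ?_, fun y => ?_⟩
  · change (θ (C.r y)).toAdd = (θ y).toAdd
    rw [hr, one_mul]
  · change (θ (C.a y)).toAdd = (θ y).toAdd + ω y
    rw [ha, toAdd_mul, add_comm]
    rfl

theorem Univ.wall_cocycle {C : Cov Mo} (hC : C.Univ) (ω : C.Y → ZMod 2)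
    (h1 : ∀ y, ω (C.a y) = ω y)
    (h2 : ∀ y, ω (C.b y) = ω y) (h3 : ∀ y, ω (C.r (C.a y)) = ω (C.r y)) :
    ∃ A : C.Y → ZMod 2, (∀ y, A (C.r y) = A y) ∧ ∀ y, A (C.a y) = A y + ω y :=
  hC.sc.wall_cocycle ω h1 h2 h3

/-! ## Deck transformations -/

/-- automorphism of a covering over the base -/
structure Aut (C : Cov Mo) where
  e : Equiv.Perm C.Y
  a : ∀ z, e (C.a z) = C.a (e z)
  r : ∀ z, e (C.r z) = C.r (e z)
  p : ∀ z, C.p (e z) = C.p z

theorem Univ.exists_aut {C : Cov Mo} (hC : C.Univ) {y y' : C.Y} (h : C.p y = C.p y') :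
    ∃ e : C.Aut, e.e y = y' := by
  obtain ⟨φ, h0, h1, h2, h3⟩ := hC.map C y y' h
  obtain ⟨ψ, k0, k1, k2, k3⟩ := hC.map C y' y h.symm
  have e1 : ψ ∘ φ = id := by
    refine Conn.map_ext hC.conn (C' := C) ?_ ?_ (fun _ => rfl) (fun _ => rfl) (y := y) ?_
    · intro z; simp [h1, k1]
    · intro z; simp [h2, k2]
    · simp [h0, k0]
  have e2 : φ ∘ ψ = id := by
    refine Conn.map_ext hC.conn (C' := C) ?_ ?_ (fun _ => rfl) (fun _ => rfl) (y := y') ?_
    · intro z; simp [h1, k1]
    · intro z; simp [h2, k2]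
    · simp [h0, k0]
  exact ⟨⟨⟨φ, ψ, fun z => congrFun e1 z, fun z => congrFun e2 z⟩, h1, h2, h3⟩, h0⟩

theorem Conn.aut_ext {C : Cov Mo} (hC : C.Conn) {e e' : C.Aut} {y : C.Y} (h : e.e y = e'.e y) : e.e = e'.e := by
  have := Conn.map_ext hC (C' := C) (φ := e.e) (ψ := e'.e) e.a e.r e'.a e'.r h
  exact Equiv.ext (fun z => congrFun this z)

/-! ## Arcs -/

theorem m_m (C : Cov Mo) (y : C.Y) (hy : (C.p y).1 ∉ Mo.D) : C.m (C.m y) = y := by
  have h1 := C.p_m y
  unfold Cov.m
  rw [← Equiv.Perm.mul_apply, ← pow_add]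
  have h2 : C.p ((C.r ^ (Mo.mu (C.p y).1 (C.p y).2 - (C.p y).2).val) y) =
      ((C.p y).1, Mo.mu (C.p y).1 (C.p y).2) := h1
  rw [h2]
  simp only
  rw [(Mo.good (C.p y).1).inv]
  set i := (C.p y).2
  set j := Mo.mu (C.p y).1 i
  have hne : j - i ≠ 0 := by
    intro h0
    have h3 := (Mo.good (C.p y).1).far i
    have h4 : j = i := sub_eq_zero.1 h0
    change Far i j at h3
    rw [h4] at h3
    revert h3
    generalize i = i
    revert i
    decide
  have h5 : ∀ x : ZMod 12, x ≠ 0 → (-x).val + x.val = 12 := by decide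
  have h6 := h5 (j - i) hne
  rw [neg_sub] at h6
  rw [h6]
  exact C.nd y hy

theorem m_fst (C : Cov Mo) (y : C.Y) : (C.p (C.m y)).1 = (C.p y).1 := by rw [p_m]

theorem sameArc_a (C : Cov Mo) (y : C.Y) : C.SameArc y (C.a y) := Relation.EqvGen.rel _ _ (Or.inl rfl)

theorem sameArc_m (C : Cov Mo) (y : C.Y) (hy : (C.p y).1 ∉ Mo.D) : C.SameArc y (C.m y) :=
  Relation.EqvGen.rel _ _ (Or.inr ⟨hy, rfl⟩)

theorem SameArc.refl (C : Cov Mo) (y : C.Y) : C.SameArc y y := Relation.EqvGen.refl _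

theorem SameArc.symm {C : Cov Mo} {y y' : C.Y} (h : C.SameArc y y') : C.SameArc y' y :=
  Relation.EqvGen.symm _ _ h

theorem SameArc.trans {C : Cov Mo} {y y' y'' : C.Y} (h : C.SameArc y y') (h' : C.SameArc y' y'') :
    C.SameArc y y'' := Relation.EqvGen.trans _ _ _ h h'

/-- every arc of a universal covering cuts the set of corners in two -/
theorem Univ.arc_sides {C : Cov Mo} (hC : C.Univ) (y0 : C.Y) :
    ∃ B : Set C.Y, (∀ y, C.a y ∈ B ↔ y ∈ B) ∧ (∀ y, C.b y ∈ B ↔ y ∈ B) ∧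
      (∀ y, (C.r y ∈ B ↔ y ∈ B) ↔ ¬ C.SameArc y0 (C.r y)) := by
  classical
  let ε : C.Y → ZMod 2 := fun y => if C.SameArc y0 y then 1 else 0
  have h1 : ∀ y, ε (C.a y) = ε y := by
    intro y
    have : C.SameArc y0 (C.a y) ↔ C.SameArc y0 y :=
      ⟨fun h => h.trans (C.sameArc_a y).symm, fun h => h.trans (C.sameArc_a y)⟩
    simp only [ε, this]
  have h3 : ∀ y, (C.p y).1 ∉ Mo.D → ∑ k ∈ Finset.range 12, ε ((C.r ^ k) y) = 0 := by
    intro y hy
    have hmod : ∀ k : ℕ, (C.r ^ (k % 12)) y = (C.r ^ k) y := by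
      intro k
      conv_rhs => rw [← Nat.mod_add_div k 12, pow_add, pow_mul, Equiv.Perm.mul_apply]
      have hfix : ∀ n : ℕ, ((C.r ^ 12) ^ n) y = y := by
        intro n
        induction n with
        | zero => simp
        | succ n ih => rw [pow_succ, Equiv.Perm.mul_apply, C.nd y hy, ih]
      rw [hfix]
    let g : ℕ → ℕ := fun k => (k + (Mo.mu (C.p y).1 ((C.p y).2 + k) - ((C.p y).2 + k)).val) % 12
    have hg : ∀ k, (C.r ^ (g k)) y = C.m ((C.r ^ k) y) := by
      intro k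
      change (C.r ^ ((k + (Mo.mu (C.p y).1 ((C.p y).2 + k) - ((C.p y).2 + k)).val) % 12)) y = _
      rw [hmod, Cov.m, C.p_pow, ← Equiv.Perm.mul_apply, ← pow_add, add_comm]
    have hcast : ∀ k, ((g k : ℕ) : ZMod 12) = Mo.mu (C.p y).1 ((C.p y).2 + k) - (C.p y).2 := by
      intro k
      change (((k + (Mo.mu (C.p y).1 ((C.p y).2 + k) - ((C.p y).2 + k)).val) % 12 : ℕ) : ZMod 12) = _
      rw [ZMod.natCast_mod, Nat.cast_add, ZMod.natCast_val, ZMod.cast_id', id]
      ring
    refine Finset.sum_involution (fun k _ => g k) ?_ ?_ ?_ ?_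
    · intro k hk
      have h4 : ε ((C.r ^ (g k)) y) = ε ((C.r ^ k) y) := by
        rw [hg]
        have h5 : (C.p ((C.r ^ k) y)).1 ∉ Mo.D := by rw [p_pow_fst]; exact hy
        have : C.SameArc y0 (C.m ((C.r ^ k) y)) ↔ C.SameArc y0 ((C.r ^ k) y) :=
          ⟨fun h => h.trans (C.sameArc_m _ h5).symm, fun h => h.trans (C.sameArc_m _ h5)⟩
        simp only [ε, this]
      rw [h4]
      exact CharTwo.add_self_eq_zero _
    · intro k hk _ heq
      have h6 := hcast k
      rw [heq] at h6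
      have h7 := (Mo.good (C.p y).1).far ((C.p y).2 + k)
      have h8 : Mo.mu (C.p y).1 ((C.p y).2 + k) = (C.p y).2 + k := by
        linear_combination -h6
      rw [h8] at h7
      revert h7
      generalize (C.p y).2 + (k : ZMod 12) = i
      revert i
      decide
    · intro k hk
      exact Finset.mem_range.2 (Nat.mod_lt _ (by norm_num))
    · intro k hk
      have hk' : k < 12 := Finset.mem_range.1 hk
      have h9 : ((g (g k) : ℕ) : ZMod 12) = (k : ZMod 12) := by
        rw [hcast, hcast]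
        have : (C.p y).2 + (Mo.mu (C.p y).1 ((C.p y).2 + k) - (C.p y).2) =
            Mo.mu (C.p y).1 ((C.p y).2 + k) := by ring
        rw [this, (Mo.good (C.p y).1).inv]
        ring
      have h10 := (ZMod.natCast_eq_natCast_iff' _ _ 12).1 h9
      rw [Nat.mod_eq_of_lt hk', Nat.mod_eq_of_lt (Nat.mod_lt _ (by norm_num))] at h10
      exact h10
  obtain ⟨B, hBa, hBb, hBr⟩ := hC.side_cocycle ε h1 h3
  refine ⟨{y | B y = 1}, fun y => ?_, fun y => ?_, fun y => ?_⟩
  · simp [hBa]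
  · simp [hBb]
  · change (B (C.r y) = 1 ↔ B y = 1) ↔ _
    rw [hBr]
    have h11 : ∀ x : ZMod 2, ¬ (x + 1 = 1 ↔ x = 1) := by decide
    by_cases h : C.SameArc y0 (C.r y)
    · simp only [ε, if_pos h]
      exact iff_of_false (h11 _) (not_not_intro h)
    · simp only [ε, if_neg h, add_zero]
      exact iff_of_true trivial h

end Cov

/-! ## The plane -/

/-- the plane (all chambers, all polygons filled) over the base chamber `q0` -/
noncomputable def Model.plane (Mo : Model) (q0 : Mo.Q) : Cov Mo where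
  Y := W × ZMod 12
  a z := (z.1 * rg G12 z.2, z.2)
  r := {
    toFun := fun z => (z.1, z.2 + 1)
    invFun := fun z => (z.1, z.2 - 1)
    left_inv := fun z => by simp
    right_inv := fun z => by simp }
  p z := (Mo.L.r q0 z.1, z.2)
  a_a z := by
    refine Prod.ext ?_ rfl
    change z.1 * rg G12 z.2 * rg G12 z.2 = z.1
    rw [mul_assoc, rg_mul_self, mul_one]
  ab z := by
    have h : G12.Adj z.2 (z.2 + 1) := Or.inl rfl
    simp only [Equiv.coe_fn_mk, Equiv.coe_fn_symm_mk, add_sub_cancel_right]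
    refine Prod.ext ?_ rfl
    change z.1 * rg G12 (z.2 + 1) * rg G12 z.2 = z.1 * rg G12 z.2 * rg G12 (z.2 + 1)
    rw [mul_assoc, mul_assoc, rg_comm h]
  p_a z := by
    refine Prod.ext ?_ rfl
    change Mo.L.r q0 (z.1 * rg G12 z.2) = Mo.L.τ z.2 (Mo.L.r q0 z.1)
    rw [LS.r_mul, LS.r_rg]
  p_r z := rfl
  nd z _ := by
    obtain ⟨w, i⟩ := z
    have h : ∀ n : ℕ, (({
        toFun := fun z => (z.1, z.2 + 1)
        invFun := fun z => (z.1, z.2 - 1)
        left_inv := fun z => by simp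
        right_inv := fun z => by simp } : Equiv.Perm (W × ZMod 12)) ^ n) (w, i) = (w, i + n) := by
      intro n
      induction n with
      | zero => simp
      | succ n ih =>
        rw [pow_succ', Equiv.Perm.mul_apply, ih]
        simp only [Equiv.coe_fn_mk, Nat.cast_succ, add_assoc]
    rw [h 12]
    have h2 : ((12 : ℕ) : ZMod 12) = 0 := by decide
    rw [h2, add_zero]

theorem plane_a (Mo : Model) (q0 : Mo.Q) (w : W) (i : ZMod 12) :
    (Mo.plane q0).a (w, i) = (w * rg G12 i, i) := rfl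

theorem plane_r (Mo : Model) (q0 : Mo.Q) (w : W) (i : ZMod 12) :
    (Mo.plane q0).r (w, i) = (w, i + 1) := rfl

theorem plane_p (Mo : Model) (q0 : Mo.Q) (w : W) (i : ZMod 12) :
    (Mo.plane q0).p (w, i) = (Mo.L.r q0 w, i) := rfl

theorem plane_rpow (Mo : Model) (q0 : Mo.Q) (n : ℕ) (w : W) (i : ZMod 12) :
    ((Mo.plane q0).r ^ n) (w, i) = (w, i + n) := by
  induction n with
  | zero => simp
  | succ n ih =>
    rw [pow_succ', Equiv.Perm.mul_apply, ih, plane_r, Nat.cast_succ, add_assoc]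

/-- all polygons are filled -/
def Cov.Full {Mo : Model} (C : Cov Mo) : Prop := ∀ y, (C.r ^ 12) y = y

theorem plane_full (Mo : Model) (q0 : Mo.Q) : (Mo.plane q0).Full := by
  intro y
  obtain ⟨w, i⟩ := y
  rw [plane_rpow]
  have h2 : ((12 : ℕ) : ZMod 12) = 0 := by decide
  rw [h2, add_zero]

theorem base_full (Mo : Model) : Mo.base.Full := by
  intro y
  have h := Mo.base_pow 12 y
  have h2 : ((12 : ℕ) : ZMod 12) = 0 := by decide
  rw [h2, add_zero] at h
  exact h

theorem plane_conn (Mo : Model) (q0 : Mo.Q) : (Mo.plane q0).Conn := by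
  have hrot : ∀ (w : W) (i j : ZMod 12), Relation.ReflTransGen (Mo.plane q0).Elem (w, i) (w, j) := by
    intro w i j
    have h : ∀ n : ℕ, Relation.ReflTransGen (Mo.plane q0).Elem (w, i) (w, i + n) := by
      intro n
      induction n with
      | zero => simpa using Relation.ReflTransGen.refl
      | succ n ih =>
        refine ih.tail (Or.inr (Or.inl ?_))
        rw [plane_r, Nat.cast_succ, add_assoc]
    have h2 := h (j - i).val
    rwa [ZMod.natCast_val, ZMod.cast_id', id, add_sub_cancel] at h2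
  have h0 : ∀ (u : W) (w : W) (i j : ZMod 12),
      Relation.ReflTransGen (Mo.plane q0).Elem (w, i) (w * u, j) := by
    intro u
    induction u using rac_induction with
    | h1 => intro w i j; rw [mul_one]; exact hrot w i j
    | h2 k u ih =>
      intro w i j
      rw [← mul_assoc]
      exact ((hrot w i k).tail (Or.inl (rfl : (w * rg G12 k, k) = (Mo.plane q0).a (w, k)))).trans
        (ih (w * rg G12 k) k j)
  intro y y'
  obtain ⟨w, i⟩ := y
  obtain ⟨w', j⟩ := y'
  have := h0 (w⁻¹ * w') w i j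
  rwa [mul_inv_cancel_left] at this

namespace Cov
variable {Mo : Model}

/-- rotation by an element of `ZMod 12` -/
def rot (C : Cov Mo) (k : ZMod 12) : Equiv.Perm C.Y := C.r ^ k.val

theorem Full.pow_mod {C : Cov Mo} (h : C.Full) (n : ℕ) : C.r ^ (n % 12) = C.r ^ n := by
  have h1 : C.r ^ 12 = 1 := Equiv.ext h
  conv_rhs => rw [← Nat.mod_add_div n 12, pow_add, pow_mul, h1, one_pow, mul_one]

theorem Full.rot_add {C : Cov Mo} (h : C.Full) (k l : ZMod 12) : C.rot (k + l) = C.rot k * C.rot l := by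
  rw [rot, rot, rot, ZMod.val_add, h.pow_mod, pow_add]

theorem rot_zero (C : Cov Mo) : C.rot 0 = 1 := by simp [rot]

theorem rot_one (C : Cov Mo) : C.rot 1 = C.r := by
  have : (1 : ZMod 12).val = 1 := by decide
  rw [rot, this, pow_one]

theorem p_rot (C : Cov Mo) (k : ZMod 12) (y : C.Y) : C.p (C.rot k y) = ((C.p y).1, (C.p y).2 + k) := by
  rw [rot, p_pow]; simp

theorem Full.rot_neg_one {C : Cov Mo} (h : C.Full) (y : C.Y) : C.rot (-1) y = C.r.symm y := by
  have h1 : C.rot (-1 + 1) = C.rot (-1) * C.rot 1 := h.rot_add _ _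
  rw [neg_add_cancel, rot_zero, rot_one] at h1
  have h2 : C.rot (-1) = C.r⁻¹ := (eq_inv_of_mul_eq_one_left h1.symm)
  rw [h2]; rfl

/-- cross the side `j` of the chamber of `y`, keeping the index of the flag -/
def xs (C : Cov Mo) (j : ZMod 12) (y : C.Y) : C.Y :=
  C.rot ((C.p y).2 - j) (C.a (C.rot (j - (C.p y).2) y))

theorem xs_snd (C : Cov Mo) (j : ZMod 12) (y : C.Y) : (C.p (C.xs j y)).2 = (C.p y).2 := by
  rw [xs, p_rot, p_a_snd, p_rot]; simp

theorem Full.xs_xs {C : Cov Mo} (h : C.Full) (j : ZMod 12) (y : C.Y) : C.xs j (C.xs j y) = y := by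
  have h1 := C.xs_snd j y
  conv_lhs => rw [xs, h1]
  rw [xs, ← Equiv.Perm.mul_apply (C.rot (j - (C.p y).2)), ← h.rot_add]
  have e : (j - (C.p y).2) + ((C.p y).2 - j) = 0 := by ring
  rw [e, rot_zero, Equiv.Perm.one_apply, C.a_a, ← Equiv.Perm.mul_apply, ← h.rot_add]
  have e2 : ((C.p y).2 - j) + (j - (C.p y).2) = 0 := by ring
  rw [e2, rot_zero, Equiv.Perm.one_apply]

theorem Full.xs_comm_aux {C : Cov Mo} (h : C.Full) (j : ZMod 12) (y : C.Y) :
    C.xs j (C.xs (j + 1) y) = C.xs (j + 1) (C.xs j y) := by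
  have k1 := C.xs_snd (j + 1) y
  have k2 := C.xs_snd j y
  set i := (C.p y).2 with hi
  have key : C.xs (j + 1) y = C.rot (i - j) (C.b (C.rot (j - i) y)) := by
    rw [xs, ← hi]
    have e1 : i - (j + 1) = (i - j) + -1 := by ring
    have e2 : j + 1 - i = 1 + (j - i) := by ring
    rw [e1, e2, h.rot_add (i - j), h.rot_add 1, Equiv.Perm.mul_apply, Equiv.Perm.mul_apply,
      h.rot_neg_one, rot_one]
    rfl
  have key2 : ∀ z : C.Y, (C.p z).2 = i → C.xs (j + 1) z = C.rot (i - j) (C.b (C.rot (j - i) z)) := by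
    intro z hz
    rw [xs, hz]
    have e1 : i - (j + 1) = (i - j) + -1 := by ring
    have e2 : j + 1 - i = 1 + (j - i) := by ring
    rw [e1, e2, h.rot_add (i - j), h.rot_add 1, Equiv.Perm.mul_apply, Equiv.Perm.mul_apply,
      h.rot_neg_one, rot_one]
    rfl
  have cancel : ∀ z : C.Y, C.rot (j - i) (C.rot (i - j) z) = z := by
    intro z
    rw [← Equiv.Perm.mul_apply, ← h.rot_add]
    have e : (j - i) + (i - j) = 0 := by ring
    rw [e, rot_zero, Equiv.Perm.one_apply]
  rw [key2 (C.xs j y) (by rw [k2])]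
  conv_lhs => rw [xs, k1, key]
  rw [cancel, xs, ← hi, cancel, C.a_b]

/-- the right action of `W` on a full covering (the index of the flag is kept) -/
def Full.ls {C : Cov Mo} (h : C.Full) : LS G12 C.Y where
  τ j y := C.xs j y
  inv j y := h.xs_xs j y
  com j k hjk y := by
    rcases hjk with rfl | rfl
    · exact h.xs_comm_aux j y
    · exact (h.xs_comm_aux k y).symm

theorem Full.ls_snd {C : Cov Mo} (h : C.Full) (w : W) (y : C.Y) : (C.p (h.ls.r y w)).2 = (C.p y).2 := by
  induction w using rac_induction_right with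
  | h1 => rw [LS.r_one]
  | h2 k w ih =>
    rw [LS.r_mul, LS.r_rg]
    exact (C.xs_snd k _).trans ih

end Cov

/-- the plane is universal for the coverings in which all polygons are filled -/
theorem plane_map (Mo : Model) (q0 : Mo.Q) (C' : Cov Mo) (hC : C'.Full) (z : (Mo.plane q0).Y) (y' : C'.Y)
    (hz : (Mo.plane q0).p z = C'.p y') : ∃ φ : (Mo.plane q0).Y → C'.Y, φ z = y' ∧
      (∀ x, φ ((Mo.plane q0).a x) = C'.a (φ x)) ∧ (∀ x, φ ((Mo.plane q0).r x) = C'.r (φ x)) ∧
      ∀ x, C'.p (φ x) = (Mo.plane q0).p x := by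
  obtain ⟨w0, i0⟩ := z
  have hi0 : (C'.p y').2 = i0 := by rw [← hz]; rfl
  let φ : W × ZMod 12 → C'.Y := fun x => C'.rot (x.2 - i0) (hC.ls.r y' (w0⁻¹ * x.1))
  have hφa : ∀ x : W × ZMod 12, φ ((Mo.plane q0).a x) = C'.a (φ x) := by
    intro x
    obtain ⟨w, i⟩ := x
    rw [plane_a]
    change C'.rot (i - i0) (hC.ls.r y' (w0⁻¹ * (w * rg G12 i))) = C'.a (C'.rot (i - i0) (hC.ls.r y' (w0⁻¹ * w)))
    rw [← mul_assoc, LS.r_mul, LS.r_rg]
    have h1 : (C'.p (hC.ls.r y' (w0⁻¹ * w))).2 = i0 := by rw [hC.ls_snd, hi0]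
    set u := hC.ls.r y' (w0⁻¹ * w)
    change C'.rot (i - i0) (C'.xs i u) = _
    rw [Cov.xs, h1, ← Equiv.Perm.mul_apply, ← hC.rot_add]
    have e : (i - i0) + (i0 - i) = 0 := by ring
    rw [e, Cov.rot_zero, Equiv.Perm.one_apply]
  have hφr : ∀ x : W × ZMod 12, φ ((Mo.plane q0).r x) = C'.r (φ x) := by
    intro x
    obtain ⟨w, i⟩ := x
    rw [plane_r]
    change C'.rot (i + 1 - i0) (hC.ls.r y' (w0⁻¹ * w)) = C'.r (C'.rot (i - i0) (hC.ls.r y' (w0⁻¹ * w)))
    have e : i + 1 - i0 = 1 + (i - i0) := by ring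
    rw [e, hC.rot_add, Equiv.Perm.mul_apply, Cov.rot_one]
  have hφz : φ (w0, i0) = y' := by
    change C'.rot (i0 - i0) (hC.ls.r y' (w0⁻¹ * w0)) = y'
    rw [sub_self, Cov.rot_zero, inv_mul_cancel, LS.r_one, Equiv.Perm.one_apply]
  refine ⟨φ, hφz, hφa, hφr, ?_⟩
  have hh := Cov.Conn.map_ext (plane_conn Mo q0) (C' := Mo.base) (φ := fun x => C'.p (φ x))
    (ψ := (Mo.plane q0).p) (fun x => by rw [hφa, C'.p_a]; rfl) (fun x => by rw [hφr, C'.p_r]; rfl)
    (fun x => (Mo.plane q0).p_a x) (fun x => (Mo.plane q0).p_r x) (y := (w0, i0)) (by rw [hφz, hz])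
  exact fun x => congrFun hh x

theorem plane_sc (Mo : Model) (q0 : Mo.Q) : (Mo.plane q0).SC (fun _ => True) := by
  intro A _ α β h1 h2 h3 h4
  have hfull : ((Mo.plane q0).twist α β h1 h2 h3).Full := by
    intro z
    have h5 := Cov.twr_pow (Mo.plane q0) β 12 z
    rw [plane_full Mo q0, h4 z.1 trivial, one_mul] at h5
    exact h5
  obtain ⟨φ, hφ, ha, hr, -⟩ := plane_map Mo q0 ((Mo.plane q0).twist α β h1 h2 h3) hfull (1, 0) ((1, 0), 1) rfl
  exact Cov.coboundary_of_map (plane_conn Mo q0) α β h1 h2 h3 (1, 0) φ hφ ha hr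

/-- the developing map -/
theorem Cov.Univ.dev {Mo : Model} {C : Cov Mo} (hC : C.Univ) (y0 : C.Y) :
    ∃ φ : C.Y → W × ZMod 12, φ y0 = (1, (C.p y0).2) ∧
      (∀ z, φ (C.a z) = ((φ z).1 * rg G12 (φ z).2, (φ z).2)) ∧ (∀ z, φ (C.r z) = ((φ z).1, (φ z).2 + 1)) ∧
      (∀ z, Mo.L.r (C.p y0).1 (φ z).1 = (C.p z).1) ∧ ∀ z, (φ z).2 = (C.p z).2 := by
  obtain ⟨φ, h0, h1, h2, h3⟩ := hC.map (Mo.plane (C.p y0).1) y0 (1, (C.p y0).2) (by
    rw [plane_p, LS.r_one])
  refine ⟨φ, h0, h1, h2, fun z => ?_, fun z => ?_⟩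
  · exact congrArg Prod.fst (h3 z)
  · exact congrArg Prod.snd (h3 z)

theorem uce : Stmt_UCE := by
  intro Mo
  obtain ⟨q⟩ := Mo.nonempty
  exact ⟨UC.cov Mo (q, 0), UC.cov_univ Mo (q, 0)⟩

end Pool.CX
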