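import Pool.Agent.Work.MP_727c87_cx.LemmaP
import Pool.Agent.Work.MP_727c87_cx.CovTheory

set_option autoImplicit false

/-! # MP_727c87_gt, part P: LEMMA P for flags (helper33)

The plane = `W × ZMod 12` with a matching `M w` of the sides of every chamber `w`; `PF.Dle M K` is the coarse
distance (arcs pass through all chambers).  A development `Dev C M` of a covering `C` into the plane does not
increase the coarse distance. -/

namespace Pool.W1P

open Pool.CS

section
variable {Λ : Type} {G : SimpleGraph Λ}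

/-- the last letter of `p :: u` -/
def lst (p : Λ) (u : List Λ) : Λ := (p :: u).getLast (List.cons_ne_nil _ _)

theorem lst_nil (p : Λ) : lst p [] = p := rfl

theorem lst_cons (p a : Λ) (u : List Λ) : lst p (a :: u) = lst a u := rfl

theorem lst_concat (p a : Λ) (u : List Λ) : lst p (u ++ [a]) = a := by
  induction u generalizing p with
  | nil => rfl
  | cons b u ih => exact ih b

theorem line_concat_iff {mu : RC G → Λ → Λ} {y : RC G} {p t : Λ} {u : List Λ} :
    Line mu y p (u ++ [t]) ↔ Line mu y p u ∧ t = mu (y * wp G u) (lst p u) := by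
  induction u generalizing y p with
  | nil =>
    rw [List.nil_append, wp_nil, mul_one, lst_nil]
    exact ⟨fun h => ⟨trivial, h.1⟩, fun h => ⟨h.2, trivial⟩⟩
  | cons a u ih =>
    rw [List.cons_append, lst_cons, wp_cons, ← mul_assoc]
    constructor
    · rintro ⟨h1, h2⟩
      exact ⟨⟨h1, (ih.mp h2).1⟩, (ih.mp h2).2⟩
    · rintro ⟨⟨h1, h2⟩, h3⟩
      exact ⟨h1, ih.mpr ⟨h2, h3⟩⟩

/-- the alternating word `s t s ...` of length `n` -/
def alt (s t : Λ) : ℕ → List Λ
  | 0 => []
  | n + 1 => s :: alt t s n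

theorem length_alt (s t : Λ) (n : ℕ) : (alt s t n).length = n := by
  induction n generalizing s t with
  | zero => rfl
  | succ n ih => rw [alt, List.length_cons, ih]

theorem mem_alt {s t a : Λ} {n : ℕ} (h : a ∈ alt s t n) : a = s ∨ a = t := by
  induction n generalizing s t with
  | zero => simp [alt] at h
  | succ n ih =>
    rw [alt, List.mem_cons] at h
    rcases h with h | h
    · exact Or.inl h
    · exact (ih h).symm

theorem alt_succ (s t : Λ) (n : ℕ) : alt s t (n + 1) = alt s t n ++ [if n % 2 = 0 then s else t] := by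
  induction n generalizing s t with
  | zero => rfl
  | succ n ih =>
    rw [alt, ih t s, alt, List.cons_append]
    rcases Nat.mod_two_eq_zero_or_one n with h | h
    · have h' : (n + 1) % 2 = 1 := by omega
      rw [if_pos h, if_neg (by omega)]
    · have h' : (n + 1) % 2 = 0 := by omega
      rw [if_neg (by omega), if_pos h']

theorem rig_alt {s t : Λ} (h : s ≠ t) (h' : ¬ G.Adj s t) (n : ℕ) : Rig G (alt s t n) := by
  induction n generalizing s t with
  | zero => exact List.isChain_nil
  | succ n ih =>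
    cases n with
    | zero => exact List.isChain_singleton s
    | succ n => exact List.isChain_cons_cons.mpr ⟨⟨h, h'⟩, ih h.symm fun e => h' e.symm⟩

theorem reverse_alt (s t : Λ) (n : ℕ) :
    (alt s t n).reverse = if n % 2 = 0 then alt t s n else alt s t n := by
  induction n generalizing s t with
  | zero => rfl
  | succ n ih =>
    rw [alt, List.reverse_cons, ih]
    rcases Nat.mod_two_eq_zero_or_one n with h | h
    · rw [if_pos h, if_neg (by omega)]
      exact ((alt_succ s t n).trans (by rw [if_pos h])).symm.trans rfl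
    · rw [if_neg (by omega), if_pos (by omega), alt_succ, if_neg (by omega)]

theorem alt_append (s t : Λ) (m n : ℕ) :
    (alt s t m).reverse ++ alt t s n = if m % 2 = 0 then alt t s (m + n) else alt s t (m + n) := by
  induction n with
  | zero =>
    rw [alt, List.append_nil, reverse_alt, Nat.add_zero]
  | succ n ih =>
    rw [alt_succ t s n, ← List.append_assoc, ih, ← Nat.add_assoc]
    by_cases h : m % 2 = 0
    · rw [if_pos h, if_pos h, alt_succ t s (m + n)]
      have : (m + n) % 2 = n % 2 := by omega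
      rw [this]
    · rw [if_neg h, if_neg h, alt_succ s t (m + n)]
      by_cases h2 : n % 2 = 0
      · have h3 : ¬ (m + n) % 2 = 0 := by omega
        rw [if_pos h2, if_neg h3]
      · have h3 : (m + n) % 2 = 0 := by omega
        rw [if_neg h2, if_pos h3]

/-- (P3) alternating words in two close letters force a large distance -/
theorem alt_le {mu : RC G → Λ → Λ} (hmu : ∀ x j, FarG G j (mu x j)) (x : RC G) (K : ℕ) {s t : Λ}
    (h : s ≠ t) (h1 : ¬ G.Adj s t) (h2 : ¬ FarG G s t) (n : ℕ)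
    (hr : Runs mu x K (x * wp G (alt s t n))) : n ≤ 3 * K + 1 := by
  have h3 : (alt s t n).IsChain fun a b => ¬ FarG G a b := by
    have key : ∀ (s t : Λ), ¬ FarG G s t → ∀ n, (alt s t n).IsChain fun a b => ¬ FarG G a b := by
      intro s t h2 n
      induction n generalizing s t with
      | zero => exact List.isChain_nil
      | succ n ih =>
        cases n with
        | zero => exact List.isChain_singleton s
        | succ n => exact List.isChain_cons_cons.mpr ⟨h2, ih t s fun e => h2 e.symm⟩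
    exact key s t h2 n
  have := length_le hmu x K (alt s t n) (rig_alt h h1 n).red h3 hr
  rwa [length_alt] at this

/-- the two ends of a piece of a wall -/
theorem alt_alt_le {mu : RC G → Λ → Λ} (hmu : ∀ x j, FarG G j (mu x j)) (x : RC G) (K : ℕ)
    {s t : Λ} (h : s ≠ t) (h1 : ¬ G.Adj s t) (h2 : ¬ FarG G s t) (m n : ℕ)
    (hr : Runs mu (x * wp G (alt s t m)) K (x * wp G (alt t s n))) : m + n ≤ 3 * K + 1 := by
  have e : x * wp G (alt t s n) =
      x * wp G (alt s t m) * wp G ((alt s t m).reverse ++ alt t s n) := by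
    rw [wp_append, wp_reverse, ← mul_assoc, mul_inv_cancel_right]
  rw [e, alt_append] at hr
  split_ifs at hr
  · exact alt_le hmu _ K h.symm (fun e => h1 e.symm) (fun e => h2 e.symm) _ hr
  · exact alt_le hmu _ K h h1 h2 _ hr

end

end Pool.W1P

namespace Pool.CX

open Pool.CS Pool.W1P

theorem far_farG {i j : ZMod 12} (h : Far i j) : FarG G12 i j := by
  have key : ∀ i j : ZMod 12, Far i j → ∀ a, ¬ ((a = i ∨ G12.Adj a i) ∧ (a = j ∨ G12.Adj a j)) := by
    decide +kernel
  exact key i j h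

theorem Good.farG {M : ZMod 12 → ZMod 12} (h : Good M) (i : ZMod 12) : FarG G12 i (M i) :=
  far_farG (h.far i)

/-- the flags of the plane -/
abbrev PF : Type := W × ZMod 12

namespace PF

/-- cross the side of the flag -/
noncomputable def a (y : PF) : PF := (y.1 * rg G12 y.2, y.2)

/-- the other end of the chord which starts at the side of the flag -/
def m (M : W → ZMod 12 → ZMod 12) (y : PF) : PF := (y.1, M y.1 y.2)

theorem a_a (y : PF) : a (a y) = y := by
  obtain ⟨w, i⟩ := y
  simp only [a, mul_assoc, rg_mul_self, mul_one]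

/-- the sides of the two flags are crossed by the same arc of the plane -/
def Arc (M : W → ZMod 12 → ZMod 12) : PF → PF → Prop :=
  Relation.EqvGen (fun y y' => y' = a y ∨ y' = m M y)

/-- steps of the coarse metric of the plane -/
def Step (M : W → ZMod 12 → ZMod 12) (y y' : PF) : Prop :=
  y = y' ∨ y' = (y.1, y.2 + 1) ∨ y = (y'.1, y'.2 + 1) ∨ Arc M y y'

/-- coarse distance of the plane -/
def Dle (M : W → ZMod 12 → ZMod 12) : ℕ → PF → PF → Prop
  | 0, y, y' => y = y'
  | k + 1, y, y' => ∃ z, Dle M k y z ∧ Step M z y'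

theorem arc_line {M : W → ZMod 12 → ZMod 12} (hM : ∀ w i, M w (M w i) = i) (w : W) (i : ZMod 12)
    (z : PF) (h : Arc M (w, i) z) : ∃ (p : ZMod 12) (u : List (ZMod 12)), (p = i ∨ p = M w i) ∧
      Line M w p u ∧ z.1 = w * wp G12 u ∧ (z.2 = lst p u ∨ z.2 = M z.1 (lst p u)) := by
  let P : PF → Prop := fun z => ∃ (p : ZMod 12) (u : List (ZMod 12)), (p = i ∨ p = M w i) ∧
      Line M w p u ∧ z.1 = w * wp G12 u ∧ (z.2 = lst p u ∨ z.2 = M z.1 (lst p u))
  have hm : ∀ y, P y → P (m M y) := by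
    rintro ⟨v, j⟩ ⟨p, u, h1, h2, h3, h4⟩
    refine ⟨p, u, h1, h2, h3, ?_⟩
    rcases h4 with h4 | h4
    · exact Or.inr (by simp only [m] at h4 ⊢; rw [h4])
    · exact Or.inl (by simp only [m] at h4 ⊢; rw [h4, hM])
  have ha : ∀ y, P y → P (a y) := by
    rintro ⟨v, j⟩ ⟨p, u, h1, h2, h3, h4⟩
    simp only at h3 h4
    rcases h4 with h4 | h4
    · rcases List.eq_nil_or_concat u with rfl | ⟨u', t, rfl⟩
      · rw [lst_nil] at h4
        rw [wp_nil, mul_one] at h3
        subst h4 h3
        refine ⟨M v j, [j], ?_, ?_, ?_, ?_⟩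
        · rcases h1 with h1 | h1
          · exact Or.inr (by rw [h1])
          · exact Or.inl (by rw [h1, hM])
        · exact ⟨(hM v j).symm, trivial⟩
        · simp only [a, wp_cons, wp_nil, mul_one]
        · exact Or.inl rfl
      · rw [List.concat_eq_append] at *
        rw [lst_concat] at h4
        rw [wp_append, wp_cons, wp_nil, mul_one, ← mul_assoc] at h3
        rw [line_concat_iff] at h2
        refine ⟨p, u', h1, h2.1, ?_, ?_⟩
        · simp only [a]
          rw [h3, h4, mul_assoc, rg_mul_self, mul_one]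
        · refine Or.inr ?_
          simp only [a]
          rw [h3, h4, mul_assoc (w * wp G12 u'), rg_mul_self, mul_one]
          exact h2.2
    · refine ⟨p, u ++ [j], h1, ?_, ?_, ?_⟩
      · rw [line_concat_iff]
        exact ⟨h2, by rw [h4, h3]⟩
      · simp only [a]
        rw [wp_append, wp_cons, wp_nil, mul_one, h3, mul_assoc]
      · refine Or.inl ?_
        rw [lst_concat]; rfl
  have key : ∀ y z, Arc M y z → (P y ↔ P z) := by
    intro y z h
    induction h with
    | rel y z h =>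
      rcases h with rfl | rfl
      · exact ⟨ha y, fun h => by have := ha _ h; rwa [a_a] at this⟩
      · refine ⟨hm y, fun h => ?_⟩
        have := hm _ h
        simp only [m, hM] at this
        exact this
    | refl => exact Iff.rfl
    | symm _ _ _ ih => exact ih.symm
    | trans _ _ _ _ _ ih ih' => exact ih.trans ih'
  exact (key _ _ h).mp ⟨i, [], Or.inl rfl, trivial, by rw [wp_nil, mul_one], Or.inl rfl⟩

/-- an arc is a line run -/
theorem Arc.run {M : W → ZMod 12 → ZMod 12} (hM : ∀ w i, M w (M w i) = i) {y z : PF}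
    (h : Arc M y z) : ∃ u, LineRun M y.1 u ∧ z.1 = y.1 * wp G12 u := by
  obtain ⟨p, u, -, h2, h3, -⟩ := arc_line hM y.1 y.2 z h
  exact ⟨u, h2.lineRun, h3⟩

/-- a path of length `K` in the coarse metric gives `K` line runs -/
theorem Dle.runs {M : W → ZMod 12 → ZMod 12} (hM : ∀ w i, M w (M w i) = i) {K : ℕ} {y z : PF}
    (h : Dle M K y z) : Runs M y.1 K z.1 := by
  induction K generalizing z with
  | zero =>
    have h' : y = z := h
    rw [← h']
    exact Runs.base
  | succ K ih =>
    obtain ⟨x, h1, h2⟩ := h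
    have h3 := ih h1
    rcases h2 with h2 | h2 | h2 | h2
    · rw [← h2]; exact h3.succ
    · rw [h2]; exact h3.succ
    · rw [h2] at h3; exact h3.succ
    · obtain ⟨u, h4, h5⟩ := h2.run hM
      rw [h5]
      exact Runs.cons K x.1 u h3 h4

end PF

/-- a development of the covering `C` into the plane with the matching `M` -/
structure Dev {Mo : Model} (C : Cov Mo) (M : W → ZMod 12 → ZMod 12) where
  f : C.Y → PF
  f_a : ∀ y, f (C.a y) = ((f y).1 * rg G12 (f y).2, (f y).2)
  f_r : ∀ y, f (C.r y) = ((f y).1, (f y).2 + 1)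
  f_mu : ∀ y, (C.p y).1 ∉ Mo.D → M (f y).1 (f y).2 = Mo.mu (C.p y).1 (C.p y).2
  f_snd : ∀ y, (f y).2 = (C.p y).2

namespace Dev
variable {Mo : Model} {C : Cov Mo} {M : W → ZMod 12 → ZMod 12} (dv : Dev C M)

theorem f_rs (y : C.Y) : dv.f (C.r.symm y) = ((dv.f y).1, (dv.f y).2 - 1) := by
  have h := dv.f_r (C.r.symm y)
  rw [Equiv.apply_symm_apply] at h
  rw [h]
  simp

theorem f_rpow (n : ℕ) (y : C.Y) : dv.f ((C.r ^ n) y) = ((dv.f y).1, (dv.f y).2 + n) := by
  induction n with
  | zero => simp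
  | succ n ih =>
    rw [pow_succ', Equiv.Perm.mul_apply, dv.f_r, ih, Nat.cast_succ, add_assoc]

theorem f_b (y : C.Y) : dv.f (C.b y) = ((dv.f y).1 * rg G12 ((dv.f y).2 + 1), (dv.f y).2) := by
  rw [Cov.b, f_rs, dv.f_a, dv.f_r]
  simp

theorem f_m (y : C.Y) (hy : (C.p y).1 ∉ Mo.D) : dv.f (C.m y) = PF.m M (dv.f y) := by
  rw [Cov.m, f_rpow, PF.m, dv.f_mu y hy, ZMod.natCast_zmod_val, dv.f_snd]
  simp

theorem arc {y y' : C.Y} (h : C.SameArc y y') : PF.Arc M (dv.f y) (dv.f y') := by
  induction h with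
  | rel y z h =>
    rcases h with rfl | ⟨h1, rfl⟩
    · exact Relation.EqvGen.rel _ _ (Or.inl (dv.f_a y))
    · exact Relation.EqvGen.rel _ _ (Or.inr (dv.f_m y h1))
  | refl y => exact Relation.EqvGen.refl _
  | symm _ _ _ ih => exact Relation.EqvGen.symm _ _ ih
  | trans _ _ _ _ _ ih ih' => exact Relation.EqvGen.trans _ _ _ ih ih'

theorem step {y y' : C.Y} (h : C.Step y y') : PF.Step M (dv.f y) (dv.f y') := by
  rcases h with rfl | rfl | rfl | h
  · exact Or.inl rfl
  · exact Or.inr (Or.inl (dv.f_r y))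
  · exact Or.inr (Or.inr (Or.inl (dv.f_r y')))
  · exact Or.inr (Or.inr (Or.inr (dv.arc h)))

theorem dle {K : ℕ} {y y' : C.Y} (h : C.Dle K y y') : PF.Dle M K (dv.f y) (dv.f y') := by
  induction K generalizing y' with
  | zero =>
    have h' : y = y' := h
    rw [h']
    exact (rfl : dv.f y' = dv.f y')
  | succ K ih =>
    obtain ⟨z, h1, h2⟩ := h
    exact ⟨dv.f z, ih h1, dv.step h2⟩

/-- coarse distance `K` in a covering: at most `K` line runs in the plane -/
theorem runs (hM : ∀ w i, M w (M w i) = i) {K : ℕ} {y y' : C.Y} (h : C.Dle K y y') :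
    Runs M (dv.f y).1 K (dv.f y').1 := (dv.dle h).runs hM

end Dev

/-- a covering with a map to the plane over `q · w` (`q` a chamber of the model) -/
def Dev.ofp {Mo : Model} {C : Cov Mo} (q : Mo.Q) (f : C.Y → PF)
    (f_a : ∀ y, f (C.a y) = ((f y).1 * rg G12 (f y).2, (f y).2))
    (f_r : ∀ y, f (C.r y) = ((f y).1, (f y).2 + 1))
    (f_p : ∀ y, C.p y = (Mo.L.r q (f y).1, (f y).2)) :
    Dev C (fun w => Mo.mu (Mo.L.r q w)) where
  f := f
  f_a := f_a
  f_r := f_r
  f_mu y _ := by rw [f_p y]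
  f_snd y := by rw [f_p y]

theorem Model.mu_inv (Mo : Model) (q : Mo.Q) (w : W) (i : ZMod 12) :
    Mo.mu (Mo.L.r q w) (Mo.mu (Mo.L.r q w) i) = i := (Mo.good _).inv i

theorem Model.mu_farG (Mo : Model) (q : Mo.Q) (w : W) (i : ZMod 12) :
    FarG G12 i (Mo.mu (Mo.L.r q w) i) := (Mo.good _).farG i

namespace Cov
variable {Mo : Model} (C : Cov Mo)

/-- cross the other side at the other end of the side: `(q, i)` goes to `(s_{i-1} q, i)` -/
def c (y : C.Y) : C.Y := C.r (C.a (C.r.symm y))

theorem c_c (y : C.Y) : C.c (C.c y) = y := by simp [c, C.a_a]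

/-- the flags along the wall of the side of `y`, on the side of `y`, in the direction of the corner of `y` -/
def wallR (y : C.Y) : ℕ → C.Y
  | 0 => y
  | n + 1 => if n % 2 = 0 then C.b (wallR y n) else C.c (wallR y n)

/-- the flags along the wall of the side of `y`, on the side of `y`, in the other direction -/
def wallL (y : C.Y) : ℕ → C.Y
  | 0 => y
  | n + 1 => if n % 2 = 0 then C.c (wallL y n) else C.b (wallL y n)

end Cov

namespace Dev
variable {Mo : Model} {C : Cov Mo} {M : W → ZMod 12 → ZMod 12} (dv : Dev C M)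

theorem f_c (y : C.Y) : dv.f (C.c y) = ((dv.f y).1 * rg G12 ((dv.f y).2 - 1), (dv.f y).2) := by
  rw [Cov.c, dv.f_r, dv.f_a, f_rs]
  simp

theorem f_wallR (y : C.Y) (n : ℕ) : dv.f (C.wallR y n) =
    ((dv.f y).1 * wp G12 (alt ((dv.f y).2 + 1) ((dv.f y).2 - 1) n), (dv.f y).2) := by
  induction n with
  | zero => rw [Cov.wallR, alt, wp_nil, mul_one]
  | succ n ih =>
    rw [Cov.wallR, alt_succ, wp_append, ← mul_assoc]
    split_ifs with h
    · rw [f_b, ih, wp_cons, wp_nil, mul_one]
    · rw [f_c, ih, wp_cons, wp_nil, mul_one]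

theorem f_wallL (y : C.Y) (n : ℕ) : dv.f (C.wallL y n) =
    ((dv.f y).1 * wp G12 (alt ((dv.f y).2 - 1) ((dv.f y).2 + 1) n), (dv.f y).2) := by
  induction n with
  | zero => rw [Cov.wallL, alt, wp_nil, mul_one]
  | succ n ih =>
    rw [Cov.wallL, alt_succ, wp_append, ← mul_assoc]
    split_ifs with h
    · rw [f_c, ih, wp_cons, wp_nil, mul_one]
    · rw [f_b, ih, wp_cons, wp_nil, mul_one]

theorem pm_ne (i : ZMod 12) : i - 1 ≠ i + 1 := by revert i; decide

theorem pm_not_adj (i : ZMod 12) : ¬ G12.Adj (i - 1) (i + 1) := by revert i; decide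

theorem pm_not_far (i : ZMod 12) : ¬ FarG G12 (i - 1) (i + 1) := by
  intro h
  refine h i ⟨Or.inr (Or.inr ?_), Or.inr (Or.inl rfl)⟩
  rw [sub_add_cancel]

/-- **COR**: flags of a covering on one wall, in the two directions from `y`, at coarse distance at most `K` -/
theorem wall_le (dv : Dev C M) (hM : ∀ w i, M w (M w i) = i) (hF : ∀ w i, FarG G12 i (M w i)) {K m n : ℕ}
    {y : C.Y} (h : C.Dle K (C.wallL y m) (C.wallR y n)) : m + n ≤ 3 * K + 1 := by
  have h1 := dv.runs hM h
  rw [f_wallL, f_wallR] at h1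
  exact alt_alt_le hF _ K (pm_ne _) (pm_not_adj _) (pm_not_far _) m n h1

theorem wallR_le (dv : Dev C M) (hM : ∀ w i, M w (M w i) = i) (hF : ∀ w i, FarG G12 i (M w i)) {K n : ℕ}
    {y : C.Y} (h : C.Dle K y (C.wallR y n)) : n ≤ 3 * K + 1 := by
  have := dv.wall_le hM hF (m := 0) (n := n) h
  omega

end Dev

/-! ## walls as orbits of a translation -/

namespace Cov
variable {Mo : Model} (C : Cov Mo)

/-- the translation along the wall of the side of the flag (by two sides) -/
def t : Equiv.Perm C.Y where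
  toFun y := C.c (C.b y)
  invFun y := C.b (C.c y)
  left_inv y := by
    change C.b (C.c (C.c (C.b y))) = y
    rw [C.c_c, C.b_b]
  right_inv y := by
    change C.c (C.b (C.b (C.c y))) = y
    rw [C.b_b, C.c_c]

theorem t_apply (y : C.Y) : C.t y = C.c (C.b y) := rfl

theorem t_symm_apply (y : C.Y) : C.t.symm y = C.b (C.c y) := rfl

theorem wallR_add (y : C.Y) (n : ℕ) : C.wallR y (2 * n) = (C.t ^ n) y := by
  induction n with
  | zero => rfl
  | succ n ih =>
    have h1 : ¬ (2 * n + 1) % 2 = 0 := by omega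
    have h2 : (2 * n) % 2 = 0 := by omega
    rw [Nat.mul_succ, wallR, wallR, if_neg h1, if_pos h2, ih, pow_succ', Equiv.Perm.mul_apply]
    rfl

theorem wallL_add (y : C.Y) (n : ℕ) : C.wallL y (2 * n) = (C.t⁻¹ ^ n) y := by
  induction n with
  | zero => rfl
  | succ n ih =>
    have h1 : ¬ (2 * n + 1) % 2 = 0 := by omega
    have h2 : (2 * n) % 2 = 0 := by omega
    rw [Nat.mul_succ, wallL, wallL, if_neg h1, if_pos h2, ih, pow_succ', Equiv.Perm.mul_apply]
    rfl

end Cov

namespace Dev
variable {Mo : Model} {C : Cov Mo} {M : W → ZMod 12 → ZMod 12}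

/-- **(E3)** flags on one wall: the coarse distance bounds the distance along the wall -/
theorem t_le (dv : Dev C M) (hM : ∀ w i, M w (M w i) = i) (hF : ∀ w i, FarG G12 i (M w i)) {K : ℕ}
    {m n : ℤ} {y : C.Y} (h : C.Dle K ((C.t ^ m) y) ((C.t ^ n) y)) : 2 * |n - m| ≤ 3 * K + 1 := by
  have e : (C.t ^ n) y = (C.t ^ (n - m)) ((C.t ^ m) y) := by
    rw [← Equiv.Perm.mul_apply, ← zpow_add, sub_add_cancel]
  rw [e] at h
  rcases Int.eq_nat_or_neg (n - m) with ⟨k, hk | hk⟩
  · rw [hk, zpow_natCast, ← C.wallR_add] at h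
    have h1 := dv.wallR_le hM hF h
    rw [hk, Nat.abs_cast]
    omega
  · rw [hk, zpow_neg, zpow_natCast, ← inv_pow, ← C.wallL_add] at h
    have h2 := dv.dle h
    have h3 := h2.runs hM
    rw [f_wallL] at h3
    have h1 := alt_le hF _ K (pm_ne _) (pm_not_adj _) (pm_not_far _) _ h3
    rw [hk, abs_neg, Nat.abs_cast]
    omega

/-- **(E2)** walls are lines -/
theorem t_inj (dv : Dev C M) (hM : ∀ w i, M w (M w i) = i) (hF : ∀ w i, FarG G12 i (M w i)) (y : C.Y) :
    Function.Injective (fun n : ℤ => (C.t ^ n) y) := by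
  intro m n h
  have h1 := dv.t_le hM hF (K := 0) (m := m) (n := n) (y := y) h
  have h2 : |n - m| = 0 := by
    have := abs_nonneg (n - m)
    omega
  rw [abs_eq_zero] at h2
  omega

end Dev

/-- the matching of the plane -/
noncomputable def Model.pmu (Mo : Model) (q0 : Mo.Q) (w : W) (i : ZMod 12) : ZMod 12 := Mo.mu (Mo.L.r q0 w) i

/-- the plane develops to itself -/
noncomputable def Model.planeDev (Mo : Model) (q0 : Mo.Q) : Dev (Mo.plane q0) (Mo.pmu q0) :=
  Dev.ofp q0 (fun y => y) (fun _ => rfl) (fun _ => rfl) (fun _ => rfl)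

theorem Cov.Univ.exists_dev {Mo : Model} {C : Cov Mo} (hC : C.Univ) (y0 : C.Y) :
    ∃ dv : Dev C (Mo.pmu (C.p y0).1), dv.f y0 = (1, (C.p y0).2) ∧
      ∀ y, C.p y = (Mo.L.r (C.p y0).1 (dv.f y).1, (dv.f y).2) := by
  obtain ⟨φ, h0, h1, h2, h3, h4⟩ := hC.dev y0
  have h5 : ∀ y, C.p y = (Mo.L.r (C.p y0).1 (φ y).1, (φ y).2) := fun y => by rw [h3, h4]
  exact ⟨Dev.ofp (C.p y0).1 φ h1 h2 h5, h0, h5⟩

section
variable (Mo : Model) (q0 : Mo.Q)

/-- **(E3)** in the plane, also for arcs through all chambers -/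
theorem plane_t_le' {K : ℕ} {m n : ℤ} {y : (Mo.plane q0).Y}
    (h : PF.Dle (Mo.pmu q0) K (((Mo.plane q0).t ^ m) y) (((Mo.plane q0).t ^ n) y)) :
    2 * |n - m| ≤ 3 * K + 1 := by
  have e : ((Mo.plane q0).t ^ n) y = ((Mo.plane q0).t ^ (n - m)) (((Mo.plane q0).t ^ m) y) := by
    rw [← Equiv.Perm.mul_apply, ← zpow_add, sub_add_cancel]
  have hM := Mo.mu_inv q0
  have hF := Mo.mu_farG q0
  rw [e] at h
  rcases Int.eq_nat_or_neg (n - m) with ⟨k, hk | hk⟩
  · rw [hk, zpow_natCast, ← (Mo.plane q0).wallR_add] at h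
    have h3 := h.runs hM
    have h4 := (Mo.planeDev q0).f_wallR (((Mo.plane q0).t ^ m) y) (2 * k)
    change (Mo.plane q0).wallR (((Mo.plane q0).t ^ m) y) (2 * k) = _ at h4
    rw [h4] at h3
    have h1 := alt_le hF _ K (Dev.pm_ne _).symm (fun e => Dev.pm_not_adj _ e.symm)
      (fun e => Dev.pm_not_far _ e.symm) _ h3
    rw [hk, Nat.abs_cast]
    omega
  · rw [hk, zpow_neg, zpow_natCast, ← inv_pow, ← (Mo.plane q0).wallL_add] at h
    have h3 := h.runs hM
    have h4 := (Mo.planeDev q0).f_wallL (((Mo.plane q0).t ^ m) y) (2 * k)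
    change (Mo.plane q0).wallL (((Mo.plane q0).t ^ m) y) (2 * k) = _ at h4
    rw [h4] at h3
    have h1 := alt_le hF _ K (Dev.pm_ne _) (Dev.pm_not_adj _) (Dev.pm_not_far _) _ h3
    rw [hk, abs_neg, Nat.abs_cast]
    omega

theorem plane_t_le {K : ℕ} {m n : ℤ} {y : (Mo.plane q0).Y}
    (h : (Mo.plane q0).Dle K (((Mo.plane q0).t ^ m) y) (((Mo.plane q0).t ^ n) y)) :
    2 * |n - m| ≤ 3 * K + 1 := (Mo.planeDev q0).t_le (Mo.mu_inv q0) (Mo.mu_farG q0) h

theorem plane_t_inj (y : (Mo.plane q0).Y) : Function.Injective (fun n : ℤ => ((Mo.plane q0).t ^ n) y) :=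
  (Mo.planeDev q0).t_inj (Mo.mu_inv q0) (Mo.mu_farG q0) y

end

end Pool.CX
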