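import Pool.Agent.Work.MP_727c87_cx.CovTheory

set_option autoImplicit false

/-! # `H¹ = 0` for all groups implies universality -/

namespace Pool.CX

open Pool.CS

namespace Cov
variable {Mo : Model}

/-- a connected covering with `H¹ = 0` (all groups) is universal -/
theorem univ_of_sc {C : Cov Mo} (hne : Nonempty C.Y) (hconn : C.Conn) (hsc : C.SC (fun _ => False)) : C.Univ where
  ne := hne
  conn := hconn
  map := by
    classical
    intro C' y y' hyy
    set f0 : Mo.F := C.p y with hf0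
    -- the fibre over `f0` and its identification with the other fibres
    let Fb : Mo.F → Type := fun f => {z : C'.Y // C'.p z = f}
    have hg : ∀ f : Mo.F, ∃ g : FreeGroup Bool, f = Mo.base.hom g f0 := fun f =>
      exists_hom (Mo.base_conn f0 f)
    choose g hg using hg
    have hgi : ∀ f : Mo.F, Mo.base.hom (g f)⁻¹ f = f0 := by
      intro f
      conv_lhs => rw [hg f]
      rw [← Equiv.Perm.mul_apply, ← hg f, ← map_mul, inv_mul_cancel, map_one, Equiv.Perm.one_apply]
    let κ : ∀ f : Mo.F, Fb f0 ≃ Fb f := fun f =>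
      { toFun := fun z => ⟨C'.hom (g f) z.1, by rw [p_hom, z.2]; exact (hg f).symm⟩
        invFun := fun z => ⟨C'.hom (g f)⁻¹ z.1, by rw [p_hom, z.2]; exact hgi f⟩
        left_inv := fun z => by
          apply Subtype.ext
          change C'.hom (g f)⁻¹ (C'.hom (g f) z.1) = z.1
          rw [← Equiv.Perm.mul_apply, ← map_mul, inv_mul_cancel, map_one, Equiv.Perm.one_apply]
        right_inv := fun z => by
          apply Subtype.ext
          change C'.hom (g f) (C'.hom (g f)⁻¹ z.1) = z.1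
          rw [← Equiv.Perm.mul_apply, ← map_mul, mul_inv_cancel, map_one, Equiv.Perm.one_apply] }
    let am : ∀ f : Mo.F, Fb f ≃ Fb (Mo.fa f) := fun f =>
      { toFun := fun z => ⟨C'.a z.1, by rw [C'.p_a, z.2]⟩
        invFun := fun z => ⟨C'.a z.1, by
          rw [C'.p_a, z.2]
          exact Mo.base.a_a f⟩
        left_inv := fun z => Subtype.ext (C'.a_a z.1)
        right_inv := fun z => Subtype.ext (C'.a_a z.1) }
    let rm : ∀ f : Mo.F, Fb f ≃ Fb (Mo.fr f) := fun f =>
      { toFun := fun z => ⟨C'.r z.1, by rw [C'.p_r, z.2]⟩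
        invFun := fun z => ⟨C'.r.symm z.1, by
          rw [p_rsymm, z.2, Equiv.symm_apply_apply]⟩
        left_inv := fun z => Subtype.ext (by simp)
        right_inv := fun z => Subtype.ext (by simp) }
    let α : C.Y → Equiv.Perm (Fb f0) := fun z => ((κ (C.p z)).trans (am (C.p z))).trans (κ (Mo.fa (C.p z))).symm
    let β : C.Y → Equiv.Perm (Fb f0) := fun z => ((κ (C.p z)).trans (rm (C.p z))).trans (κ (Mo.fr (C.p z))).symm
    have kα : ∀ z (x : Fb f0), (κ (C.p (C.a z)) (α z x)).1 = C'.a (κ (C.p z) x).1 := by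
      intro z x
      have : C.p (C.a z) = Mo.fa (C.p z) := C.p_a z
      rw [this]
      change ((κ (Mo.fa (C.p z))) ((κ (Mo.fa (C.p z))).symm (am (C.p z) (κ (C.p z) x)))).1 = _
      rw [Equiv.apply_symm_apply]
      rfl
    have kβ : ∀ z (x : Fb f0), (κ (C.p (C.r z)) (β z x)).1 = C'.r (κ (C.p z) x).1 := by
      intro z x
      have : C.p (C.r z) = Mo.fr (C.p z) := C.p_r z
      rw [this]
      change ((κ (Mo.fr (C.p z))) ((κ (Mo.fr (C.p z))).symm (rm (C.p z) (κ (C.p z) x)))).1 = _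
      rw [Equiv.apply_symm_apply]
      rfl
    have kinj : ∀ (f : Mo.F) (x x' : Fb f0), (κ f x).1 = (κ f x').1 → x = x' := fun f x x' h =>
      (κ f).injective (Subtype.ext h)
    have kβi : ∀ z (x : Fb f0), (κ (C.p z) ((β z)⁻¹ x)).1 = C'.r.symm (κ (C.p (C.r z)) x).1 := by
      intro z x
      rw [Equiv.eq_symm_apply]
      rw [← kβ z ((β z)⁻¹ x)]
      simp
    have h1 : ∀ z, α (C.a z) * α z = 1 := by
      intro z
      refine Equiv.ext fun x => kinj (C.p z) _ _ ?_
      rw [Equiv.Perm.mul_apply, Equiv.Perm.one_apply]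
      have := kα (C.a z) (α z x)
      rw [C.a_a] at this
      rw [this, kα, C'.a_a]
    have h2 : ∀ z, α (C.b z) * ((β (C.b z))⁻¹ * α (C.r z) * β z) =
        ((β (C.b (C.a z)))⁻¹ * α (C.r (C.a z)) * β (C.a z)) * α z := by
      intro z
      refine Equiv.ext fun x => kinj (C.p (C.a (C.b z))) _ _ ?_
      have e : ∀ (z : C.Y) (x : Fb f0), (κ (C.p (C.b z)) (((β (C.b z))⁻¹ * α (C.r z) * β z) x)).1 =
          C'.b (κ (C.p z) x).1 := by
        intro z x
        rw [Equiv.Perm.mul_apply, Equiv.Perm.mul_apply, kβi]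
        have : C.r (C.b z) = C.a (C.r z) := by rw [Cov.b, Equiv.apply_symm_apply]
        rw [this, kα, kβ]
        rfl
      rw [Equiv.Perm.mul_apply, kα, e]
      rw [C.a_b, Equiv.Perm.mul_apply, e, kα, C'.a_b]
    have h3 : ∀ z, (C.p z).1 ∉ Mo.D → C.rprod β 12 z = 1 := by
      intro z hz
      have h : ∀ (n : ℕ) (x : Fb f0), (κ (C.p ((C.r ^ n) z)) (C.rprod β n z x)).1 =
          (C'.r ^ n) (κ (C.p z) x).1 := by
        intro n x
        induction n with
        | zero => rfl
        | succ n ih =>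
          have h5 := kβ ((C.r ^ n) z) (C.rprod β n z x)
          rw [ih] at h5
          rw [rprod, Equiv.Perm.mul_apply, pow_succ', pow_succ', Equiv.Perm.mul_apply, Equiv.Perm.mul_apply]
          exact h5
      refine Equiv.ext fun x => kinj (C.p z) _ _ ?_
      have h6 := h 12 x
      rw [C.nd z hz] at h6
      rw [h6, Equiv.Perm.one_apply]
      exact C'.nd _ (by rw [(κ (C.p z) x).2]; exact hz)
    obtain ⟨θ, ha, hr⟩ := hsc (Equiv.Perm (Fb f0)) α β h1 h2 h3 (fun _ h => h.elim)
    let x0 : Fb f0 := (θ y)⁻¹ ((κ f0).symm ⟨y', hyy.symm⟩)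
    refine ⟨fun z => (κ (C.p z) (θ z x0)).1, ?_, ?_, ?_, ?_⟩
    · change (κ (C.p y) (θ y ((θ y)⁻¹ ((κ f0).symm ⟨y', hyy.symm⟩)))).1 = y'
      have e : ∀ (u : Equiv.Perm (Fb f0)) (v : Fb f0), u (u⁻¹ v) = v := fun u v => u.apply_symm_apply v
      rw [e, ← hf0, Equiv.apply_symm_apply]
    · intro z
      change (κ (C.p (C.a z)) (θ (C.a z) x0)).1 = C'.a (κ (C.p z) (θ z x0)).1
      rw [ha, Equiv.Perm.mul_apply, kα]
    · intro z
      change (κ (C.p (C.r z)) (θ (C.r z) x0)).1 = C'.r (κ (C.p z) (θ z x0)).1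
      rw [hr, Equiv.Perm.mul_apply, kβ]
    · intro z
      exact (κ (C.p z) (θ z x0)).2

end Cov

end Pool.CX
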