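import Pool.Agent.Work.MP_bc4532_gt.Manifold
import Pool.Agent.Work.MP_727c87_gt_helper49.Defs

/-!
# The final statement for `MP_727c87_gt` (Urysohn 1-width of 3-manifolds and universal covers)

All definitions used in the final theorem are here, in `MP_bc4532_gt/Manifold.lean`
(`ClosedRiemannianManifold`: compact connected smooth manifold without boundary, smooth Riemannian
metric, path-length distance; all classes are Mathlib's) and in `MP_727c87_gt_helper49/Defs.lean`
(`Realization`, `DimLE`, `urysohnWidth`).
-/

namespace UW727

open Bundle Manifold
open scoped Manifold ContDiff ENNReal NNReal Topology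
open Pool.Agent.Work.MP_bc4532_gt (ClosedRiemannianManifold)

universe u

/-- The weak topology on the geometric realization `|K|`: a set is open if and only if its
intersection with every closed simplex `{y | y v = 0 for v ∉ s}`, `s` a face of `K`, is open in
this simplex (which carries its usual topology). It is finer than the topology of pointwise
convergence of the barycentric coordinates, the instance used in `urysohnWidth`; the two
topologies agree if `K` is finite. -/
@[reducible] def weakTopology {V : Type*} (K : PreAbstractSimplicialComplex V) :
    TopologicalSpace (Realization K) :=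
  ⨆ s : K.faces, TopologicalSpace.coinduced
    (Subtype.val : {y : Realization K // ∀ v, v ∉ (s : Finset V) → y.1 v = 0} → Realization K)
    inferInstance

/-- The Urysohn `k`-width of `X` computed with the weak topology of the simplicial complexes
(fewer maps are continuous, so it is at least `urysohnWidth k X`, which is computed with the
topology of pointwise convergence of the barycentric coordinates). -/
noncomputable def urysohnWidthW (k : ℕ) (X : Type u) [MetricSpace X] : ℝ≥0∞ :=
  ⨅ (V : Type u) (K : PreAbstractSimplicialComplex V) (_ : DimLE K k)
    (f : X → Realization K) (_ : @Continuous _ _ _ (weakTopology K) f),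
    ⨆ y : Realization K, Metric.ediam (f ⁻¹' {y})

/-- A universal Riemannian covering of the closed Riemannian manifold `M`: a simply connected
smooth manifold `Pt` with a smooth Riemannian metric, regarded as a metric space with its
path-length distance, and a covering map `p : Pt → M` which is a local diffeomorphism and
preserves the lengths of tangent vectors (so the Riemannian metric of `Pt` is the lifted one). -/
structure RiemannianUniversalCover (M : ClosedRiemannianManifold) where
  /-- the points of the universal cover -/
  Pt : Type
  [metricSpace : MetricSpace Pt]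
  [chartedSpace : ChartedSpace M.H Pt]
  [isManifold : IsManifold M.I ∞ Pt]
  [simplyConnectedSpace : SimplyConnectedSpace Pt]
  /-- the Riemannian metric -/
  [riemannianBundle : RiemannianBundle (fun x : Pt => TangentSpace M.I x)]
  [smoothMetric : IsContMDiffRiemannianBundle M.I ∞ M.E (fun x : Pt => TangentSpace M.I x)]
  [isRiemannianManifold : IsRiemannianManifold M.I Pt]
  /-- the covering map -/
  p : Pt → M.Pt
  isCoveringMap : IsCoveringMap p
  isLocalDiffeomorph : IsLocalDiffeomorph M.I M.I ∞ p
  norm_mfderiv : ∀ (x : Pt) (v : TangentSpace M.I x), ‖mfderiv M.I M.I p x v‖ = ‖v‖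

attribute [instance] RiemannianUniversalCover.metricSpace
  RiemannianUniversalCover.chartedSpace RiemannianUniversalCover.isManifold
  RiemannianUniversalCover.simplyConnectedSpace RiemannianUniversalCover.riemannianBundle
  RiemannianUniversalCover.smoothMetric RiemannianUniversalCover.isRiemannianManifold

/-- **The final statement** (answer YES to Q1 of `MP_727c87_gt`). There is a constant `C` such
that for every `L` there is a closed Riemannian `3`-manifold `M` with `UW_1(M) ≥ L` whose
universal cover (that is, every universal Riemannian covering `X` of `M`; they are all isometric)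
satisfies `UW_1(X) ≤ C`. Both inequalities hold for both usual topologies on simplicial
complexes. -/
def FinalStatement : Prop :=
  ∃ C : ℝ≥0, ∀ L : ℝ≥0, ∃ M : ClosedRiemannianManifold,
    Module.finrank ℝ M.E = 3 ∧
    (L : ℝ≥0∞) ≤ urysohnWidth 1 M.Pt ∧ (L : ℝ≥0∞) ≤ urysohnWidthW 1 M.Pt ∧
    Nonempty (RiemannianUniversalCover M) ∧
    ∀ X : RiemannianUniversalCover M,
      urysohnWidth 1 X.Pt ≤ C ∧ urysohnWidthW 1 X.Pt ≤ C

theorem continuous_of_weak {X V : Type*} [TopologicalSpace X]
    {K : PreAbstractSimplicialComplex V} {f : X → Realization K}
    (hf : @Continuous _ _ _ (weakTopology K) f) : Continuous f := by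
  refine continuous_def.2 fun s hs => ?_
  have h : IsOpen[weakTopology K] s := by
    refine isOpen_iSup_iff.2 fun t => ?_
    exact hs.preimage continuous_subtype_val
  exact @IsOpen.preimage _ _ _ (weakTopology K) f hf s h

theorem urysohnWidth_le_urysohnWidthW (k : ℕ) (X : Type u) [MetricSpace X] :
    urysohnWidth k X ≤ urysohnWidthW k X := by
  refine le_iInf fun V => le_iInf fun K => le_iInf fun hK => le_iInf fun f => le_iInf fun hf => ?_
  exact (iInf_le _ V).trans <| (iInf_le _ K).trans <| (iInf_le _ hK).trans <|
    (iInf_le _ f).trans <| iInf_le _ (continuous_of_weak hf)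

/-- It is enough to bound the width of `M` from below for the coarser topology and the width of
`X` from above for the finer one, and to know that universal Riemannian coverings exist. -/
theorem finalStatement_of (hex : ∀ M : ClosedRiemannianManifold, Nonempty (RiemannianUniversalCover M))
    (h : ∃ C : ℝ≥0, ∀ L : ℝ≥0, ∃ M : ClosedRiemannianManifold, Module.finrank ℝ M.E = 3 ∧
      (L : ℝ≥0∞) ≤ urysohnWidth 1 M.Pt ∧
      ∀ X : RiemannianUniversalCover M, urysohnWidthW 1 X.Pt ≤ C) : FinalStatement := by
  obtain ⟨C, hC⟩ := h
  refine ⟨C, fun L => ?_⟩
  obtain ⟨M, h1, h2, h3⟩ := hC L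
  exact ⟨M, h1, h2, h2.trans (urysohnWidth_le_urysohnWidthW _ _), hex M, fun X =>
    ⟨(urysohnWidth_le_urysohnWidthW _ _).trans (h3 X), h3 X⟩⟩

end UW727
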