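import Pool.Agent.Work.MP_727c87_cx.Statement
import Pool.Agent.Work.MP_727c87_cx.E1.Met
import Pool.Agent.Work.MP_727c87_cx.E2.Defs
import Pool.Agent.Work.MP_727c87_cx.UCov.Exists
import Pool.Agent.Work.MP_727c87_up.Up4

set_option autoImplicit false

/-! # Assembly of the final statement from the border theorems of the parts -/

namespace Pool.CX

open scoped ENNReal NNReal
open Pool.Agent.Work.MP_bc4532_gt (ClosedRiemannianManifold)

/-- geometry of the realisation used for the universal covering: for small `ε` a metric flag cover exists, with an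
absolute constant -/
def Stmt_MFC : Prop :=
  ∃ c : ℝ≥0, ∀ Mo : Model, ∃ ε : ℝ, 0 < ε ∧ ∀ Z : Realz Mo ε, Nonempty (MetricFlagCover Mo Z.M c)

theorem final_of (hLOW : Stmt_LOW) (hM0 : Stmt_M0) (hFIN : Stmt_FIN) (hMFC : Stmt_MFC) (hE2 : Stmt_E2) :
    UW727.FinalStatement := by
  apply UW727.finalStatement_of UW727.UCov.nonempty_riemannianUniversalCover
  obtain ⟨b, hb⟩ := stmt_UP
  obtain ⟨c0, hc0, hfin⟩ := hFIN
  obtain ⟨c, hc⟩ := hMFC
  refine ⟨Real.toNNReal (1000 * (b + 20) * (c + 1)), fun L => ?_⟩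
  obtain ⟨Mo, hMo⟩ := hLOW (c0 * (⌈L⌉₊ + 1))
  obtain ⟨ε, hε, hcov⟩ := hc Mo
  obtain ⟨Z⟩ := hM0 Mo ε hε
  refine ⟨Z.M, Z.finrank, ?_, fun X => ?_⟩
  · refine le_trans ?_ (hfin Mo ε Z ⌈L⌉₊ _ hMo le_rfl)
    have h1 : L ≤ (⌈L⌉₊ : ℝ≥0) := Nat.le_ceil L
    exact_mod_cast ENNReal.coe_le_coe.2 h1
  · obtain ⟨mfc⟩ := hcov Z
    exact hE2 Mo Z.M c mfc b (fun C hC => hb Mo C hC) X

end Pool.CX
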