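import Pool.Agent.Work.MP_727c87_cx.Racg
import Pool.Agent.Work.MP_727c87_cx.Defs

/-!
# MP_727c87_gt, part P: LEMMA P (helper33)

`G : SimpleGraph Λ` commutation graph, `RC G` the right-angled Coxeter group, chambers = elements,
`mu x j` = the side matched with the side `j` in the chamber `x`.
`sw mu x l` = number of switches of the gallery which starts at `x` and crosses the sides `l`.
-/

set_option autoImplicit false

namespace Pool.W1P

open Pool.CS

variable {Λ : Type} {G : SimpleGraph Λ}

/-- `s` and `t` are neither equal nor adjacent and have no common neighbour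
(cyclic distance at least 3) -/
def FarG (G : SimpleGraph Λ) (s t : Λ) : Prop :=
  ∀ a, ¬ ((a = s ∨ G.Adj a s) ∧ (a = t ∨ G.Adj a t))

theorem FarG.symm {s t : Λ} (h : FarG G s t) : FarG G t s := fun a ha => h a ⟨ha.2, ha.1⟩

theorem FarG.ne {s t : Λ} (h : FarG G s t) : s ≠ t := fun e => h s ⟨Or.inl rfl, Or.inl e⟩

theorem FarG.not_adj {s t : Λ} (h : FarG G s t) : ¬ G.Adj s t :=
  fun e => h s ⟨Or.inl rfl, Or.inr e⟩

open Classical in
/-- switches of the gallery `l` which starts in the chamber `x`, entered through the side `p` -/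
noncomputable def swp (mu : RC G → Λ → Λ) : RC G → Λ → List Λ → ℕ
  | _, _, [] => 0
  | x, p, a :: l => (if a = mu x p then 0 else 1) + swp mu (x * rg G a) a l

/-- switches of the gallery `l` which starts in the chamber `x` -/
noncomputable def sw (mu : RC G → Λ → Λ) (x : RC G) : List Λ → ℕ
  | [] => 0
  | a :: l => swp mu (x * rg G a) a l

theorem swp_append (mu : RC G → Λ → Λ) (x : RC G) (p : Λ) (l m : List Λ) :
    swp mu x p (l ++ m) =
      swp mu x p l + swp mu (x * wp G l) ((p :: l).getLast (List.cons_ne_nil _ _)) m := by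
  induction l generalizing x p with
  | nil => simp [swp, wp_nil]
  | cons a l ih =>
    rw [List.cons_append, swp, swp, ih, wp_cons, List.getLast_cons_cons]
    rw [mul_assoc, add_assoc]

/-- if all letters have the common neighbour `t`, every chamber is a switch -/
theorem swp_adj {mu : RC G → Λ → Λ} (hmu : ∀ x j, FarG G j (mu x j)) (t : Λ) (x : RC G) (p : Λ)
    (l : List Λ) (hp : G.Adj t p) (hl : ∀ s ∈ l, G.Adj t s) : swp mu x p l = l.length := by
  induction l generalizing x p with
  | nil => rfl
  | cons a l ih =>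
    have ha : G.Adj t a := hl a List.mem_cons_self
    rw [swp, ih _ a ha (fun s hs => hl s (List.mem_cons_of_mem _ hs)), List.length_cons]
    have : a ≠ mu x p := by
      intro h
      exact hmu x p t ⟨Or.inr hp, Or.inr (h ▸ ha)⟩
    rw [if_neg this, add_comm]

theorem swp_insert {mu : RC G → Λ → Λ} (hmu : ∀ x j, FarG G j (mu x j)) (t : Λ) (y : RC G) (p : Λ)
    (b : List Λ) (hb : ∀ s ∈ b, G.Adj t s) : swp mu y p (t :: b) ≤ swp mu y p b + 2 := by
  cases b with
  | nil => rw [swp, swp, swp]; split_ifs <;> omega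
  | cons c b =>
    have hc : G.Adj t c := hb c List.mem_cons_self
    have hb' : ∀ s ∈ b, G.Adj t s := fun s hs => hb s (List.mem_cons_of_mem _ hs)
    rw [swp, swp, swp, swp_adj hmu t _ c b hc hb', swp_adj hmu t _ c b hc hb']
    split_ifs <;> omega

/-- inserting a letter in front of letters which commute with it costs at most two switches -/
theorem sw_insert {mu : RC G → Λ → Λ} (hmu : ∀ x j, FarG G j (mu x j)) (t : Λ) (x : RC G)
    (a b : List Λ) (hb : ∀ s ∈ b, G.Adj t s) : sw mu x (a ++ t :: b) ≤ sw mu x (a ++ b) + 2 := by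
  cases a with
  | nil =>
    rw [List.nil_append, List.nil_append]
    cases b with
    | nil => simp [sw, swp]
    | cons c b =>
      have hc : G.Adj t c := hb c List.mem_cons_self
      have hb' : ∀ s ∈ b, G.Adj t s := fun s hs => hb s (List.mem_cons_of_mem _ hs)
      rw [sw, sw, swp, swp_adj hmu t _ c b hc hb', swp_adj hmu t _ c b hc hb']
      split_ifs <;> omega
  | cons c a =>
    rw [List.cons_append, List.cons_append, sw, sw, swp_append, swp_append]
    have := swp_insert hmu t (x * rg G c * wp G a) ((c :: a).getLast (List.cons_ne_nil _ _)) b hb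
    omega

theorem sw_append_le (mu : RC G → Λ → Λ) (x : RC G) (a b : List Λ) :
    sw mu x a ≤ sw mu x (a ++ b) := by
  cases a with
  | nil => simp [sw]
  | cons c a => rw [List.cons_append, sw, sw, swp_append]; omega

/-- one more letter: at most one more switch, none if it follows `mu` -/
theorem sw_snoc_le (mu : RC G → Λ → Λ) (x : RC G) (a : List Λ) (t : Λ) :
    sw mu x (a ++ [t]) ≤ sw mu x a + 1 := by
  cases a with
  | nil => simp [sw, swp]
  | cons c a =>
    rw [List.cons_append, sw, sw, swp_append, swp, swp]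
    split_ifs <;> omega

theorem sw_snoc_snoc (mu : RC G → Λ → Λ) (x : RC G) (a : List Λ) (t t' : Λ)
    (h : t' = mu (x * wp G (a ++ [t])) t) :
    sw mu x (a ++ [t] ++ [t']) = sw mu x (a ++ [t]) := by
  cases a with
  | nil =>
    rw [List.nil_append, List.singleton_append, sw, sw, swp, swp, swp]
    rw [List.nil_append, wp_cons, wp_nil, mul_one] at h
    rw [if_pos h]
  | cons c a =>
    rw [List.cons_append, List.cons_append, sw, sw, swp_append, swp, swp]
    have e : (c :: (a ++ [t])).getLast (List.cons_ne_nil _ _) = t := by simp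
    rw [e, if_pos, add_zero, add_zero]
    rw [h, List.cons_append, wp_cons, mul_assoc]

/-- the gallery `u` which starts in the chamber `y`, entered through the side `p`, follows the line -/
def Line (mu : RC G → Λ → Λ) : RC G → Λ → List Λ → Prop
  | _, _, [] => True
  | y, p, a :: u => a = mu y p ∧ Line mu (y * rg G a) a u

/-- the gallery `u` which starts in the chamber `y` follows a line -/
def LineRun (mu : RC G → Λ → Λ) (y : RC G) : List Λ → Prop
  | [] => True
  | a :: u => Line mu (y * rg G a) a u

theorem Line.lineRun {mu : RC G → Λ → Λ} {y : RC G} {p : Λ} {u : List Λ} (h : Line mu y p u) :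
    LineRun mu y u := by
  cases u with
  | nil => trivial
  | cons a u => exact h.2

theorem length_le_swp {mu : RC G → Λ → Λ} (hmu : ∀ x j, FarG G j (mu x j)) (x : RC G) (p : Λ)
    (l : List Λ) (hc : (p :: l).IsChain fun a b => ¬ FarG G a b) : l.length ≤ swp mu x p l := by
  induction l generalizing x p with
  | nil => exact Nat.zero_le _
  | cons a l ih =>
    rw [List.isChain_cons_cons] at hc
    have h1 := ih (x * rg G a) a hc.2
    have h2 : a ≠ mu x p := fun e => hc.1 (e ▸ hmu x p)
    rw [swp, if_neg h2, List.length_cons]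
    omega

theorem length_le_sw {mu : RC G → Λ → Λ} (hmu : ∀ x j, FarG G j (mu x j)) (x : RC G)
    (l : List Λ) (hc : l.IsChain fun a b => ¬ FarG G a b) : l.length ≤ sw mu x l + 1 := by
  cases l with
  | nil => exact Nat.zero_le _
  | cons a l =>
    rw [sw, List.length_cons]
    have := length_le_swp hmu (x * rg G a) a l hc
    omega

theorem chain_of_adj (s : Λ) (l : List Λ) (hc : ∀ a ∈ l, G.Adj s a) :
    l.IsChain fun a b => ¬ FarG G a b := by
  induction l with
  | nil => exact List.isChain_nil
  | cons a l ih =>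
    cases l with
    | nil => exact List.isChain_singleton a
    | cons b l =>
      rw [List.isChain_cons_cons]
      refine ⟨fun hf => hf s ⟨Or.inr (hc a List.mem_cons_self), Or.inr (hc b (by simp))⟩, ?_⟩
      exact ih fun c hc' => hc c (List.mem_cons_of_mem _ hc')

/-- `Runs mu x K y`: `y` is reached from `x` by at most `K` line runs -/
inductive Runs (mu : RC G → Λ → Λ) (x : RC G) : ℕ → RC G → Prop
  | base : Runs mu x 0 x
  | cons (K : ℕ) (y : RC G) (u : List Λ) : Runs mu x K y → LineRun mu y u →
      Runs mu x (K + 1) (y * wp G u)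

theorem Runs.succ {mu : RC G → Λ → Λ} {x : RC G} {K : ℕ} {y : RC G} (h : Runs mu x K y) :
    Runs mu x (K + 1) y := by
  have := Runs.cons K y [] h trivial
  rwa [wp_nil, mul_one] at this

theorem Runs.mono {mu : RC G → Λ → Λ} {x : RC G} {K K' : ℕ} {y : RC G} (h : Runs mu x K y)
    (hK : K ≤ K') : Runs mu x K' y := by
  induction hK with
  | refl => exact h
  | step _ ih => exact ih.succ

theorem Runs.trans {mu : RC G → Λ → Λ} {x y z : RC G} {K K' : ℕ} (h : Runs mu x K y)
    (h' : Runs mu y K' z) : Runs mu x (K + K') z := by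
  induction h' with
  | base => exact h
  | cons K' z u _ hu ih => exact Runs.cons (K + K') z u ih hu

theorem line_append {mu : RC G → Λ → Λ} {y : RC G} {p : Λ} {u : List Λ} {t t' : Λ}
    (h : Line mu y p (u ++ [t])) (h' : t' = mu (y * wp G (u ++ [t])) t) :
    Line mu y p (u ++ [t, t']) := by
  induction u generalizing y p with
  | nil =>
    rw [List.nil_append, wp_cons, wp_nil, mul_one] at h'
    exact ⟨h.1, h', trivial⟩
  | cons a u ih =>
    refine ⟨h.1, ih h.2 ?_⟩
    rw [h', List.cons_append, wp_cons, mul_assoc]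

/-- a gallery with `n` switches is a concatenation of `n + 1` line runs; the last run is kept
apart so that it can be prolonged -/
theorem runs_of_sw_aux (mu : RC G → Λ → Λ) (x : RC G) (l : List Λ) (t : Λ) :
    ∃ (y : RC G) (u : List Λ), Runs mu x (sw mu x (l ++ [t])) y ∧ LineRun mu y (u ++ [t]) ∧
      y * wp G (u ++ [t]) = x * wp G (l ++ [t]) := by
  induction l using List.reverseRecOn generalizing t with
  | nil => exact ⟨x, [], Runs.base, trivial, rfl⟩
  | append_singleton l s ih =>
    obtain ⟨y, u, h1, h2, h3⟩ := ih s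
    by_cases ht : t = mu (x * wp G (l ++ [s])) s
    · refine ⟨y, u ++ [s], ?_, ?_, ?_⟩
      · rw [sw_snoc_snoc mu x l s t ht]; exact h1
      · cases u with
        | nil =>
          refine ⟨?_, trivial⟩
          rw [ht, ← h3, List.nil_append, wp_cons, wp_nil, mul_one]
        | cons a u =>
          rw [List.cons_append, List.cons_append, List.append_assoc]
          refine line_append (y := y * rg G a) h2 ?_
          rw [ht, ← h3, List.cons_append, wp_cons, mul_assoc]
      · rw [wp_append, ← mul_assoc, h3, wp_append G (l ++ [s]) [t], mul_assoc]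
    · refine ⟨x * wp G (l ++ [s]), [], ?_, trivial, ?_⟩
      · have h4 := Runs.cons _ y (u ++ [s]) h1 h2
        rw [h3] at h4
        have h5 : sw mu x (l ++ [s]) + 1 ≤ sw mu x (l ++ [s] ++ [t]) := by
          cases l with
          | nil =>
            rw [List.nil_append, List.singleton_append, sw, sw, swp, swp, swp]
            rw [List.nil_append, wp_cons, wp_nil, mul_one] at ht
            rw [if_neg ht]
          | cons a l =>
            rw [List.cons_append, List.cons_append, sw, sw,
              swp_append mu (x * rg G a) a (l ++ [s]) [t], swp, swp]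
            have e : (a :: (l ++ [s])).getLast (List.cons_ne_nil _ _) = s := by simp
            rw [e, if_neg]
            rw [List.cons_append, wp_cons] at ht
            rwa [mul_assoc]
        exact h4.mono h5
      · rw [List.nil_append, wp_append G (l ++ [s]) [t], mul_assoc]

/-- a gallery with `n` switches is a concatenation of at most `n + 1` line runs -/
theorem runs_of_sw (mu : RC G → Λ → Λ) (x : RC G) (l : List Λ) :
    Runs mu x (sw mu x l + 1) (x * wp G l) := by
  rcases List.eq_nil_or_concat l with rfl | ⟨l, t, rfl⟩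
  · rw [wp_nil, mul_one]; exact Runs.base.mono (Nat.zero_le _)
  · rw [List.concat_eq_append]
    obtain ⟨y, u, h1, h2, h3⟩ := runs_of_sw_aux mu x l t
    rw [← h3]
    exact Runs.cons _ _ _ h1 h2

/-- What is used about words: `RW g l` = `l` is a reduced word of `g`. -/
structure WordAPI (G : SimpleGraph Λ) (RW : RC G → List Λ → Prop) : Prop where
  wp_eq : ∀ g l, RW g l → wp G l = g
  nil : ∀ l, RW 1 l → l = []
  /-- descents -/
  append : ∀ g l l' t, RW g (l ++ [t]) → RW (g * rg G t) l' → RW g (l' ++ [t])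
  /-- ascent or descent -/
  desc : ∀ g t, (∃ l, RW g (l ++ [t])) ∨ (∃ l, RW (g * rg G t) (l ++ [t]))
  /-- exchange -/
  exch : ∀ g l m t, RW g (m ++ [t]) → RW g l →
    ∃ a b, l = a ++ t :: b ∧ (∀ s ∈ b, G.Adj t s) ∧ RW (g * rg G t) (a ++ b)
  /-- two descents are equal or adjacent -/
  adj : ∀ g l m s t, RW g (l ++ [s]) → RW g (m ++ [t]) → s = t ∨ G.Adj s t

section
variable {RW : RC G → List Λ → Prop} (A : WordAPI G RW)

include A

/-- after a letter `t` which is a descent, a far letter `t'` can only be appended -/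
theorem far_append {g : RC G} {m l : List Λ} {t t' : Λ} (hm : RW g (m ++ [t])) (hf : FarG G t t')
    (hl : RW (g * rg G t') l) : ∃ a, l = a ++ [t'] ∧ RW g a := by
  have hnd : ¬ ∃ l, RW g (l ++ [t']) := by
    rintro ⟨l', hl'⟩
    rcases A.adj g m l' t t' hm hl' with h | h
    · exact hf.ne h
    · exact hf.not_adj h
  obtain ⟨m', hm'⟩ := (A.desc g t').resolve_left hnd
  obtain ⟨a, b, rfl, hb, hab⟩ := A.exch _ l m' t' hm' hl
  rw [mul_assoc, rg_mul_self, mul_one] at hab
  rcases List.eq_nil_or_concat b with rfl | ⟨b', s, rfl⟩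
  · exact ⟨a, rfl, by simpa using hab⟩
  · exfalso
    rw [List.concat_eq_append, ← List.append_assoc] at hab
    have hs : G.Adj t' s := hb s (by simp)
    have h := A.adj g m _ t s hm hab
    exact hf s ⟨h.elim (fun e => Or.inl e.symm) (fun e => Or.inr e.symm), Or.inr hs.symm⟩

theorem run2 {mu : RC G → Λ → Λ} (hmu : ∀ x j, FarG G j (mu x j)) (x : RC G) (N : ℕ)
    (u : List Λ) (g : RC G) (t : Λ) (hg : ∃ m, RW g (m ++ [t]))
    (he : ∀ l, RW g l → ∃ a, l = a ++ [t]) (hN : ∀ l, RW g l → sw mu x l ≤ N)
    (hu : Line mu (x * g) t u) : ∀ l, RW (g * wp G u) l → sw mu x l ≤ N := by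
  induction u generalizing g t with
  | nil => simpa [wp_nil] using hN
  | cons t' u ih =>
    obtain ⟨ht', hu'⟩ := hu
    obtain ⟨m, hm⟩ := hg
    have hf : FarG G t t' := by rw [ht']; exact hmu _ _
    have key : ∀ l, RW (g * rg G t') l → ∃ a, l = a ++ [t'] ∧ RW g a :=
      fun l hl => far_append A hm hf hl
    have := ih (g * rg G t') t' ?_ ?_ ?_ ?_
    · rw [wp_cons, ← mul_assoc]; exact this
    · -- the letter t' is a descent of g t'
      have hnd : ¬ ∃ l, RW g (l ++ [t']) := by
        rintro ⟨l', hl'⟩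
        rcases A.adj g m l' t t' hm hl' with h | h
        · exact hf.ne h
        · exact hf.not_adj h
      exact (A.desc g t').resolve_left hnd
    · intro l hl
      obtain ⟨a, ha, -⟩ := key l hl
      exact ⟨a, ha⟩
    · intro l hl
      obtain ⟨a, rfl, ha⟩ := key l hl
      obtain ⟨a', rfl⟩ := he a ha
      rw [sw_snoc_snoc]
      · exact hN _ ha
      · rw [A.wp_eq _ _ ha, ht']
    · rw [← mul_assoc]; exact hu'

theorem run1 {mu : RC G → Λ → Λ} (hmu : ∀ x j, FarG G j (mu x j)) (x : RC G) (N : ℕ)
    (u : List Λ) (g : RC G) (t : Λ) (hg : ∃ m, RW g (m ++ [t]))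
    (hN : ∀ l, RW g l → sw mu x l ≤ N)
    (hu : Line mu (x * g) t u) : ∀ l, RW (g * wp G u) l → sw mu x l ≤ N + 1 := by
  cases u with
  | nil =>
    intro l hl
    rw [wp_nil, mul_one] at hl
    exact (hN l hl).trans (Nat.le_succ _)
  | cons t' u =>
    obtain ⟨ht', hu'⟩ := hu
    obtain ⟨m, hm⟩ := hg
    have hf : FarG G t t' := by rw [ht']; exact hmu _ _
    have key : ∀ l, RW (g * rg G t') l → ∃ a, l = a ++ [t'] ∧ RW g a :=
      fun l hl => far_append A hm hf hl
    have hnd : ¬ ∃ l, RW g (l ++ [t']) := by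
      rintro ⟨l', hl'⟩
      rcases A.adj g m l' t t' hm hl' with h | h
      · exact hf.ne h
      · exact hf.not_adj h
    have := run2 A hmu x (N + 1) u (g * rg G t') t' ((A.desc g t').resolve_left hnd) ?_ ?_ ?_
    · rw [wp_cons, ← mul_assoc]; exact this
    · intro l hl
      obtain ⟨a, ha, -⟩ := key l hl
      exact ⟨a, ha⟩
    · intro l hl
      obtain ⟨a, rfl, ha⟩ := key l hl
      exact (sw_snoc_le mu x a t').trans (Nat.add_le_add_right (hN a ha) 1)
    · rw [← mul_assoc]; exact hu'

/-- one line run: at most three more switches -/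
theorem run0 {mu : RC G → Λ → Λ} (hmu : ∀ x j, FarG G j (mu x j)) (x : RC G) (N : ℕ)
    (u : List Λ) (g : RC G) (hN : ∀ l, RW g l → sw mu x l ≤ N)
    (hu : LineRun mu (x * g) u) : ∀ l, RW (g * wp G u) l → sw mu x l ≤ N + 3 := by
  induction u generalizing g with
  | nil =>
    intro l hl
    rw [wp_nil, mul_one] at hl
    exact (hN l hl).trans (by omega)
  | cons t u ih =>
    rw [wp_cons, ← mul_assoc]
    have hu' : Line mu (x * (g * rg G t)) t u := by rw [← mul_assoc]; exact hu
    rcases A.desc g t with ⟨m, hm⟩ | hd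
    · refine ih (g * rg G t) ?_ hu'.lineRun
      intro l hl
      exact (sw_append_le mu x l [t]).trans (hN _ (A.append g m l t hm hl))
    · refine run1 A hmu x (N + 2) u (g * rg G t) t hd ?_ hu'
      intro l hl
      obtain ⟨m, hm⟩ := hd
      obtain ⟨a, b, rfl, hb, hab⟩ := A.exch _ l m t hm hl
      rw [mul_assoc, rg_mul_self, mul_one] at hab
      exact (sw_insert hmu t x a b hb).trans (Nat.add_le_add_right (hN _ hab) 2)

/-- LEMMA P: if `y = x g` is reached from `x` by `K` line runs, every reduced word of `g`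
(= every minimal gallery from `x` to `y`) has at most `3K` switches. -/
theorem lemmaP {mu : RC G → Λ → Λ} (hmu : ∀ x j, FarG G j (mu x j)) (x : RC G) (K : ℕ) (y : RC G)
    (h : Runs mu x K y) : ∀ g, x * g = y → ∀ l, RW g l → sw mu x l ≤ 3 * K := by
  induction h with
  | base =>
    intro g hg l hl
    have : g = 1 := mul_left_cancel (hg.trans (mul_one x).symm)
    subst this
    rw [A.nil l hl]
    simp [sw]
  | cons K y u _ hu ih =>
    intro g hg l hl
    obtain ⟨g', hg'⟩ : ∃ g', x * g' = y := ⟨x⁻¹ * y, by group⟩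
    have e : g = g' * wp G u := mul_left_cancel (hg.trans (by rw [← hg', mul_assoc]))
    rw [e] at hl
    have := run0 A hmu x (3 * K) u g' (ih g' hg') (by rw [hg']; exact hu) l hl
    omega

/-- (P2) if no two consecutive letters are far, the length is at most `3K + 1`
(galleries along a wall, or turning galleries) -/
theorem lemmaP2 {mu : RC G → Λ → Λ} (hmu : ∀ x j, FarG G j (mu x j)) (x : RC G) (K : ℕ) (g : RC G)
    (h : Runs mu x K (x * g)) (l : List Λ) (hl : RW g l)
    (hc : l.IsChain fun a b => ¬ FarG G a b) : l.length ≤ 3 * K + 1 := by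
  have h1 := lemmaP A hmu x K (x * g) h g rfl l hl
  have h2 := length_le_sw hmu x l hc
  omega

/-- (P4) wall form: all letters are neighbours of `s` -/
theorem lemmaP_wall {mu : RC G → Λ → Λ} (hmu : ∀ x j, FarG G j (mu x j)) (x : RC G) (K : ℕ)
    (g : RC G) (h : Runs mu x K (x * g)) (s : Λ) (l : List Λ) (hl : RW g l)
    (hc : ∀ a ∈ l, G.Adj s a) : l.length ≤ 3 * K + 1 :=
  lemmaP2 A hmu x K g h l hl (chain_of_adj s l hc)

/-- (P4') the same on the other side of the wall -/
theorem lemmaP_wall' {mu : RC G → Λ → Λ} (hmu : ∀ x j, FarG G j (mu x j)) (x : RC G) (K : ℕ)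
    (g : RC G) (h : Runs mu x K (x * g)) (s : Λ) (l : List Λ) (hl : RW g (l ++ [s]))
    (hc : ∀ a ∈ l, G.Adj s a) : l.length ≤ 3 * K := by
  have h1 := lemmaP2 A hmu x K g h (l ++ [s]) hl ?_
  · rw [List.length_append] at h1
    simpa using h1
  · rw [List.isChain_append]
    refine ⟨chain_of_adj s l hc, List.isChain_singleton s, ?_⟩
    intro a ha b hb hf
    have ha' : a ∈ l := List.mem_of_getLast? ha
    simp only [List.head?_cons, Option.mem_def, Option.some.injEq] at hb
    subst hb
    exact hf.not_adj (hc a ha').symm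

end

/-! ## the words of Racg.lean -/

/-- `l` is a reduced word of `g` -/
def RWd (G : SimpleGraph Λ) (g : RC G) (l : List Λ) : Prop := Red G l ∧ wp G l = g

theorem wordAPI : WordAPI G (RWd G) where
  wp_eq := fun g l h => h.2
  nil := by
    rintro l ⟨h1, h2⟩
    have h3 := len_wp h1
    rw [h2, len_one] at h3
    exact List.length_eq_zero_iff.mp h3.symm
  append := by
    rintro g l l' t ⟨h1, h2⟩ ⟨h3, h4⟩
    have h5 : RD t g := h2 ▸ (rd_concat h1).2
    refine ⟨red_concat h3 ?_, ?_⟩
    · rw [h4]; exact not_rd_mul_self h5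
    · rw [wp_append, h4, wp_cons, wp_nil, mul_one, mul_assoc, rg_mul_self, mul_one]
  desc := by
    intro g t
    by_cases h : RD t g
    · obtain ⟨l, h1, h2⟩ := exists_red_concat h
      exact Or.inl ⟨l, h1, h2⟩
    · obtain ⟨l, h1, h2⟩ := exists_red_concat (rd_mul_self h)
      exact Or.inr ⟨l, h1, h2⟩
  exch := by
    rintro g l m t ⟨h1, h2⟩ ⟨h3, h4⟩
    have h5 : RD t (wp G l) := by rw [h4, ← h2]; exact (rd_concat h1).2
    obtain ⟨x, y, h6, h7, -, h8, h9⟩ := exchange h3 h5
    exact ⟨x, y, h6, fun s hs => (h7 s hs).symm, h8, by rw [h9, h4]⟩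
  adj := by
    rintro g l m s t ⟨h1, h2⟩ ⟨h3, h4⟩
    by_cases hst : s = t
    · exact Or.inl hst
    · exact Or.inr (rd_adj (h2 ▸ (rd_concat h1).2) (h4 ▸ (rd_concat h3).2) hst)

/-- a word with letters in `P` has a reduced form with letters in `P` -/
theorem exists_red_mem (P : Λ → Prop) (l : List Λ) (h : ∀ a ∈ l, P a) :
    ∃ m, Red G m ∧ wp G m = wp G l ∧ ∀ a ∈ m, P a := by
  induction l with
  | nil => exact ⟨[], trivial, rfl, by simp⟩
  | cons a l ih =>
    obtain ⟨m, h1, h2, h3⟩ := ih fun b hb => h b (List.mem_cons_of_mem _ hb)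
    cases h4 : del G a m with
    | none =>
      refine ⟨a :: m, ⟨h4, h1⟩, by rw [wp_cons, wp_cons, h2], ?_⟩
      intro b hb
      rcases List.mem_cons.mp hb with rfl | hb
      · exact h _ List.mem_cons_self
      · exact h3 b hb
    | some m' =>
      refine ⟨m', (h1.del h4).1, ?_, ?_⟩
      · rw [wp_cons, ← h2, (del_some_sh h4).wp_eq, wp_cons, ← mul_assoc, rg_mul_self, one_mul]
      · intro b hb
        exact h3 b ((del_some_sh h4).perm.symm.subset (List.mem_cons_of_mem _ hb))

section
variable {mu : RC G → Λ → Λ} (hmu : ∀ x j, FarG G j (mu x j)) (x : RC G) (K : ℕ)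
include hmu

/-- **LEMMA P**: if `x * wp G l` is reached from `x` by `K` line runs and `l` is reduced, then the gallery
`l` has at most `3K` switches. -/
theorem sw_le (l : List Λ) (hl : Red G l) (h : Runs mu x K (x * wp G l)) : sw mu x l ≤ 3 * K :=
  lemmaP wordAPI hmu x K _ h (wp G l) rfl l ⟨hl, rfl⟩

/-- minimal galleries between chambers at distance at most `K` line runs stay at distance at most
`3K + 1` line runs from the start -/
theorem runs_left (a b : List Λ) (hl : Red G (a ++ b)) (h : Runs mu x K (x * wp G (a ++ b))) :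
    Runs mu x (3 * K + 1) (x * wp G a) := by
  have h1 := sw_le hmu x K (a ++ b) hl h
  have h2 := sw_append_le mu x a b
  exact (runs_of_sw mu x a).mono (by omega)

/-- (P2) no two consecutive letters are far: at most `3K + 1` letters -/
theorem length_le (l : List Λ) (hl : Red G l) (hc : l.IsChain fun a b => ¬ FarG G a b)
    (h : Runs mu x K (x * wp G l)) : l.length ≤ 3 * K + 1 :=
  lemmaP2 wordAPI hmu x K (wp G l) h l ⟨hl, rfl⟩ hc

/-- (P4) galleries along a wall of type `s` -/
theorem length_le_wall (s : Λ) (l : List Λ) (hl : Red G l) (hc : ∀ a ∈ l, G.Adj s a)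
    (h : Runs mu x K (x * wp G l)) : l.length ≤ 3 * K + 1 :=
  lemmaP_wall wordAPI hmu x K (wp G l) h s l ⟨hl, rfl⟩ hc

/-- (P4') galleries along a wall of type `s` which end on the other side of the wall -/
theorem length_le_wall' (s : Λ) (l : List Λ) (hl : Red G l) (hc : ∀ a ∈ l, G.Adj s a)
    (h : Runs mu x K (x * wp G (l ++ [s]))) : l.length ≤ 3 * K := by
  refine lemmaP_wall' wordAPI hmu x K (wp G (l ++ [s])) h s l ⟨red_concat hl ?_, rfl⟩ hc
  intro h1
  obtain ⟨a, b, h2, -⟩ := (rd_iff hl).mp h1
  exact (hc s (h2 ▸ List.mem_append_right _ List.mem_cons_self)).ne rfl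

/-- (P4, COR) two chambers along a wall of type `s` (`l` any word in the neighbours of `s`) -/
theorem len_le_wall (s : Λ) (l : List Λ) (hc : ∀ a ∈ l, G.Adj s a)
    (h : Runs mu x K (x * wp G l)) : len (wp G l) ≤ 3 * K + 1 := by
  obtain ⟨m, h1, h2, h3⟩ := exists_red_mem (G := G) (fun a => G.Adj s a) l hc
  rw [← h2, len_wp h1]
  exact length_le_wall hmu x K s m h1 h3 (by rw [h2]; exact h)

/-- (P4', COR) two chambers on opposite sides of a wall of type `s` -/
theorem len_le_wall' (s : Λ) (l : List Λ) (hc : ∀ a ∈ l, G.Adj s a)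
    (h : Runs mu x K (x * wp G l * rg G s)) : len (wp G l) ≤ 3 * K := by
  obtain ⟨m, h1, h2, h3⟩ := exists_red_mem (G := G) (fun a => G.Adj s a) l hc
  rw [← h2, len_wp h1]
  refine length_le_wall' hmu x K s m h1 h3 ?_
  rw [wp_append, wp_cons, wp_nil, mul_one, ← mul_assoc, h2]; exact h

end

end Pool.W1P
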