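import Pool.Agent.Work.MP_727c87_cx.Racg

set_option autoImplicit false

/-! # Right-angled Coxeter groups: heights and finite quotients

`hgt l c` is the height of the column of the letter `c` when the word `l` is piled up (the last
letter of the word is at the head).  Traces of height at most `R` form a finite set on which the
generators act, if the steps leading out of the set are dropped: `RC G` is residually finite. -/

namespace Pool.CS

section
variable {Λ : Type} [Fintype Λ] {G : SimpleGraph Λ}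

open Classical in
/-- column heights of the pile of a word -/
noncomputable def hgt (G : SimpleGraph Λ) : List Λ → Λ → ℕ
  | [], _ => 0
  | a :: l, c => if c = a then 1 + (Finset.univ.filter (fun b => ¬ G.Adj a b)).sup (hgt G l)
      else hgt G l c

theorem hgt_nil (c : Λ) : hgt G [] c = 0 := rfl

open Classical in
theorem hgt_self (a : Λ) (l : List Λ) : hgt G (a :: l) a =
    1 + (Finset.univ.filter (fun b => ¬ G.Adj a b)).sup (hgt G l) := by
  rw [hgt, if_pos rfl]

theorem hgt_ne {a c : Λ} (h : c ≠ a) (l : List Λ) : hgt G (a :: l) c = hgt G l c := by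
  rw [hgt, if_neg h]

open Classical in
theorem hgt_self_adj {a b : Λ} (h : G.Adj a b) (l : List Λ) :
    hgt G (a :: b :: l) a = hgt G (a :: l) a := by
  rw [hgt_self, hgt_self]
  congr 1
  apply Finset.sup_congr rfl
  intro c hc
  rw [Finset.mem_filter] at hc
  have h1 : c ≠ b := by rintro rfl; exact hc.2 h
  exact hgt_ne h1 l

theorem hgt_swap {a b : Λ} (h : G.Adj a b) (l : List Λ) :
    hgt G (a :: b :: l) = hgt G (b :: a :: l) := by
  funext c
  by_cases h1 : c = a
  · subst h1
    rw [hgt_self_adj h, hgt_ne h.ne]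
  · by_cases h2 : c = b
    · subst h2
      rw [hgt_self_adj h.symm, hgt_ne h1]
    · rw [hgt_ne h1, hgt_ne h2, hgt_ne h2, hgt_ne h1]

theorem hgt_cons_congr {a : Λ} {l l' : List Λ} (h : hgt G l = hgt G l') :
    hgt G (a :: l) = hgt G (a :: l') := by
  classical
  funext c
  by_cases h1 : c = a
  · subst h1
    rw [hgt_self, hgt_self, h]
  · rw [hgt_ne h1, hgt_ne h1, h]

theorem hgt_sh {l l' : List Λ} (h : Sh G l l') : hgt G l = hgt G l' := by
  induction h with
  | refl l => rfl
  | swap a b l h => exact hgt_swap h l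
  | cons a _ ih => exact hgt_cons_congr ih
  | trans _ _ ih ih' => exact ih.trans ih'

theorem hgt_le_cons (a : Λ) (l : List Λ) (c : Λ) : hgt G l c ≤ hgt G (a :: l) c := by
  classical
  by_cases h1 : c = a
  · subst h1
    rw [hgt_self]
    have h2 : hgt G l c ≤ (Finset.univ.filter (fun b => ¬ G.Adj c b)).sup (hgt G l) :=
      Finset.le_sup (f := hgt G l) (Finset.mem_filter.mpr ⟨Finset.mem_univ _, G.irrefl⟩)
    omega
  · rw [hgt_ne h1]

theorem hgt_cons_mono (a : Λ) {l l' : List Λ} (h : ∀ c, hgt G l c ≤ hgt G l' c) (c : Λ) :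
    hgt G (a :: l) c ≤ hgt G (a :: l') c := by
  classical
  by_cases h1 : c = a
  · subst h1
    rw [hgt_self, hgt_self]
    exact Nat.add_le_add_left (Finset.sup_mono_fun (fun b _ => h b)) 1
  · rw [hgt_ne h1, hgt_ne h1]
    exact h c

theorem hgt_le_length (l : List Λ) (c : Λ) : hgt G l c ≤ l.length := by
  classical
  induction l generalizing c with
  | nil => exact le_refl _
  | cons a l ih =>
    rw [List.length_cons]
    by_cases h1 : c = a
    · subst h1
      rw [hgt_self]
      have h2 : (Finset.univ.filter (fun b => ¬ G.Adj c b)).sup (hgt G l) ≤ l.length :=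
        Finset.sup_le (fun b _ => ih b)
      omega
    · rw [hgt_ne h1]
      exact (ih c).trans (Nat.le_succ _)

theorem length_le_sum_hgt (l : List Λ) : l.length ≤ ∑ c, hgt G l c := by
  classical
  induction l with
  | nil => exact Nat.zero_le _
  | cons a l ih =>
    rw [List.length_cons]
    have h1 : hgt G l a + 1 ≤ hgt G (a :: l) a := by
      rw [hgt_self]
      have h2 : hgt G l a ≤ (Finset.univ.filter (fun b => ¬ G.Adj a b)).sup (hgt G l) :=
        Finset.le_sup (f := hgt G l) (Finset.mem_filter.mpr ⟨Finset.mem_univ _, G.irrefl⟩)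
      omega
    have h3 : ∑ c, hgt G l c < ∑ c, hgt G (a :: l) c :=
      Finset.sum_lt_sum (fun c _ => hgt_le_cons a l c) ⟨a, Finset.mem_univ _, h1⟩
    omega

/-- heights of a trace -/
noncomputable def Tr.hgt : Tr G → Λ → ℕ :=
  Quotient.lift (fun l => Pool.CS.hgt G l.1) (fun _ _ h => hgt_sh h)

theorem Tr.hgt_mk (l : List Λ) (h : Red G l) : (Tr.mk l h).hgt = Pool.CS.hgt G l := rfl

omit [Fintype Λ] in
theorem Tr.τ_τ (a : Λ) (t : Tr G) : Tr.τ a (Tr.τ a t) = t := (trLS G).inv a t

omit [Fintype Λ] in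
theorem Tr.τ_comm {a b : Λ} (h : G.Adj a b) (t : Tr G) : Tr.τ a (Tr.τ b t) = Tr.τ b (Tr.τ a t) :=
  (trLS G).com a b h t

/-- the square lemma for heights -/
theorem Tr.hgt_square {a b : Λ} (hab : G.Adj a b) {R : ℕ} {t : Tr G} (h0 : ∀ c, t.hgt c ≤ R)
    (ha : ∀ c, (Tr.τ a t).hgt c ≤ R) (hb : ∀ c, (Tr.τ b t).hgt c ≤ R) (c : Λ) :
    (Tr.τ a (Tr.τ b t)).hgt c ≤ R := by
  classical
  have key : ∀ (a b : Λ), G.Adj a b → ∀ (l : List Λ) (hl : Red G l) (m : List Λ),
      del G a l = some m → del G b l = none → (∀ c, (Tr.τ b (Tr.mk l hl)).hgt c ≤ R) →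
      ∀ c, (Tr.τ a (Tr.τ b (Tr.mk l hl))).hgt c ≤ R := by
    intro a b hab l hl m h1 h2 h3 c
    have h5 : del G a (b :: l) = some (b :: m) := by rw [del_adj hab.symm, h1]; rfl
    have h6 : (Tr.τ b (Tr.mk l hl)).hgt = Pool.CS.hgt G (b :: l) := by
      rw [Tr.τ_mk, Tr.hgt_mk, act_none h2]
    have h7 : (Tr.τ a (Tr.τ b (Tr.mk l hl))).hgt = Pool.CS.hgt G (b :: m) := by
      rw [Tr.τ_mk, Tr.τ_mk, Tr.hgt_mk, act_none h2, act_some h5]
    rw [h7]
    refine le_trans ?_ (h6 ▸ h3 c)
    apply hgt_cons_mono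
    intro c
    rw [hgt_sh (del_some_sh h1)]
    exact hgt_le_cons a m c
  induction t using Tr.ind with
  | h l hl =>
    cases h1 : del G a l with
    | none =>
      cases h2 : del G b l with
      | none =>
        have h3 : del G a (b :: l) = none := (del_adj_none hab.symm l).mpr h1
        have h4 : (Tr.τ a (Tr.τ b (Tr.mk l hl))).hgt = Pool.CS.hgt G (a :: b :: l) := by
          rw [Tr.τ_mk, Tr.τ_mk, Tr.hgt_mk, act_none h2, act_none h3]
        have h5 : (Tr.τ a (Tr.mk l hl)).hgt = Pool.CS.hgt G (a :: l) := by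
          rw [Tr.τ_mk, Tr.hgt_mk, act_none h1]
        have h6 : (Tr.τ b (Tr.mk l hl)).hgt = Pool.CS.hgt G (b :: l) := by
          rw [Tr.τ_mk, Tr.hgt_mk, act_none h2]
        rw [h4]
        by_cases h7 : c = a
        · subst h7
          rw [hgt_self_adj hab]
          exact h5 ▸ ha c
        · rw [hgt_ne h7]
          exact h6 ▸ hb c
      | some m =>
        rw [Tr.τ_comm hab]
        exact key b a hab.symm l hl m h2 h1 ha c
    | some ma =>
      cases h2 : del G b l with
      | none => exact key a b hab l hl ma h1 h2 hb c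
      | some mb =>
        obtain ⟨m', h3, h4⟩ := del_sh (del_some_sh h1) mb h2
        rw [del_adj hab, Option.map_eq_some_iff] at h3
        obtain ⟨mab, h5, h6⟩ := h3
        have h7 : Sh G l (a :: b :: mab) :=
          (del_some_sh h1).trans (Sh.cons a (del_some_sh h5))
        have h8 : (Tr.τ a (Tr.τ b (Tr.mk l hl))).hgt = Pool.CS.hgt G mab := by
          rw [Tr.τ_comm hab, Tr.τ_mk, Tr.τ_mk, Tr.hgt_mk, act_some h1, act_some h5]
        rw [h8]
        refine le_trans ?_ (h0 c)
        rw [Tr.hgt_mk, hgt_sh h7]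
        exact (hgt_le_cons b mab c).trans (hgt_le_cons a _ c)

/-- traces of height at most `R` -/
abbrev CR (G : SimpleGraph Λ) (R : ℕ) : Type := {t : Tr G // ∀ c, t.hgt c ≤ R}

instance CR.finite (R : ℕ) : Finite (CR G R) := by
  classical
  have h1 : Finite {l : List Λ // l.length ≤ Fintype.card Λ * R} :=
    (List.finite_length_le Λ (Fintype.card Λ * R)).to_subtype
  have h2 : ∀ t : CR G R, ∃ l : {l : List Λ // l.length ≤ Fintype.card Λ * R},
      ∃ h : Red G l.1, Tr.mk l.1 h = t.1 := by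
    rintro ⟨t, ht⟩
    induction t using Tr.ind with
    | h l hl =>
      refine ⟨⟨l, ?_⟩, hl, rfl⟩
      refine (length_le_sum_hgt (G := G) l).trans ?_
      calc ∑ c, hgt G l c ≤ ∑ _c : Λ, R := Finset.sum_le_sum (fun c _ => ht c)
        _ = Fintype.card Λ * R := by rw [Finset.sum_const, smul_eq_mul]; rfl
  choose f hf using h2
  refine Finite.of_injective f ?_
  intro t t' h
  obtain ⟨h3, h4⟩ := hf t
  obtain ⟨h5, h6⟩ := hf t'
  apply Subtype.ext
  rw [← h4, ← h6, Tr.mk_eq, h]
  exact Sh.refl _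

open Classical in
/-- the truncated action -/
noncomputable def CR.τ {R : ℕ} (a : Λ) (t : CR G R) : CR G R :=
  if h : ∀ c, (Tr.τ a t.1).hgt c ≤ R then ⟨Tr.τ a t.1, h⟩ else t

theorem CR.τ_pos {R : ℕ} {a : Λ} {t : CR G R} (h : ∀ c, (Tr.τ a t.1).hgt c ≤ R) :
    CR.τ a t = ⟨Tr.τ a t.1, h⟩ := by rw [CR.τ, dif_pos h]

theorem CR.τ_neg {R : ℕ} {a : Λ} {t : CR G R} (h : ¬ ∀ c, (Tr.τ a t.1).hgt c ≤ R) :
    CR.τ a t = t := by rw [CR.τ, dif_neg h]

/-- the truncated action as a labelled set -/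
noncomputable def cLS (G : SimpleGraph Λ) (R : ℕ) : LS G (CR G R) where
  τ := CR.τ
  inv := by
    intro a t
    by_cases h : ∀ c, (Tr.τ a t.1).hgt c ≤ R
    · have h1 : ∀ c, (Tr.τ a (⟨Tr.τ a t.1, h⟩ : CR G R).1).hgt c ≤ R := by
        intro c
        change (Tr.τ a (Tr.τ a t.1)).hgt c ≤ R
        rw [Tr.τ_τ]; exact t.2 c
      rw [CR.τ_pos h, CR.τ_pos h1]
      exact Subtype.ext (Tr.τ_τ a t.1)
    · rw [CR.τ_neg h, CR.τ_neg h]
  com := by
    have key : ∀ (a b : Λ), G.Adj a b → ∀ (t : CR G R) (ha : ∀ c, (Tr.τ a t.1).hgt c ≤ R),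
        ¬ (∀ c, (Tr.τ b t.1).hgt c ≤ R) →
        CR.τ b (⟨Tr.τ a t.1, ha⟩ : CR G R) = ⟨Tr.τ a t.1, ha⟩ := by
      intro a b hab t ha hb
      apply CR.τ_neg
      intro h
      apply hb
      change ∀ c, (Tr.τ b (Tr.τ a t.1)).hgt c ≤ R at h
      have h1 : ∀ c, (Tr.τ a (Tr.τ a t.1)).hgt c ≤ R := by
        intro c; rw [Tr.τ_τ]; exact t.2 c
      have h2 := Tr.hgt_square hab.symm ha h h1
      rw [Tr.τ_τ] at h2
      exact h2
    intro a b hab t
    by_cases ha : ∀ c, (Tr.τ a t.1).hgt c ≤ R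
    · by_cases hb : ∀ c, (Tr.τ b t.1).hgt c ≤ R
      · have h1 := Tr.hgt_square hab t.2 ha hb
        have h2 := Tr.hgt_square hab.symm t.2 hb ha
        rw [CR.τ_pos ha, CR.τ_pos hb, CR.τ_pos (t := (⟨Tr.τ b t.1, hb⟩ : CR G R)) h1,
          CR.τ_pos (t := (⟨Tr.τ a t.1, ha⟩ : CR G R)) h2]
        exact Subtype.ext (Tr.τ_comm hab t.1)
      · rw [CR.τ_neg hb, CR.τ_pos ha, key a b hab t ha hb]
    · by_cases hb : ∀ c, (Tr.τ b t.1).hgt c ≤ R
      · rw [CR.τ_neg ha, CR.τ_pos hb, key b a hab.symm t hb ha]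
      · rw [CR.τ_neg ha, CR.τ_neg hb, CR.τ_neg ha]

/-- the base point -/
def CR.e (G : SimpleGraph Λ) (R : ℕ) : CR G R := ⟨Tr.mk [] red_nil, fun _ => Nat.zero_le _⟩

theorem cLS_r {R : ℕ} (l : List Λ) (h : l.length ≤ R) :
    ((cLS G R).r (CR.e G R) (wp G l)).1 = tr (wp G l) := by
  induction l using List.reverseRecOn with
  | nil => rw [wp_nil, LS.r_one, tr_one]; rfl
  | append_singleton l a ih =>
    rw [List.length_append, List.length_singleton] at h
    have h1 := ih (by omega)
    rw [wp_append, wp_cons, wp_nil, mul_one, LS.r_mul, LS.r_rg, tr_mul_rg, ← h1]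
    have h2 : ∀ c, (Tr.τ a ((cLS G R).r (CR.e G R) (wp G l)).1).hgt c ≤ R := by
      intro c
      rw [h1, ← tr_mul_rg]
      obtain ⟨l', h3, h4⟩ := exists_red (wp G l * rg G a)
      rw [← h4, tr_wp h3, Tr.hgt_mk]
      refine (hgt_le_length _ c).trans ?_
      rw [List.length_reverse, ← len_wp h3, h4]
      have h5 := len_wp_le (G := G) (l ++ [a])
      rw [wp_append, wp_cons, wp_nil, mul_one, List.length_append, List.length_singleton] at h5
      omega
    change (CR.τ a ((cLS G R).r (CR.e G R) (wp G l))).1 = _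
    rw [CR.τ_pos h2]

theorem cLS_faithful {R : ℕ} {c : RC G} (h : (cLS G R).hom c = 1) (hc : len c ≤ R) : c = 1 := by
  obtain ⟨l, h1, h2⟩ := exists_red c⁻¹
  have h3 : l.length ≤ R := by rw [← len_wp h1, h2, len_inv]; exact hc
  have h4 := cLS_r (G := G) l h3
  have h5 : (cLS G R).r (CR.e G R) (wp G l) = CR.e G R := by
    rw [h2, LS.r, inv_inv, h]; rfl
  rw [h5, tr_wp h1] at h4
  have h6 := (Tr.mk_eq _ _).mp h4
  have h7 : l.reverse.length = 0 := by rw [← h6.length_eq]; rfl
  rw [List.length_reverse, List.length_eq_zero_iff] at h7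
  subst h7
  rw [wp_nil] at h2
  exact inv_eq_one.mp h2.symm

open Classical in
/-- the sign characters -/
noncomputable def sgn (G : SimpleGraph Λ) : RC G →* Multiplicative (Λ → ZMod 2) :=
  rlift G (fun a => Multiplicative.ofAdd (Pi.single a 1))
    (fun a => by
      rw [← ofAdd_add, ← Pi.single_add]
      have : (1 : ZMod 2) + 1 = 0 := by decide
      rw [this, Pi.single_zero]; rfl)
    (fun a b _ => mul_comm _ _)

omit [Fintype Λ] in
open Classical in
theorem sgn_rg (a : Λ) : sgn G (rg G a) = Multiplicative.ofAdd (Pi.single a 1) := by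
  rw [sgn, rlift_rg]

/-- right multiplication by the images of the generators -/
noncomputable def qLS {H : Type} [Group H] (φ : RC G →* H) : LS G φ.range where
  τ := fun a q => q * ⟨φ (rg G a), ⟨_, rfl⟩⟩
  inv := by
    intro a q
    rw [mul_assoc]
    have : (⟨φ (rg G a), ⟨_, rfl⟩⟩ : φ.range) * ⟨φ (rg G a), ⟨_, rfl⟩⟩ = 1 := by
      apply Subtype.ext
      change φ (rg G a) * φ (rg G a) = 1
      rw [← map_mul, rg_mul_self, map_one]
    rw [this, mul_one]
  com := by
    intro a b h q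
    rw [mul_assoc, mul_assoc]
    congr 1
    apply Subtype.ext
    change φ (rg G b) * φ (rg G a) = φ (rg G a) * φ (rg G b)
    rw [← map_mul, ← map_mul, rg_comm h]

omit [Fintype Λ] in
theorem qLS_r {H : Type} [Group H] (φ : RC G →* H) (q : φ.range) (c : RC G) :
    ((qLS φ).r q c).1 = q.1 * φ c := by
  induction c using rac_induction_right with
  | h1 => rw [LS.r_one, map_one, mul_one]
  | h2 a c ih =>
    rw [LS.r_mul, LS.r_rg]
    change ((qLS φ).r q c).1 * φ (rg G a) = _
    rw [ih, map_mul, mul_assoc]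

end

open Classical in
/-- **Residual finiteness**: finite transitive labelled sets in which no short element has a fixed point,
compatible with the sign characters. -/
theorem exists_finite_LS {Λ : Type} [Finite Λ] (G : SimpleGraph Λ) (R : ℕ) :
    ∃ (Q : Type) (_ : Finite Q) (_ : Nonempty Q) (L : LS G Q) (ε : Q → Λ → ZMod 2),
      (∀ q q', ∃ c, L.r q c = q') ∧ (∀ q c, L.r q c = q → len c ≤ R → c = 1) ∧
      (∀ q a, ε (L.τ a q) a = ε q a + 1) ∧ (∀ q a b, b ≠ a → ε (L.τ a q) b = ε q b) := by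
  have := Fintype.ofFinite Λ
  let φ : RC G →* Equiv.Perm (CR G R) × Multiplicative (Λ → ZMod 2) :=
    MonoidHom.prod (cLS G R).hom (sgn G)
  have : Finite (Equiv.Perm (CR G R)) := inferInstance
  have : Finite (Multiplicative (Λ → ZMod 2)) := inferInstance
  have : Finite (Equiv.Perm (CR G R) × Multiplicative (Λ → ZMod 2)) := inferInstance
  have : Finite φ.range := inferInstance
  refine ⟨φ.range, inferInstance, ⟨1⟩, qLS φ, fun q => Multiplicative.toAdd q.1.2, ?_, ?_, ?_, ?_⟩
  · rintro ⟨q, c, rfl⟩ ⟨q', c', rfl⟩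
    refine ⟨c⁻¹ * c', ?_⟩
    apply Subtype.ext
    rw [qLS_r]
    change φ c * φ (c⁻¹ * c') = φ c'
    rw [← map_mul, mul_inv_cancel_left]
  · intro q c h hc
    have h1 := qLS_r φ q c
    rw [h] at h1
    have h2 : φ c = 1 := by
      have h3 : q.1 * 1 = q.1 * φ c := by rw [mul_one]; exact h1
      exact (mul_left_cancel h3).symm
    have h3 : (cLS G R).hom c = 1 := congrArg Prod.fst h2
    exact cLS_faithful h3 hc
  · intro q a
    change Multiplicative.toAdd (q.1 * φ (rg G a)).2 a = _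
    have h1 : (φ (rg G a)).2 = Multiplicative.ofAdd (Pi.single a 1) := sgn_rg a
    rw [Prod.snd_mul, h1, toAdd_mul, toAdd_ofAdd, Pi.add_apply, Pi.single_eq_same]
  · intro q a b hb
    change Multiplicative.toAdd (q.1 * φ (rg G a)).2 b = _
    have h1 : (φ (rg G a)).2 = Multiplicative.ofAdd (Pi.single a 1) := sgn_rg a
    rw [Prod.snd_mul, h1, toAdd_mul, toAdd_ofAdd, Pi.add_apply, Pi.single_eq_of_ne hb, add_zero]

end Pool.CS
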