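import Pool.Agent.Work.MP_727c87_cx.Defs

set_option autoImplicit false

/-! # Every model has a universal covering (`Stmt_UCE`) -/

namespace Pool.CX

open Pool.CS

namespace Cov
variable {Mo : Model}

/-- `a` as a permutation -/
def aP (C : Cov Mo) : Equiv.Perm C.Y := ⟨C.a, C.a, C.a_a, C.a_a⟩

/-- the action of the free group on the letters `a = false`, `r = true` -/
def rep (C : Cov Mo) : FreeGroup Bool →* Equiv.Perm C.Y :=
  FreeGroup.lift (fun x => if x then C.r else C.aP)

@[simp] theorem rep_a (C : Cov Mo) : C.rep (FreeGroup.of false) = C.aP := by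
  simp [rep]

@[simp] theorem rep_r (C : Cov Mo) : C.rep (FreeGroup.of true) = C.r := by
  simp [rep]

@[simp] theorem aP_apply (C : Cov Mo) (y : C.Y) : C.aP y = C.a y := rfl

/-- the projection is equivariant -/
theorem p_rep (C : Cov Mo) (w : FreeGroup Bool) :
    ∀ y, (C.p (C.rep w y) : Mo.base.Y) = Mo.base.rep w (C.p y : Mo.base.Y) := by
  induction w using FreeGroup.induction_on with
  | C1 => intro y; simp
  | of x =>
    intro y
    cases x with
    | false => rw [rep_a, rep_a]; exact C.p_a y
    | true => rw [rep_r, rep_r]; exact C.p_r y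
  | inv_of x ih =>
    intro y
    have h := ih ((C.rep (FreeGroup.of x))⁻¹ y)
    rw [map_inv, map_inv]
    refine Equiv.Perm.eq_inv_iff_eq.2 ?_
    refine h.symm.trans ?_
    exact congrArg C.p (Equiv.apply_symm_apply (C.rep (FreeGroup.of x)) y)
  | mul u v hu hv =>
    intro y
    rw [map_mul, map_mul, Equiv.Perm.mul_apply, Equiv.Perm.mul_apply, hu, hv]

end Cov

section
variable (Mo : Model) (y₀ : Mo.F)

/-- the words which fix the base point of every pointed covering -/
def ucN : Subgroup (FreeGroup Bool) where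
  carrier := {w | ∀ (C : Cov Mo) (y : C.Y), C.p y = y₀ → C.rep w y = y}
  one_mem' := by intro C y _; simp
  mul_mem' := by
    intro u v hu hv C y hy
    rw [map_mul, Equiv.Perm.mul_apply, hv C y hy, hu C y hy]
  inv_mem' := by
    intro u hu C y hy
    rw [map_inv, Equiv.Perm.inv_eq_iff_eq]
    exact (hu C y hy).symm

theorem mem_ucN (w : FreeGroup Bool) :
    w ∈ ucN Mo y₀ ↔ ∀ (C : Cov Mo) (y : C.Y), C.p y = y₀ → C.rep w y = y := Iff.rfl

/-- the flags of the universal covering -/
abbrev ucY : Type := FreeGroup Bool ⧸ ucN Mo y₀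

/-- the orbit map to a pointed covering -/
def ucMap (C : Cov Mo) (y : C.Y) (hy : C.p y = y₀) : ucY Mo y₀ → C.Y :=
  Quotient.lift (fun w => C.rep w y) (by
    intro u v huv
    have h : u⁻¹ * v ∈ ucN Mo y₀ := (QuotientGroup.leftRel_apply).1 huv
    have h2 := h C y hy
    rw [map_mul, map_inv, Equiv.Perm.mul_apply, Equiv.Perm.inv_eq_iff_eq] at h2
    exact h2.symm)

@[simp] theorem ucMap_mk (C : Cov Mo) (y : C.Y) (hy : C.p y = y₀) (w : FreeGroup Bool) :
    ucMap Mo y₀ C y hy (w : ucY Mo y₀) = C.rep w y := rfl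

theorem mk_eq_of {u v : FreeGroup Bool}
    (h : ∀ (C : Cov Mo) (y : C.Y), C.p y = y₀ → C.rep u y = C.rep v y) :
    (u : ucY Mo y₀) = (v : ucY Mo y₀) := by
  rw [QuotientGroup.eq]
  intro C y hy
  rw [map_mul, map_inv, Equiv.Perm.mul_apply, Equiv.Perm.inv_eq_iff_eq]
  exact (h C y hy).symm

theorem smul_mk (u v : FreeGroup Bool) :
    u • (v : ucY Mo y₀) = ((u * v : FreeGroup Bool) : ucY Mo y₀) := rfl

/-- the rotation -/
def ucr : Equiv.Perm (ucY Mo y₀) where
  toFun x := FreeGroup.of true • x
  invFun x := (FreeGroup.of true)⁻¹ • x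
  left_inv x := inv_smul_smul _ x
  right_inv x := smul_inv_smul _ x

theorem ucr_pow (n : ℕ) (x : ucY Mo y₀) : (ucr Mo y₀ ^ n) x = (FreeGroup.of true) ^ n • x := by
  induction n with
  | zero => simp
  | succ n ih =>
    rw [pow_succ', Equiv.Perm.mul_apply, ih, pow_succ', mul_smul]
    rfl

/-- the universal covering -/
def uc : Cov Mo where
  Y := ucY Mo y₀
  a x := FreeGroup.of false • x
  r := ucr Mo y₀
  p := ucMap Mo y₀ Mo.base y₀ rfl
  a_a := by
    intro x
    induction x using QuotientGroup.induction_on with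
    | H w =>
      rw [smul_mk, smul_mk]
      apply mk_eq_of
      intro C y hy
      simp [C.a_a]
  ab := by
    intro x
    induction x using QuotientGroup.induction_on with
    | H w =>
      change FreeGroup.of false • (FreeGroup.of true)⁻¹ • FreeGroup.of false • FreeGroup.of true •
          (w : ucY Mo y₀) = (FreeGroup.of true)⁻¹ • FreeGroup.of false • FreeGroup.of true •
          FreeGroup.of false • (w : ucY Mo y₀)
      simp only [smul_mk]
      apply mk_eq_of
      intro C y hy
      simp only [map_mul, map_inv, Cov.rep_a, Cov.rep_r, Equiv.Perm.mul_apply, Cov.aP_apply]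
      exact C.ab _
  p_a := by
    intro x
    induction x using QuotientGroup.induction_on with
    | H w =>
      rw [smul_mk, ucMap_mk, ucMap_mk, map_mul, Equiv.Perm.mul_apply, Cov.rep_a]
      rfl
  p_r := by
    intro x
    induction x using QuotientGroup.induction_on with
    | H w =>
      change ucMap Mo y₀ Mo.base y₀ rfl (FreeGroup.of true • (w : ucY Mo y₀)) = _
      rw [smul_mk, ucMap_mk, ucMap_mk, map_mul, Equiv.Perm.mul_apply, Cov.rep_r]
      rfl
  nd := by
    intro x
    induction x using QuotientGroup.induction_on with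
    | H w =>
      intro hD
      rw [ucr_pow, smul_mk]
      apply mk_eq_of
      intro C y hy
      rw [map_mul, map_pow, Equiv.Perm.mul_apply, Cov.rep_r]
      apply C.nd
      rw [C.p_rep, hy]
      exact hD

theorem uc_rep (w : FreeGroup Bool) : ∀ x : ucY Mo y₀, (uc Mo y₀).rep w x = w • x := by
  induction w using FreeGroup.induction_on with
  | C1 => intro x; rw [map_one, one_smul]; rfl
  | of x =>
    intro z
    cases x with
    | false => rw [Cov.rep_a]; rfl
    | true => rw [Cov.rep_r]; rfl
  | inv_of x ih =>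
    intro z
    rw [map_inv]
    refine Equiv.Perm.inv_eq_iff_eq.2 ?_
    exact ((ih _).trans (smul_inv_smul (FreeGroup.of x) z)).symm
  | mul u v hu hv =>
    intro z
    rw [map_mul, Equiv.Perm.mul_apply, hv, mul_smul]
    exact hu _

end

namespace Cov
variable {Mo : Model}

/-- the orbits of the free group are connected by elementary moves -/
theorem reach_rep (C : Cov Mo) (w : FreeGroup Bool) :
    ∀ y, Relation.ReflTransGen C.Elem y (C.rep w y) := by
  have key : ∀ x : Bool, ∀ y, C.Elem y (C.rep (FreeGroup.of x) y) ∧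
      C.Elem y (C.rep (FreeGroup.of x)⁻¹ y) := by
    intro x y
    cases x with
    | false =>
      rw [map_inv, rep_a]
      exact ⟨Or.inl rfl, Or.inl rfl⟩
    | true =>
      rw [map_inv, rep_r]
      exact ⟨Or.inr (Or.inl rfl), Or.inr (Or.inr rfl)⟩
  induction w using FreeGroup.induction_on with
  | C1 => intro y; rw [map_one]; exact Relation.ReflTransGen.refl
  | of x => intro y; exact Relation.ReflTransGen.single (key x y).1
  | inv_of x _ => intro y; exact Relation.ReflTransGen.single (key x y).2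
  | mul u v hu hv =>
    intro y
    rw [map_mul, Equiv.Perm.mul_apply]
    exact (hv y).trans (hu _)

end Cov

/-- every model has a universal covering -/
theorem uc_univ (Mo : Model) (y₀ : Mo.F) : (uc Mo y₀).Univ where
  ne := ⟨((1 : FreeGroup Bool) : ucY Mo y₀)⟩
  conn := by
    intro x x'
    obtain ⟨w, rfl⟩ := QuotientGroup.mk_surjective (s := ucN Mo y₀) x
    obtain ⟨w', rfl⟩ := QuotientGroup.mk_surjective (s := ucN Mo y₀) x'
    have h := (uc Mo y₀).reach_rep (w' * w⁻¹) (w : ucY Mo y₀)
    rw [uc_rep] at h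
    have h2 : (w' * w⁻¹) • (w : ucY Mo y₀) = ((w' : FreeGroup Bool) : ucY Mo y₀) := by
      rw [smul_mk]; simp
    rw [h2] at h
    exact h
  map := by
    intro C' x y' hxy
    obtain ⟨w, rfl⟩ := QuotientGroup.mk_surjective (s := ucN Mo y₀) x
    have hz : C'.p (C'.rep w⁻¹ y') = y₀ := by
      rw [C'.p_rep, ← hxy]
      change Mo.base.rep w⁻¹ (Mo.base.rep w y₀) = y₀
      rw [map_inv]
      simp
    refine ⟨ucMap Mo y₀ C' (C'.rep w⁻¹ y') hz, ?_, ?_, ?_, ?_⟩
    · change C'.rep w (C'.rep w⁻¹ y') = y'
      rw [map_inv]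
      simp
    · intro z
      obtain ⟨u, rfl⟩ := QuotientGroup.mk_surjective (s := ucN Mo y₀) z
      change C'.rep (FreeGroup.of false * u) _ = C'.a (C'.rep u _)
      rw [map_mul, Equiv.Perm.mul_apply, Cov.rep_a]
      rfl
    · intro z
      obtain ⟨u, rfl⟩ := QuotientGroup.mk_surjective (s := ucN Mo y₀) z
      change C'.rep (FreeGroup.of true * u) _ = C'.r (C'.rep u _)
      rw [map_mul, Equiv.Perm.mul_apply, Cov.rep_r]
    · intro z
      obtain ⟨u, rfl⟩ := QuotientGroup.mk_surjective (s := ucN Mo y₀) z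
      change C'.p (C'.rep u (C'.rep w⁻¹ y')) = Mo.base.rep u y₀
      rw [C'.p_rep, hz]

theorem stmt_UCE : Stmt_UCE := by
  intro Mo
  obtain ⟨q⟩ := Mo.nonempty
  exact ⟨uc Mo (q, 0), uc_univ Mo (q, 0)⟩

end Pool.CX
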