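import Pool.Agent.Work.MP_727c87_cx.Defs
import Pool.Agent.Work.MP_727c87_cx.Racg

set_option autoImplicit false

/-!
# T_UP, geometric half: arcs, side functions, development

* `arc C y`    : the arc through the side of the flag `y`
* `exists_side`: every arc cuts the corners of a universal covering in two sides
* `dev`        : development to the reflection group
* `F1`, `F2`   : an arc meets a chamber at most once, two arcs meet in at most one chamber
* `walk`       : the flags of an arc in linear order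
* `sepc`       : two corners of a non-defect chamber are separated by an arc
-/

namespace Pool.CX.UP

open Pool.CS

/-! ### rigid words -/

theorem far_ne {i j : ZMod 12} (h : Far i j) : i ≠ j := by
  revert h; revert i j; decide

theorem far_not_adj {i j : ZMod 12} (h : Far i j) : ¬ G12.Adj i j := by
  revert h; revert i j; decide

/-- rigid words -/
def Rigid (l : List (ZMod 12)) : Prop := l.IsChain Far

theorem Rigid.red {l : List (ZMod 12)} (h : Rigid l) : Red G12 l := by
  induction l with
  | nil => trivial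
  | cons a l ih =>
    refine red_cons.2 ⟨?_, ih ?_⟩
    · cases l with
      | nil => exact del_nil _
      | cons b l =>
        have hab : Far a b := (List.isChain_cons_cons.1 h).1
        exact del_other (far_ne hab).symm (fun h' => far_not_adj hab h'.symm) _
    · exact h.tail

theorem Rigid.sh {l l' : List (ZMod 12)} (h : Sh G12 l l') : Rigid l → l' = l := by
  induction h with
  | refl l => intro _; rfl
  | swap a b l hab => intro h; exact absurd hab (far_not_adj (List.isChain_cons_cons.1 h).1)
  | cons a h ih => intro h'; rw [ih h'.tail]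
  | trans h h' ih ih' => intro h1; have e := ih h1; subst e; exact ih' h1

/-- two rigid words with the same product are equal -/
theorem Rigid.eq {l l' : List (ZMod 12)} (h : Rigid l) (h' : Rigid l')
    (he : wp G12 l = wp G12 l') : l = l' :=
  (Rigid.sh (red_sh h.red h'.red he) h).symm

/-! ### flags of a chamber -/

variable {Mo : Model} (C : Cov Mo)

/-- the chamber of the flag is not a defect -/
def ND (y : C.Y) : Prop := (C.p y).1 ∉ Mo.D

/-- the side label of the flag -/
def lab (y : C.Y) : ZMod 12 := (C.p y).2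

theorem p_r_pow (y : C.Y) (n : ℕ) : C.p ((C.r ^ n) y) = ((C.p y).1, (C.p y).2 + n) := by
  induction n with
  | zero => simp
  | succ n ih =>
    rw [pow_succ', Equiv.Perm.mul_apply, C.p_r, ih]
    simp [Model.fr, add_assoc]

theorem lab_r_pow (y : C.Y) (n : ℕ) : lab C ((C.r ^ n) y) = lab C y + n := by
  rw [lab, p_r_pow]; rfl

theorem lab_a (y : C.Y) : lab C (C.a y) = lab C y := by
  rw [lab, C.p_a]; rfl

theorem nd_r_pow (y : C.Y) (n : ℕ) : ND C ((C.r ^ n) y) ↔ ND C y := by
  rw [ND, p_r_pow, ND]

theorem nd_r (y : C.Y) : ND C (C.r y) ↔ ND C y := nd_r_pow C y 1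

theorem r_pow_mod {y : C.Y} (h : ND C y) (n : ℕ) : (C.r ^ n) y = (C.r ^ (n % 12)) y := by
  have h12 : ∀ k, (C.r ^ (12 * k)) y = y := by
    intro k
    induction k with
    | zero => simp
    | succ k ih => rw [Nat.mul_succ, pow_add, Equiv.Perm.mul_apply, C.nd y h, ih]
  conv_lhs => rw [← Nat.mod_add_div n 12, pow_add, Equiv.Perm.mul_apply, h12]

theorem r_pow_eq {y : C.Y} (h : ND C y) {n n' : ℕ} (e : (n : ZMod 12) = n') :
    (C.r ^ n) y = (C.r ^ n') y := by
  rw [r_pow_mod C h n, r_pow_mod C h n', (ZMod.natCast_eq_natCast_iff' n n' 12).1 e]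

/-- the flag with label `j` in the chamber of `y` (meaningful over non-defect chambers) -/
def fl (y : C.Y) (j : ZMod 12) : C.Y := (C.r ^ (j - lab C y).val) y

theorem lab_fl (y : C.Y) (j : ZMod 12) : lab C (fl C y j) = j := by
  rw [fl, lab_r_pow]
  simp

theorem fl_self (y : C.Y) : fl C y (lab C y) = y := by
  simp [fl]

theorem r_pow_fl {y : C.Y} (h : ND C y) (n : ℕ) : (C.r ^ n) y = fl C y (lab C y + n) := by
  refine r_pow_eq C h ?_
  simp

theorem r_pow_fl' {y : C.Y} (h : ND C y) (j : ZMod 12) (n : ℕ) :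
    (C.r ^ n) (fl C y j) = fl C y (j + n) := by
  rw [fl, ← Equiv.Perm.mul_apply, ← pow_add]
  refine r_pow_eq C h ?_
  simp
  ring

theorem fl_fl {y : C.Y} (h : ND C y) (i j : ZMod 12) : fl C (fl C y i) j = fl C y j := by
  rw [fl, lab_fl, r_pow_fl' C h]
  simp

theorem nd_fl (y : C.Y) (j : ZMod 12) : ND C (fl C y j) ↔ ND C y := nd_r_pow C y _

theorem p_fl (y : C.Y) (j : ZMod 12) : C.p (fl C y j) = ((C.p y).1, j) := by
  have h := lab_fl C y j
  refine Prod.ext ?_ h
  rw [fl, p_r_pow]

theorem m_eq (y : C.Y) : C.m y = fl C y (Mo.mu (C.p y).1 (lab C y)) := rfl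

theorem m_fl {y : C.Y} (h : ND C y) (j : ZMod 12) : C.m (fl C y j) = fl C y (Mo.mu (C.p y).1 j) := by
  rw [m_eq, fl_fl C h, p_fl, lab_fl]

theorem nd_m (y : C.Y) : ND C (C.m y) ↔ ND C y := nd_r_pow C y _

theorem m_m {y : C.Y} (h : ND C y) : C.m (C.m y) = y := by
  rw [m_eq C y, m_fl C h, (Mo.good _).inv, fl_self]

theorem lab_m (y : C.Y) : lab C (C.m y) = Mo.mu (C.p y).1 (lab C y) := by
  rw [m_eq, lab_fl]

/-! ### arcs -/

/-- the equivalence relation `SameArc` -/
def arcSetoid : Setoid C.Y :=
  Relation.EqvGen.setoid (fun y y' => y' = C.a y ∨ ((C.p y).1 ∉ Mo.D ∧ y' = C.m y))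

/-- the arcs of the covering -/
def Arc : Type := Quotient (arcSetoid C)

/-- the arc through the side of the flag `y` -/
def arc (y : C.Y) : Arc C := Quotient.mk (arcSetoid C) y

theorem arc_eq {y y' : C.Y} : arc C y = arc C y' ↔ C.SameArc y y' := Quotient.eq (r := arcSetoid C)

theorem arc_a (y : C.Y) : arc C (C.a y) = arc C y :=
  ((arc_eq C).2 (Relation.EqvGen.rel _ _ (Or.inl rfl))).symm

theorem arc_m {y : C.Y} (h : ND C y) : arc C (C.m y) = arc C y :=
  ((arc_eq C).2 (Relation.EqvGen.rel _ _ (Or.inr ⟨h, rfl⟩))).symm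


/-! ### twisted products -/

section twist
variable {C} {T : Type}

/-- the rotation of the twisted product -/
def tr (ρ : C.Y → Equiv.Perm T) : Equiv.Perm (C.Y × T) where
  toFun x := (C.r x.1, ρ x.1 x.2)
  invFun x := (C.r.symm x.1, (ρ (C.r.symm x.1)).symm x.2)
  left_inv x := by simp
  right_inv x := by simp

/-- sections of twisted products over a universal covering -/
theorem exists_section (hC : C.Univ) (α : C.Y → T → T) (ρ : C.Y → Equiv.Perm T)
    (haa : ∀ y t, α (C.a y) (α y t) = t)
    (hab : ∀ y t, α (C.b y) ((ρ (C.b y)).symm (α (C.r y) (ρ y t))) =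
      (ρ (C.b (C.a y))).symm (α (C.r (C.a y)) (ρ (C.a y) (α y t))))
    (hnd : ∀ y t, ND C y → (tr ρ ^ 12) (y, t) = (y, t)) (t0 : T) :
    ∃ s : C.Y → T, (∀ y, s (C.a y) = α y (s y)) ∧ ∀ y, s (C.r y) = ρ y (s y) := by
  let C' : Cov Mo :=
    { Y := C.Y × T
      a := fun x => (C.a x.1, α x.1 x.2)
      r := tr ρ
      p := fun x => C.p x.1
      a_a := fun x => Prod.ext (C.a_a _) (haa _ _)
      ab := fun x => Prod.ext (C.ab _) (hab _ _)
      p_a := fun x => C.p_a _
      p_r := fun x => C.p_r _
      nd := fun x h => hnd _ _ h }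
  obtain ⟨y0⟩ := hC.ne
  obtain ⟨φ, h0, ha, hr, -⟩ := hC.map C' y0 (y0, t0) rfl
  have h1 : ∀ z, (φ z).1 = z := by
    intro z
    have h := hC.conn y0 z
    induction h with
    | refl => rw [h0]
    | @tail w w' _ h ih =>
      rcases h with h | h | h
      · rw [h, ha]; exact congrArg C.a ih
      · rw [h, hr]; exact congrArg C.r ih
      · have e : φ (C.r (C.r.symm w)) = C'.r (φ (C.r.symm w)) := hr _
        rw [Equiv.apply_symm_apply] at e
        rw [h]
        apply C.r.injective
        have e2 := congrArg Prod.fst e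
        rw [Equiv.apply_symm_apply]
        exact e2.symm.trans ih
  refine ⟨fun y => (φ y).2, fun y => ?_, fun y => ?_⟩
  · have := congrArg Prod.snd (ha y)
    change (φ (C.a y)).2 = α (φ y).1 (φ y).2 at this
    rw [h1] at this
    exact this
  · have := congrArg Prod.snd (hr y)
    change (φ (C.r y)).2 = ρ (φ y).1 (φ y).2 at this
    rw [h1] at this
    exact this

theorem r_b (y : C.Y) : C.r (C.b y) = C.a (C.r y) := by
  rw [Cov.b, Equiv.apply_symm_apply]

end twist

/-! ### development -/

theorem exists_dev (hC : C.Univ) : ∃ d : C.Y → W, (∀ y, d (C.a y) = d y * rg G12 (lab C y)) ∧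
    ∀ y, d (C.r y) = d y := by
  have hlr : ∀ y, lab C (C.r y) = lab C y + 1 := fun y => by
    rw [lab, C.p_r]; rfl
  have hlb : ∀ y, lab C (C.b y) = lab C y := fun y => by
    have := hlr (C.b y)
    rw [r_b, lab_a, hlr] at this
    exact (add_right_cancel this).symm
  refine exists_section (C := C) hC (fun y t => t * rg G12 (lab C y)) (fun _ => 1) ?_ ?_ ?_ 1
  · intro y t
    rw [lab_a, mul_assoc, rg_mul_self, mul_one]
  · intro y t
    have e1 : (1 : Equiv.Perm W).symm = 1 := rfl
    simp only [Equiv.Perm.coe_one, id_eq, e1]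
    rw [hlb, hlr, hlr, lab_a, mul_assoc, mul_assoc]
    congr 1
    exact (rg_comm (G := G12) (Or.inl rfl)).symm
  · intro y t h
    have : ∀ n : ℕ, (tr (C := C) (fun _ => (1 : Equiv.Perm W)) ^ n) (y, t) = ((C.r ^ n) y, t) := by
      intro n
      induction n with
      | zero => rfl
      | succ n ih => rw [pow_succ', Equiv.Perm.mul_apply, ih, pow_succ', Equiv.Perm.mul_apply]; rfl
    rw [this, C.nd y h]

/-! ### side functions -/

open Classical in
/-- indicator of an arc -/
noncomputable def ind (A : Arc C) (y : C.Y) : ZMod 2 := if arc C y = A then 1 else 0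

theorem ind_a (A : Arc C) (y : C.Y) : ind C A (C.a y) = ind C A y := by
  rw [ind, ind, arc_a]

theorem ind_m (A : Arc C) {y : C.Y} (h : ND C y) : ind C A (C.m y) = ind C A y := by
  rw [ind, ind, arc_m C h]

/-- `σ` assigns to every arc its two sides -/
structure Sides (σ : Arc C → C.Y → ZMod 2) : Prop where
  a : ∀ A y, σ A (C.a y) = σ A y
  r : ∀ A y, σ A (C.r y) = σ A y + ind C A (C.r y)

theorem sum_ind {y : C.Y} (h : ND C y) (A : Arc C) : ∑ j : ZMod 12, ind C A (fl C y j) = 0 := by
  refine Finset.sum_involution (fun j _ => Mo.mu (C.p y).1 j) ?_ ?_ ?_ ?_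
  · intro j _
    rw [← m_fl C h, ind_m C A ((nd_fl C y j).2 h)]
    exact CharTwo.add_self_eq_zero _
  · intro j _ _
    exact (far_ne ((Mo.good _).far j)).symm
  · intro j _; exact Finset.mem_univ _
  · intro j _; exact (Mo.good _).inv j

theorem sum_range_zmod {R : Type} [AddCommMonoid R] (g : ZMod 12 → R) :
    ∑ k ∈ Finset.range 12, g (k : ZMod 12) = ∑ j : ZMod 12, g j := by
  rw [Finset.sum_range]
  exact Finset.sum_congr rfl fun k _ => congrArg g (ZMod.natCast_zmod_val (n := 12) k)

theorem exists_side (hC : C.Univ) : ∃ σ : Arc C → C.Y → ZMod 2, Sides C σ := by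
  have h : ∀ A : Arc C, ∃ s : C.Y → ZMod 2, (∀ y, s (C.a y) = s y) ∧
      ∀ y, s (C.r y) = s y + ind C A (C.r y) := by
    intro A
    have := exists_section (C := C) hC (T := ZMod 2) (fun y t => t)
      (fun y => Equiv.addRight (ind C A (C.r y))) (fun y t => rfl) ?_ ?_ 0
    · obtain ⟨s, h1, h2⟩ := this
      exact ⟨s, h1, h2⟩
    · intro y t
      simp only [Equiv.coe_addRight, Equiv.addRight_symm]
      rw [r_b, r_b, ind_a, ind_a]
      rw [add_neg_cancel_right, add_neg_cancel_right]
    · intro y t h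
      have h1 : ∀ n : ℕ, (tr (C := C) (fun y => Equiv.addRight (ind C A (C.r y))) ^ n) (y, t) =
          ((C.r ^ n) y, t + ∑ k ∈ Finset.range n, ind C A ((C.r ^ (k + 1)) y)) := by
        intro n
        induction n with
        | zero => simp
        | succ n ih =>
          rw [pow_succ', Equiv.Perm.mul_apply, ih, pow_succ', Equiv.Perm.mul_apply]
          refine Prod.ext rfl ?_
          rw [Finset.sum_range_succ, pow_succ', Equiv.Perm.mul_apply, ← add_assoc]
          rfl
      rw [h1, C.nd y h]
      have h2 : ∑ k ∈ Finset.range 12, ind C A ((C.r ^ (k + 1)) y) =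
          ∑ j : ZMod 12, ind C A (fl C y j) := by
        have h3 : ∀ k : ℕ, ind C A ((C.r ^ (k + 1)) y) = ind C A (fl C y (lab C y + 1 + k)) := by
          intro k
          rw [r_pow_fl C h]
          congr 2
          push_cast
          ring
        simp_rw [h3]
        rw [← Equiv.sum_comp (Equiv.addLeft (lab C y + 1)) (fun j => ind C A (fl C y j))]
        exact sum_range_zmod (fun j => ind C A (fl C y (lab C y + 1 + j)))
      rw [h2, sum_ind C h, add_zero]
  choose σ h1 h2 using h
  exact ⟨σ, h1, h2⟩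

/-! ### walks along an arc -/

/-- the next exit side: cross the side of `e`, then follow the chord -/
def nx (e : C.Y) : C.Y := C.m (C.a e)

theorem lab_nx (e : C.Y) : Far (lab C e) (lab C (nx C e)) := by
  rw [nx, lab_m, lab_a]
  exact (Mo.good _).far _

/-- the labels of the first `k` sides of the walk from `e` -/
def labs (e : C.Y) : ℕ → List (ZMod 12)
  | 0 => []
  | k + 1 => lab C e :: labs (nx C e) k

theorem labs_length (e : C.Y) (k : ℕ) : (labs C e k).length = k := by
  induction k generalizing e with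
  | zero => rfl
  | succ k ih => rw [labs, List.length_cons, ih]

theorem labs_rigid (e : C.Y) (k : ℕ) : Rigid (labs C e k) := by
  induction k generalizing e with
  | zero => exact List.isChain_nil
  | succ k ih =>
    cases k with
    | zero => exact List.isChain_singleton _
    | succ k => exact List.isChain_cons_cons.2 ⟨lab_nx C e, ih _⟩

section dev
variable {C} {d : C.Y → W}

/-- `d` is a development -/
structure Dev (C : Cov Mo) (d : C.Y → W) : Prop where
  a : ∀ y, d (C.a y) = d y * rg G12 (lab C y)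
  r : ∀ y, d (C.r y) = d y

theorem Dev.r_pow (hd : Dev C d) (y : C.Y) (n : ℕ) : d ((C.r ^ n) y) = d y := by
  induction n with
  | zero => rfl
  | succ n ih => rw [pow_succ', Equiv.Perm.mul_apply, hd.r, ih]

theorem Dev.m (hd : Dev C d) (y : C.Y) : d (C.m y) = d y := hd.r_pow _ _

theorem Dev.iter (hd : Dev C d) (e : C.Y) (k : ℕ) :
    d ((nx C)^[k] e) = d e * wp G12 (labs C e k) := by
  induction k generalizing e with
  | zero => rw [labs, wp_nil, mul_one]; rfl
  | succ k ih =>
    rw [Function.iterate_succ_apply, ih, labs, wp_cons, nx, hd.m, hd.a, mul_assoc]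

theorem Dev.iter_a (hd : Dev C d) (e : C.Y) (k : ℕ) :
    d (C.a ((nx C)^[k] e)) = d e * wp G12 (labs C e (k + 1)) := by
  rw [← hd.iter, Function.iterate_succ_apply', nx, hd.m]

theorem Dev.labs_eq {e e' : C.Y} {k k' : ℕ} (h0 : d e = d e')
    (h : d e * wp G12 (labs C e k) = d e' * wp G12 (labs C e' k')) :
    labs C e k = labs C e' k' := by
  rw [h0] at h
  exact (labs_rigid C e k).eq (labs_rigid C e' k') (mul_left_cancel h)

end dev

/-- `f'` is on the walk from `e` -/
def OnWalk (e f' : C.Y) (k : ℕ) : Prop :=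
  (∀ j < k, ND C (C.a ((nx C)^[j] e))) ∧ (f' = (nx C)^[k] e ∨ f' = C.a ((nx C)^[k] e))

theorem arc_iter {e : C.Y} {k : ℕ} (h : ∀ j < k, ND C (C.a ((nx C)^[j] e))) :
    arc C ((nx C)^[k] e) = arc C e := by
  induction k with
  | zero => rfl
  | succ k ih =>
    rw [Function.iterate_succ_apply', nx, arc_m C (h k (Nat.lt_succ_self k)), arc_a,
      ih (fun j hj => h j (hj.trans (Nat.lt_succ_self k)))]

/-- every flag of the arc of `f` is reached by a walk from `f` or from `a f` -/
theorem walk {f f' : C.Y} (h : C.SameArc f f') :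
    ∃ k, OnWalk C f f' k ∨ OnWalk C (C.a f) f' k := by
  have key : ∀ g, (∃ k, OnWalk C f g k ∨ OnWalk C (C.a f) g k) →
      (∃ k, OnWalk C f (C.a g) k ∨ OnWalk C (C.a f) (C.a g) k) := by
    rintro g ⟨k, h | h⟩
    · refine ⟨k, Or.inl ⟨h.1, ?_⟩⟩
      rcases h.2 with e | e
      · exact Or.inr (by rw [e])
      · exact Or.inl (by rw [e, C.a_a])
    · refine ⟨k, Or.inr ⟨h.1, ?_⟩⟩
      rcases h.2 with e | e
      · exact Or.inr (by rw [e])
      · exact Or.inl (by rw [e, C.a_a])
  have key2 : ∀ e g, C.a (C.a e) = e → ND C g → (∃ k, OnWalk C e g k) →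
      ∃ k, OnWalk C e (C.m g) k ∨ OnWalk C (C.a e) (C.m g) k := by
    rintro e g - hg ⟨k, h1, h2 | h2⟩
    · cases k with
      | zero =>
        have e0 : g = e := h2
        subst e0
        refine ⟨1, Or.inr ⟨?_, Or.inl ?_⟩⟩
        · intro j hj
          have : j = 0 := by omega
          subst this
          change ND C (C.a (C.a g))
          rwa [C.a_a]
        · change C.m g = nx C (C.a g)
          rw [nx, C.a_a]
      | succ k =>
        refine ⟨k, Or.inl ⟨fun j hj => h1 j (hj.trans (Nat.lt_succ_self k)), Or.inr ?_⟩⟩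
        rw [h2, Function.iterate_succ_apply', nx, m_m C (h1 k (Nat.lt_succ_self k))]
    · refine ⟨k + 1, Or.inl ⟨?_, Or.inl ?_⟩⟩
      · intro j hj
        rcases Nat.lt_succ_iff_lt_or_eq.1 hj with h | h
        · exact h1 j h
        · rw [h, ← h2]; exact hg
      · rw [h2, Function.iterate_succ_apply']; rfl
  have key3 : ∀ g, ND C g → (∃ k, OnWalk C f g k ∨ OnWalk C (C.a f) g k) →
      (∃ k, OnWalk C f (C.m g) k ∨ OnWalk C (C.a f) (C.m g) k) := by
    rintro g hg ⟨k, h | h⟩
    · exact key2 f g (C.a_a _) hg ⟨k, h⟩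
    · obtain ⟨k', h'⟩ := key2 (C.a f) g (C.a_a _) hg ⟨k, h⟩
      rw [C.a_a] at h'
      exact ⟨k', h'.symm⟩
  have main : (∃ k, OnWalk C f f k ∨ OnWalk C (C.a f) f k) ↔
      (∃ k, OnWalk C f f' k ∨ OnWalk C (C.a f) f' k) := by
    have : ∀ x y, Relation.EqvGen (fun y y' => y' = C.a y ∨ ((C.p y).1 ∉ Mo.D ∧ y' = C.m y)) x y →
        ((∃ k, OnWalk C f x k ∨ OnWalk C (C.a f) x k) ↔
          (∃ k, OnWalk C f y k ∨ OnWalk C (C.a f) y k)) := by
      intro x y hxy
      induction hxy with
      | rel x y h =>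
        rcases h with h | ⟨h, h'⟩
        · subst h
          exact ⟨key x, fun h => by have := key _ h; rwa [C.a_a] at this⟩
        · subst h'
          refine ⟨key3 x h, fun h2 => ?_⟩
          have := key3 _ ((nd_m C x).2 h) h2
          rwa [m_m C h] at this
      | refl x => exact Iff.rfl
      | symm x y _ ih => exact ih.symm
      | trans x y z _ _ ih ih' => exact ih.trans ih'
    exact this f f' h
  exact main.1 ⟨0, Or.inl ⟨fun j hj => absurd hj (Nat.not_lt_zero j), Or.inl rfl⟩⟩

section F
variable {C} {d : C.Y → W}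

theorem nd_a_a {y : C.Y} : ND C (C.a (C.a y)) ↔ ND C y := by rw [C.a_a]

/-- an arc meets a chamber at most once -/
theorem F1 (hd : Dev C d) {f f' : C.Y} (h : arc C f = arc C f') {n : ℕ} (hn : f' = (C.r ^ n) f) :
    f' = f ∨ (ND C f ∧ f' = C.m f) := by
  have hdf : d f' = d f := by rw [hn, hd.r_pow]
  have e0 : ∀ (e : C.Y) (k : ℕ), wp G12 (labs C e k) = 1 → k = 0 := by
    intro e k hk
    have := (labs_rigid C e k).eq (l' := []) List.isChain_nil (by rw [hk, wp_nil])
    rw [← labs_length C e k, this]; rfl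
  obtain ⟨k, hk | hk⟩ := walk C ((arc_eq C).1 h)
  · rcases hk.2 with e | e
    · left
      have h1 := hd.iter f k
      rw [← e, hdf] at h1
      have := e0 f k (mul_left_cancel (h1.symm.trans (mul_one _).symm))
      rw [e, this]; rfl
    · exfalso
      have h1 := hd.iter_a f k
      rw [← e, hdf] at h1
      have := e0 f (k + 1) (mul_left_cancel (h1.symm.trans (mul_one _).symm))
      omega
  · cases k with
    | zero =>
      rcases hk.2 with e | e
      · exfalso
        have e' : f' = C.a f := e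
        have h1 := hd.iter_a f 0
        change d (C.a f) = _ at h1
        rw [← e', hdf] at h1
        have := e0 f 1 (mul_left_cancel (h1.symm.trans (mul_one _).symm))
        omega
      · left
        have e' : f' = C.a (C.a f) := e
        rw [e', C.a_a]
    | succ k =>
      have hnd : ND C f := nd_a_a.1 (hk.1 0 (Nat.succ_pos k))
      have hm : nx C (C.a f) = C.m f := by rw [nx, C.a_a]
      rcases hk.2 with e | e
      · right
        rw [Function.iterate_succ_apply, hm] at e
        have h1 := hd.iter (C.m f) k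
        rw [← e, hdf, hd.m] at h1
        have := e0 (C.m f) k (mul_left_cancel (h1.symm.trans (mul_one _).symm))
        subst this
        exact ⟨hnd, e⟩
      · exfalso
        rw [Function.iterate_succ_apply, hm] at e
        have h1 := hd.iter_a (C.m f) k
        rw [← e, hdf, hd.m] at h1
        have := e0 (C.m f) (k + 1) (mul_left_cancel (h1.symm.trans (mul_one _).symm))
        omega

/-- the first exit side of an arc from a chamber towards another one -/
theorem exit (hd : Dev C d) {f f' : C.Y} (h : arc C f = arc C f')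
    (hne : ∀ n : ℕ, f' ≠ (C.r ^ n) f) :
    ∃ e n, (e = f ∨ e = C.m f) ∧ d f' = d f * wp G12 (labs C e (n + 1)) := by
  obtain ⟨k, hk | hk⟩ := walk C ((arc_eq C).1 h)
  · rcases hk.2 with e | e
    · cases k with
      | zero => exact absurd e (hne 0)
      | succ k => exact ⟨f, k, Or.inl rfl, by rw [e, hd.iter]⟩
    · exact ⟨f, k, Or.inl rfl, by rw [e, hd.iter_a]⟩
  · have hm : nx C (C.a f) = C.m f := by rw [nx, C.a_a]
    rcases hk.2 with e | e
    · cases k with
      | zero => exact ⟨f, 0, Or.inl rfl, by rw [e]; exact hd.iter_a f 0⟩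
      | succ k =>
        rw [Function.iterate_succ_apply, hm] at e
        cases k with
        | zero => exact absurd e (hne _)
        | succ k => exact ⟨C.m f, k, Or.inr rfl, by rw [e, hd.iter, hd.m]⟩
    · cases k with
      | zero =>
        have e' : f' = C.a (C.a f) := e
        rw [C.a_a] at e'
        exact absurd e' (hne 0)
      | succ k =>
        rw [Function.iterate_succ_apply, hm] at e
        exact ⟨C.m f, k, Or.inr rfl, by rw [e, hd.iter_a, hd.m]⟩

theorem orbit_m (f : C.Y) : ∃ n : ℕ, C.m f = (C.r ^ n) f := ⟨_, rfl⟩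

theorem orbit_lab {f : C.Y} (hf : ND C f) {i j : ℕ}
    (h : lab C ((C.r ^ i) f) = lab C ((C.r ^ j) f)) : (C.r ^ i) f = (C.r ^ j) f := by
  rw [lab_r_pow, lab_r_pow] at h
  exact r_pow_eq C hf (add_left_cancel h)

/-- two arcs meet in at most one chamber -/
theorem F2 (hd : Dev C d) {f f' g g' : C.Y} (hf : ND C f) (hff : arc C f = arc C f')
    (hgg : arc C g = arc C g') {i j : ℕ} (hg : g = (C.r ^ i) f) (hg' : g' = (C.r ^ j) f')
    (hne : ∀ n : ℕ, f' ≠ (C.r ^ n) f) (hne' : ∀ n : ℕ, g' ≠ (C.r ^ n) g) : arc C f = arc C g := by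
  have hgn : ND C g := by rw [hg]; exact (nd_r_pow C f i).2 hf
  obtain ⟨e, n, he, h1⟩ := exit hd hff hne
  obtain ⟨e', n', he', h2⟩ := exit hd hgg hne'
  have hdg : d g = d f := by rw [hg, hd.r_pow]
  have hdg' : d g' = d f' := by rw [hg', hd.r_pow]
  have hlab : lab C e = lab C e' := by
    have h3 : wp G12 (labs C e (n + 1)) = wp G12 (labs C e' (n' + 1)) := by
      rw [hdg', h1, hdg] at h2
      exact mul_left_cancel h2
    have h4 := (labs_rigid C e (n + 1)).eq (labs_rigid C e' (n' + 1)) h3
    rw [labs, labs] at h4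
    exact (List.cons.inj h4).1
  have ho : ∃ k, e = (C.r ^ k) f := by
    rcases he with rfl | rfl
    · exact ⟨0, rfl⟩
    · exact orbit_m f
  have ho' : ∃ k, e' = (C.r ^ k) f := by
    rcases he' with rfl | rfl
    · exact ⟨i, hg⟩
    · obtain ⟨k, hk⟩ := orbit_m g
      exact ⟨k + i, by rw [hk, hg, pow_add, Equiv.Perm.mul_apply]⟩
  obtain ⟨k, hk⟩ := ho
  obtain ⟨k', hk'⟩ := ho'
  have hee : e = e' := by
    rw [hk, hk'] at hlab ⊢
    exact orbit_lab hf hlab
  have h5 : arc C e = arc C f := by
    rcases he with rfl | rfl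
    · rfl
    · exact arc_m C hf
  have h6 : arc C e' = arc C g := by
    rcases he' with rfl | rfl
    · rfl
    · exact arc_m C hgn
  rw [← h5, ← h6, hee]

end F

/-! ### side functions inside a chamber -/

section S
variable {C} {σ : Arc C → C.Y → ZMod 2} {d : C.Y → W}

theorem Sides.r_pow (hσ : Sides C σ) (A : Arc C) (y : C.Y) (n : ℕ) :
    σ A ((C.r ^ n) y) = σ A y + ∑ k ∈ Finset.range n, ind C A ((C.r ^ (k + 1)) y) := by
  induction n with
  | zero => simp
  | succ n ih =>
    rw [pow_succ', Equiv.Perm.mul_apply, hσ.r, ih, Finset.sum_range_succ, add_assoc, pow_succ' C.r n,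
      Equiv.Perm.mul_apply]

theorem Sides.b (hσ : Sides C σ) (A : Arc C) (y : C.Y) : σ A (C.b y) = σ A y := by
  have h := hσ.r A (C.b y)
  rw [r_b, hσ.a, hσ.r, ind_a] at h
  exact (add_right_cancel h).symm

/-- an arc which separates two corners of a chamber goes through a side of the chamber -/
theorem chm (hσ : Sides C σ) {A : Arc C} {y : C.Y} {n : ℕ} (h : σ A y ≠ σ A ((C.r ^ n) y)) :
    ∃ k : ℕ, k < n ∧ arc C ((C.r ^ (k + 1)) y) = A := by
  by_contra hcon
  push Not at hcon
  apply h
  rw [hσ.r_pow, Finset.sum_eq_zero, add_zero]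
  intro k hk
  rw [ind, if_neg (hcon k (Finset.mem_range.1 hk))]

/-- two different corners of a non-defect chamber are separated by an arc -/
theorem sepc (hσ : Sides C σ) (hd : Dev C d) {y : C.Y} (hy : ND C y) {n : ℕ} (h1 : 1 ≤ n)
    (h2 : n ≤ 11) : ∃ A, σ A y ≠ σ A ((C.r ^ n) y) := by
  obtain ⟨i, hi, hi2⟩ := (Mo.good (C.p y).1).conn (lab C y + 1) n h1 h2
  refine ⟨arc C ((C.r ^ (i + 1)) y), ?_⟩
  rw [hσ.r_pow]
  have h3 : ∑ k ∈ Finset.range n, ind C (arc C ((C.r ^ (i + 1)) y)) ((C.r ^ (k + 1)) y) = 1 := by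
    rw [Finset.sum_eq_single_of_mem i (Finset.mem_range.2 hi)]
    · rw [ind, if_pos rfl]
    · intro k hk hki
      rw [Finset.mem_range] at hk
      rw [ind, if_neg]
      intro hcon
      have hlt : ∀ a b : ℕ, a < n → b < n → ((a : ZMod 12) = b) → a = b := by
        intro a b ha hb hab
        have := (ZMod.natCast_eq_natCast_iff' a b 12).1 hab
        rw [Nat.mod_eq_of_lt (by omega), Nat.mod_eq_of_lt (by omega)] at this
        exact this
      have h4 : ∃ m : ℕ, (C.r ^ (k + 1)) y = (C.r ^ m) ((C.r ^ (i + 1)) y) := by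
        refine ⟨k + 1 + 11 * (i + 1), ?_⟩
        rw [← Equiv.Perm.mul_apply, ← pow_add]
        refine r_pow_eq C hy ?_
        push_cast
        have : (12 : ZMod 12) = 0 := by decide
        linear_combination (-(i : ZMod 12) - 1) * this
      obtain ⟨m, hm⟩ := h4
      rcases F1 hd hcon.symm hm with h5 | ⟨-, h5⟩
      · have h6 := congrArg (lab C) h5
        rw [lab_r_pow, lab_r_pow] at h6
        push_cast at h6
        exact hki (hlt k i hk hi (by linear_combination h6))
      · have h6 := congrArg (lab C) h5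
        rw [lab_m, lab_r_pow, lab_r_pow, p_r_pow] at h6
        have h7 : Mo.mu (C.p y).1 (lab C y + 1 + i) - (lab C y + 1) = k := by
          have e : lab C y + ((i + 1 : ℕ) : ZMod 12) = lab C y + 1 + i := by push_cast; ring
          rw [← e, ← h6]; push_cast; ring
        rw [h7, ZMod.val_natCast, Nat.mod_eq_of_lt (by omega)] at hi2
        omega
  rw [h3]
  intro h
  have : (1 : ZMod 2) = 0 := by
    have h' := h.symm
    rw [add_eq_left] at h'
    exact h'
  exact absurd this (by decide)

end S

end Pool.CX.UP
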